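import Pool.Agent.T2h17.GH.Stm

/-!
# (ASYK) the main theorem on G-systems for families with arbitrary constants
-/

set_option autoImplicit false

open PowerSeries

namespace Pool.Agent.T2h17.GH

open Pool.Agent.Y113 Pool.Agent.Y916.Al Pool.Agent.R351.GD

theorem t_asyk (hrank : S_rankk) (hcorek : S_corek) : S_gkk := by
  intro q₀
  obtain ⟨q, hq⟩ : ∃ q, q = q₀ + 1 := ⟨_, rfl⟩
  refine ⟨fun N => 2 * ((2 * (2 * q + 3) + 2 * (2 * q + 8) + ((2 * q + 8) + 2 * (N * (2 * q + 8))) * (N * (2 * q + 8))) *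
    N + (2 + 2 * (q + 1) + (2 * q + 8) + ((2 * q + 8) + 2 * (N * (2 * q + 8))) * (N * (2 * q + 8)) +
    2 * (N * (2 * q + 8))) + 3), ?_, ?_⟩
  · have hNL := PB.id.mul (PB.const (2 * q + 8))
    have ha1 := ((PB.const (2 * q + 8)).add ((PB.const 2).mul hNL)).mul hNL
    have hb1 := (PB.const (2 * (2 * q + 3) + 2 * (2 * q + 8))).add ha1
    have hc1 := ((PB.const (2 + 2 * (q + 1) + (2 * q + 8))).add ha1).add ((PB.const 2).mul hNL)
    exact (PB.const 2).mul (((hb1.mul PB.id).add hc1).add (PB.const 3))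
  intro m A N
  set L : ℕ := 2 * q + 8 with hL
  set a1 : ℕ := (L + 2 * (N * L)) * (N * L) with ha1
  set a0 : ℕ := (N + 1) * (N * L) with ha0
  set b1 : ℕ := 2 * (2 * q + 3) + 2 * L + a1 with hb1
  set b0 : ℕ := N + 1 + a0 with hb0
  set c1 : ℕ := 2 + 2 * (q + 1) + L + a1 + 2 * (N * L) with hc1
  set c0 : ℕ := N + 3 + a0 with hc0
  set e1 : ℕ := b1 * (N * m) + c1 with he1
  set e0 : ℕ := b0 * (N * m) + c0 with he0
  intro C₀ K₀ b T y i₀ K x X₀ hK hm hx0 hPt hG h1 hLI hE hXA hTx R a haLI ha hcount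
  have hC₀ := hG.one_le
  obtain ⟨C, hCd⟩ : ∃ C, C = 2 * C₀ := ⟨_, rfl⟩
  have hC : 1 ≤ C := by rw [hCd]; linarith
  have hE : ‖(x : ℂ)‖ * (2 * C) ^ (e1 + 3) ≤ 1 := by
    have h4C : 2 * C ≤ (2 * C₀) ^ 2 := by
      rw [hCd]
      nlinarith
    refine le_trans (mul_le_mul_of_nonneg_left ?_ (norm_nonneg _)) hE
    calc (2 * C) ^ (e1 + 3) ≤ ((2 * C₀) ^ 2) ^ (e1 + 3) := pow_le_pow_left₀ (by linarith) h4C _
      _ = (2 * C₀) ^ (2 * (e1 + 3)) := by rw [← pow_mul]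
      _ ≤ _ := by
        refine pow_le_pow_right₀ (by linarith) ?_
        show 2 * (e1 + 3) ≤ 2 * (b1 * N + c1 + 3) * (m + 1)
        have h2 : (b1 * N + c1 + 3) * (m + 1) = b1 * (N * m) + c1 + 3 + (b1 * N + (c1 + 3) * m) := by ring
        rw [mul_assoc, h2, he1]
        exact Nat.mul_le_mul_left _ (Nat.le_add_right _ _)
  classical
  have : FiniteDimensional ℚ K := hK
  have : NumberField K := { to_charZero := inferInstance, to_finiteDimensional := hK }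
  have hD2 : 2 ≤ 2 * C := by linarith
  have hD1 : 1 ≤ 2 * C := by linarith
  have hNpos : 0 < N := i₀.pos
  have hε0 : 0 ≤ ‖(x : ℂ)‖ := norm_nonneg _
  have hx8 : 8 * C * ‖(x : ℂ)‖ ≤ 1 := by
    have h2 : (2 * C) ^ 3 ≤ (2 * C) ^ (e1 + 3) := pow_le_pow_right₀ hD1 (by omega)
    have h3 : 8 * C ≤ (2 * C) ^ 3 := by
      have : 1 ≤ C ^ 2 := one_le_pow₀ hC
      nlinarith
    calc 8 * C * ‖(x : ℂ)‖ ≤ (2 * C) ^ (e1 + 3) * ‖(x : ℂ)‖ := mul_le_mul_of_nonneg_right (h3.trans h2) hε0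
      _ = ‖(x : ℂ)‖ * (2 * C) ^ (e1 + 3) := mul_comm _ _
      _ ≤ 1 := hE
  have hε1 : ‖(x : ℂ)‖ ≤ 1 := by nlinarith
  -- the point
  obtain ⟨u, w, hu, hw, hw0, hxuw, hσ⟩ := hPt
  set X : ℝ := max X₀ 1 with hX
  have hX1 : 1 ≤ X := le_max_right _ _
  have hXX : ∀ σ : K →+* ℂ, ‖σ u‖ ≤ X ∧ ‖σ w‖ ≤ X := fun σ =>
    ⟨(hσ σ).1.trans (le_max_left _ _), (hσ σ).2.trans (le_max_left _ _)⟩
  have hXA' : X * ‖(x : ℂ)‖ ^ A ≤ 1 := by
    rcases le_total X₀ 1 with h | h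
    · rw [hX, max_eq_right h, one_mul]; exact pow_le_one₀ hε0 hε1
    · rw [hX, max_eq_left h]; exact hXA
  -- the differential equation
  obtain ⟨g, hg0, hgC, hgG⟩ := hG.der 1
  obtain ⟨G, hGd, hGc, hGe⟩ := hgG 1 le_rfl
  have hode : ∀ i, ((T.map (Int.castRingHom K) : Polynomial K) : K⟦X⟧) * d⁄dX K (PowerSeries.map (algebraMap ℚ K) (y i)) =
      ∑ j, ((Polynomial.C ((g : K)⁻¹) * (G i j).map (Int.castRingHom K) : Polynomial K) : K⟦X⟧) *
        PowerSeries.map (algebraMap ℚ K) (y j) := by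
    intro i
    have h2 := congrArg (PowerSeries.map (algebraMap ℚ K)) (hGe i)
    have h3 : hd 1 (y i) = d⁄dX ℚ (y i) := by
      have := fac_hd 1 (y i)
      simpa using this
    rw [h3, pow_one, map_mul, map_mul, map_ps, map_sum, map_natCast, ← deriv_mapF] at h2
    have h4 : (g : K⟦X⟧) = PowerSeries.C (g : K) := by simp
    have hgK : (g : K) ≠ 0 := by exact_mod_cast hg0.ne'
    have h5 : PowerSeries.C ((g : K)⁻¹) * ((g : K⟦X⟧) * (((T.map (Int.castRingHom K) : Polynomial K) : K⟦X⟧) *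
        d⁄dX K (PowerSeries.map (algebraMap ℚ K) (y i)))) = ((T.map (Int.castRingHom K) : Polynomial K) : K⟦X⟧) *
        d⁄dX K (PowerSeries.map (algebraMap ℚ K) (y i)) := by
      rw [h4, ← mul_assoc, ← map_mul, inv_mul_cancel₀ hgK, map_one, one_mul]
    rw [← h5, h2, Finset.mul_sum]
    refine Finset.sum_congr rfl fun j _ => ?_
    rw [map_mul, map_ps, Polynomial.coe_mul, Polynomial.coe_C, mul_assoc]
  have hLIK := Pool.Agent.Y708.AL.t_ext K N y hLI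
  have hTxK : (T.map (Int.castRingHom K)).eval x ≠ 0 := by
    intro h
    apply hTx
    have h4 : ((((T.map (Int.castRingHom K)).eval x : K)) : ℂ) = Polynomial.aeval (x : ℂ) T := by
      rw [Polynomial.eval_map, Polynomial.aeval_def, Polynomial.eval₂_eq_sum_range, Polynomial.eval₂_eq_sum_range]
      push_cast
      rfl
    rw [← h4, h]
    rfl
  obtain ⟨c₁, hc₁⟩ := hrank K N (T.map (Int.castRingHom K)) _
    (fun i => PowerSeries.map (algebraMap ℚ K) (y i)) hode hLIK x hx0 hTxK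
  -- integral rows
  have : Algebra.IsAlgebraic ℤ K :=
    (IsFractionRing.comap_isAlgebraic_iff (A := ℤ) (K := ℚ) (C := K)).2 inferInstance
  obtain ⟨d, hd0, hd⟩ := Algebra.IsAlgebraic.exists_integral_multiples ℤ
    (Finset.univ.image (fun p : Fin R × Fin N => a p.1 p.2))
  have hdK : (d : K) ≠ 0 := by exact_mod_cast hd0
  set a' : Fin R → Fin N → K := fun r j => (d : K) * a r j with ha'
  have haI : ∀ r j, IsIntegral ℤ (a' r j) := by
    intro r j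
    have h2 := hd (a r j) (Finset.mem_image.2 ⟨(r, j), Finset.mem_univ _, rfl⟩)
    rw [zsmul_eq_mul] at h2
    exact h2
  have ha'LI : LinearIndependent K a' := by
    have h2 := haLI.units_smul (fun _ : Fin R => Units.mk0 (d : K) hdK)
    have h3 : (fun r => a' r) = (fun _ : Fin R => Units.mk0 (d : K) hdK) • a := by
      funext r j
      rfl
    have h4 : a' = (fun _ : Fin R => Units.mk0 (d : K) hdK) • a := h3
    rw [h4]; exact h2
  have ha'0 : ∀ r, ∑ i, (a' r i : ℂ) * evc (x : ℂ) (y i) = 0 := by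
    intro r
    have h2 : ∀ i, ((a' r i : K) : ℂ) * evc (x : ℂ) (y i) = (d : ℂ) * ((a r i : ℂ) * evc (x : ℂ) (y i)) := by
      intro i
      rw [ha']
      push_cast
      ring
    rw [Finset.sum_congr rfl fun i _ => h2 i, ← Finset.mul_sum, ha r, mul_zero]
  set A₁ : ℝ := 1 + ∑ r, ∑ j, ∑ σ : K →+* ℂ, ‖σ (a' r j)‖ with hA₁
  have hA₁1 : 1 ≤ A₁ := by
    have : 0 ≤ ∑ r, ∑ j, ∑ σ : K →+* ℂ, ‖σ (a' r j)‖ :=
      Finset.sum_nonneg fun r _ => Finset.sum_nonneg fun j _ => Finset.sum_nonneg fun σ _ => norm_nonneg _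
    linarith
  have hA₁b : ∀ r j (σ : K →+* ℂ), ‖σ (a' r j)‖ ≤ A₁ := by
    intro r j σ
    have h2 : ‖σ (a' r j)‖ ≤ ∑ σ : K →+* ℂ, ‖σ (a' r j)‖ :=
      Finset.single_le_sum (f := fun σ : K →+* ℂ => ‖σ (a' r j)‖) (fun _ _ => norm_nonneg _) (Finset.mem_univ σ)
    have h3 : ∑ σ : K →+* ℂ, ‖σ (a' r j)‖ ≤ ∑ j, ∑ σ : K →+* ℂ, ‖σ (a' r j)‖ :=
      Finset.single_le_sum (f := fun j => ∑ σ : K →+* ℂ, ‖σ (a' r j)‖)
        (fun _ _ => Finset.sum_nonneg fun _ _ => norm_nonneg _) (Finset.mem_univ j)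
    have h4 : ∑ j, ∑ σ : K →+* ℂ, ‖σ (a' r j)‖ ≤ ∑ r, ∑ j, ∑ σ : K →+* ℂ, ‖σ (a' r j)‖ :=
      Finset.single_le_sum (f := fun r => ∑ j, ∑ σ : K →+* ℂ, ‖σ (a' r j)‖)
        (fun _ _ => Finset.sum_nonneg fun _ _ => Finset.sum_nonneg fun _ _ => norm_nonneg _) (Finset.mem_univ r)
    linarith
  obtain ⟨κ, ν₀, hκ, hcore⟩ := hcorek N q₀ C₀ K₀ b T y hG i₀ K m hK hm x u w hu hw hw0 hxuw h1 X hX1 hXX
    (by rw [hCd] at hx8; linarith) c₁ hc₁ R a' ha'LI haI ha'0 A₁ hA₁1 hA₁b L (by omega)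
  rw [← hCd, ← hq] at hcore
  -- the simplified inequality
  set B : ℝ := κ * (N * (N.factorial * A₁ ^ N) ^ m) with hB
  have hκ0 : 0 ≤ κ := by linarith
  have hkey : ∀ ν : ℕ, ν₀ < ν → (2 * C) ^ ν ≤ B * (2 * C) ^ e0 := by
    intro ν hν
    obtain ⟨hRN, h⟩ := hcore ν hν
    set r : ℕ := N - R with hr
    have hrN : r ≤ N := Nat.sub_le _ _
    have hNL : 4 ≤ N * L := le_trans (by omega) (Nat.le_mul_of_pos_left L hNpos)
    have hm₀ : (N * L - 1) * ν ≤ N * L * ν := Nat.mul_le_mul_right _ (Nat.sub_le _ _)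
    have hA₀ := A0_bound hC N L ν ((N * L - 1) * ν) hm₀
    rw [← ha1, ← ha0] at hA₀
    set A₀ : ℝ := ((N * (L * ν + 1) : ℕ) * C ^ (2 * ((N * L - 1) * ν) + 1)) ^ (N * L) with hA₀d
    have hA₀0 : 0 ≤ A₀ := by positivity
    have hA₀1 : 1 ≤ A₀ := by
      rw [hA₀d]
      apply one_le_pow₀
      have h2 : (1 : ℝ) ≤ C ^ (2 * ((N * L - 1) * ν) + 1) := one_le_pow₀ hC
      have h3 : (1 : ℝ) ≤ ((N * (L * ν + 1) : ℕ) : ℝ) := by
        exact_mod_cast (Nat.mul_pos hNpos (Nat.succ_pos (L * ν)))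
      nlinarith
    set p : ℕ := L * ν + q * (2 * ν) with hp
    have hXp : 1 ≤ X ^ p := one_le_pow₀ hX1
    set Q : ℝ := (2 * C) ^ ((2 * q + 3) * (2 * ν) + 2 * (L * ν) + N + 1) * A₀ with hQ
    have hQ1 : 1 ≤ Q := by
      have h3 : (1 : ℝ) ≤ (2 * C) ^ ((2 * q + 3) * (2 * ν) + 2 * (L * ν) + N + 1) := one_le_pow₀ hD1
      rw [hQ]
      nlinarith
    have hQb : Q ≤ (2 * C) ^ (b1 * ν + b0) := by
      calc Q ≤ (2 * C) ^ ((2 * q + 3) * (2 * ν) + 2 * (L * ν) + N + 1) * (2 * C) ^ (a1 * ν + a0) :=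
            mul_le_mul_of_nonneg_left hA₀ (by positivity)
        _ = (2 * C) ^ (b1 * ν + b0) := by
            rw [← pow_add]; congr 1; rw [hb1, hb0]; ring
    set W : ℝ := (2 * C) ^ (2 * ν + 1) * ((2 * C) ^ ((q + 1) * (2 * ν)) *
        (2 * ((N * ((L * ν : ℕ) + 1) * A₀ * C) * (4 * C) ^ ((N * L - 1) * ν) * ‖(x : ℂ)‖ ^ ((N * L - 1) * ν - 2 * ν)))) with hW
    have hW0 : 0 ≤ W := by positivity
    have hWb : W ≤ (2 * C) ^ (c1 * ν + c0) * ‖(x : ℂ)‖ ^ ((N * L - 1) * ν - 2 * ν) := by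
      have h2 := nat_le_pow hD2 N
      have h3 := nat_le_pow hD2 (L * ν)
      have h4 : (4 * C) ^ ((N * L - 1) * ν) ≤ (2 * C) ^ (2 * (N * L) * ν) := by
        calc (4 * C) ^ ((N * L - 1) * ν) ≤ ((2 * C) ^ 2) ^ ((N * L - 1) * ν) :=
              pow_le_pow_left₀ (by positivity) (by nlinarith) _
          _ = (2 * C) ^ (2 * ((N * L - 1) * ν)) := by rw [← pow_mul]
          _ ≤ (2 * C) ^ (2 * (N * L) * ν) := pow_le_pow_right₀ hD1 (by rw [mul_assoc]; exact Nat.mul_le_mul_left _ hm₀)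
      have h5 : (N : ℝ) * ((L * ν : ℕ) + 1) * A₀ * C ≤ (2 * C) ^ N * (2 * C) ^ (L * ν) * (2 * C) ^ (a1 * ν + a0) * (2 * C) := by
        refine mul_le_mul (mul_le_mul (mul_le_mul (by linarith) h3 (by positivity) (by positivity)) hA₀ hA₀0
          (by positivity)) (by linarith) (by linarith) (by positivity)
      calc W ≤ (2 * C) ^ (2 * ν + 1) * ((2 * C) ^ ((q + 1) * (2 * ν)) * ((2 * C) *
            (((2 * C) ^ N * (2 * C) ^ (L * ν) * (2 * C) ^ (a1 * ν + a0) * (2 * C)) * (2 * C) ^ (2 * (N * L) * ν) *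
            ‖(x : ℂ)‖ ^ ((N * L - 1) * ν - 2 * ν)))) := by
              rw [hW]
              refine mul_le_mul_of_nonneg_left (mul_le_mul_of_nonneg_left ?_ (by positivity)) (by positivity)
              refine mul_le_mul hD2 ?_ (by positivity) (by linarith)
              exact mul_le_mul_of_nonneg_right (mul_le_mul h5 h4 (by positivity) (by positivity)) (by positivity)
        _ = (2 * C) ^ (c1 * ν + c0) * ‖(x : ℂ)‖ ^ ((N * L - 1) * ν - 2 * ν) := by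
            have h6 : c1 * ν + c0 = (2 * ν + 1) + ((q + 1) * (2 * ν) + (1 + (N + L * ν + (a1 * ν + a0) + 1 + 2 * (N * L) * ν))) := by
              rw [hc1, hc0]; ring
            rw [h6]
            simp only [pow_add, pow_one]
            ring
    -- divide by `X ^ p`
    have h' : 1 ≤ κ * (N * W) * (N.factorial * A₁ ^ N * (X ^ p * Q) ^ r) ^ m := by
      have hpos : 0 < X ^ p := by linarith
      have h2 : X ^ p * 1 ≤ X ^ p * (κ * (N * W) * (N.factorial * A₁ ^ N * (X ^ p * Q) ^ r) ^ m) := by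
        calc X ^ p * 1 ≤ X ^ p * Q := mul_le_mul_of_nonneg_left hQ1 hpos.le
          _ ≤ κ * (N * (X ^ p * W) * (N.factorial * A₁ ^ N * (X ^ p * Q) ^ r) ^ m) := h
          _ = _ := by ring
      exact le_of_mul_le_mul_left h2 hpos
    -- exponents
    have hexp : A * (p * (r * m)) + ν ≤ (N * L - 1) * ν - 2 * ν := by
      have h2 : 2 * (A * ((4 * q + 8) * (r * m))) ≤ N * (4 * q + 8) := by
        calc 2 * (A * ((4 * q + 8) * (r * m))) = (2 * A * m * r) * (4 * q + 8) := by ring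
          _ ≤ N * (4 * q + 8) := Nat.mul_le_mul_right _ hcount
      have h3 : A * ((4 * q + 8) * (r * m)) + 4 ≤ N * L := by
        have h4 : N * L = N * (2 * q) + 8 * N := by rw [hL]; ring
        have h5 : N * (4 * q + 8) = 2 * (N * (2 * q)) + 8 * N := by ring
        omega
      have h6 : (A * ((4 * q + 8) * (r * m)) + 4) * ν ≤ N * L * ν := Nat.mul_le_mul_right _ h3
      have h7 : A * (p * (r * m)) = A * ((4 * q + 8) * (r * m)) * ν := by rw [hp, hL]; ring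
      have h8 : (N * L - 1) * ν = N * L * ν - ν := by rw [Nat.sub_mul, one_mul]
      rw [h7, h8]
      have h9 : (A * ((4 * q + 8) * (r * m)) + 4) * ν = A * ((4 * q + 8) * (r * m)) * ν + 4 * ν := by ring
      omega
    have hXε : X ^ (p * (r * m)) * ‖(x : ℂ)‖ ^ ((N * L - 1) * ν - 2 * ν) ≤ ‖(x : ℂ)‖ ^ ν := by
      obtain ⟨s, hs⟩ := Nat.exists_eq_add_of_le hexp
      rw [hs, pow_add, pow_add, pow_mul ‖(x : ℂ)‖]
      have h2 : X ^ (p * (r * m)) * (‖(x : ℂ)‖ ^ A) ^ (p * (r * m)) ≤ 1 := by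
        rw [← mul_pow]
        exact pow_le_one₀ (by positivity) hXA'
      calc X ^ (p * (r * m)) * ((‖(x : ℂ)‖ ^ A) ^ (p * (r * m)) * ‖(x : ℂ)‖ ^ ν * ‖(x : ℂ)‖ ^ s)
          = (X ^ (p * (r * m)) * (‖(x : ℂ)‖ ^ A) ^ (p * (r * m))) * ‖(x : ℂ)‖ ^ ν * ‖(x : ℂ)‖ ^ s := by ring
        _ ≤ 1 * ‖(x : ℂ)‖ ^ ν * 1 := by
            refine mul_le_mul (mul_le_mul_of_nonneg_right h2 (by positivity)) (pow_le_one₀ hε0 hε1) (by positivity)
              (by positivity)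
        _ = ‖(x : ℂ)‖ ^ ν := by ring
    have hQr : Q ^ (r * m) ≤ (2 * C) ^ ((b1 * ν + b0) * (N * m)) := by
      calc Q ^ (r * m) ≤ ((2 * C) ^ (b1 * ν + b0)) ^ (r * m) := pow_le_pow_left₀ (by linarith) hQb _
        _ = (2 * C) ^ ((b1 * ν + b0) * (r * m)) := by rw [← pow_mul]
        _ ≤ _ := pow_le_pow_right₀ hD1 (Nat.mul_le_mul_left _ (Nat.mul_le_mul_right _ hrN))
    have hfin : 1 ≤ B * (2 * C) ^ (e1 * ν + e0) * ‖(x : ℂ)‖ ^ ν := by
      have h2 : κ * (N * W) * (N.factorial * A₁ ^ N * (X ^ p * Q) ^ r) ^ m = B * W * (X ^ (p * (r * m)) * Q ^ (r * m)) := by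
        rw [hB, mul_pow (N.factorial * A₁ ^ N) _ m, ← pow_mul (X ^ p * Q), mul_pow (X ^ p) Q, ← pow_mul X p]
        ring
      rw [h2] at h'
      have hB0 : 0 ≤ B := by positivity
      calc (1 : ℝ) ≤ B * W * (X ^ (p * (r * m)) * Q ^ (r * m)) := h'
        _ ≤ B * ((2 * C) ^ (c1 * ν + c0) * ‖(x : ℂ)‖ ^ ((N * L - 1) * ν - 2 * ν)) *
            (X ^ (p * (r * m)) * (2 * C) ^ ((b1 * ν + b0) * (N * m))) :=
            mul_le_mul (mul_le_mul_of_nonneg_left hWb hB0) (mul_le_mul_of_nonneg_left hQr (by positivity))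
              (by positivity) (by positivity)
        _ = B * ((2 * C) ^ (c1 * ν + c0) * (2 * C) ^ ((b1 * ν + b0) * (N * m))) *
            (X ^ (p * (r * m)) * ‖(x : ℂ)‖ ^ ((N * L - 1) * ν - 2 * ν)) := by ring
        _ ≤ B * ((2 * C) ^ (c1 * ν + c0) * (2 * C) ^ ((b1 * ν + b0) * (N * m))) * ‖(x : ℂ)‖ ^ ν :=
            mul_le_mul_of_nonneg_left hXε (by positivity)
        _ = B * (2 * C) ^ (e1 * ν + e0) * ‖(x : ℂ)‖ ^ ν := by
            rw [← pow_add]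
            congr 3
            rw [he1, he0]; ring
    have hεE : (2 * C) ^ (e1 + 1) * ‖(x : ℂ)‖ ≤ 1 := by
      calc (2 * C) ^ (e1 + 1) * ‖(x : ℂ)‖ ≤ (2 * C) ^ (e1 + 3) * ‖(x : ℂ)‖ :=
            mul_le_mul_of_nonneg_right (pow_le_pow_right₀ hD1 (by omega)) hε0
        _ = ‖(x : ℂ)‖ * (2 * C) ^ (e1 + 3) := mul_comm _ _
        _ ≤ 1 := hE
    have hB0 : 0 ≤ B := by positivity
    calc (2 * C) ^ ν = 1 * (2 * C) ^ ν := (one_mul _).symm
      _ ≤ (B * (2 * C) ^ (e1 * ν + e0) * ‖(x : ℂ)‖ ^ ν) * (2 * C) ^ ν :=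
          mul_le_mul_of_nonneg_right hfin (by positivity)
      _ = B * (2 * C) ^ e0 * ((2 * C) ^ (e1 + 1) * ‖(x : ℂ)‖) ^ ν := by
          rw [mul_pow ((2 * C) ^ (e1 + 1)), ← pow_mul]
          have : (2 * C) ^ ((e1 + 1) * ν) = (2 * C) ^ (e1 * ν) * (2 * C) ^ ν := by rw [← pow_add]; congr 1; ring
          rw [this, pow_add]
          ring
      _ ≤ B * (2 * C) ^ e0 * 1 :=
          mul_le_mul_of_nonneg_left (pow_le_one₀ (by positivity) hεE) (by positivity)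
      _ = B * (2 * C) ^ e0 := mul_one _
  -- contradiction
  have htend := tendsto_pow_atTop_atTop_of_one_lt (show (1 : ℝ) < 2 * C by linarith)
  obtain ⟨ν, hν1, hν2⟩ := ((htend.eventually_gt_atTop (B * (2 * C) ^ e0)).and
    (Filter.eventually_gt_atTop ν₀)).exists
  exact absurd (hkey ν hν2) (not_le.2 hν1)

end Pool.Agent.T2h17.GH
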