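import Pool.Agent.T2h17.GH.Stm

/-!
# Project GH, part BASIS: a basis of the `ℚ[x]`-module generated by a G-system
-/

set_option autoImplicit false

open PowerSeries Finset.HasAntidiagonal

namespace Pool.Agent.T2h17.GH

open Pool.Agent.Y113 (GSys ps hd Bd Bd.mul Bd.mono Bd.sum Bd.pow ps_mul ps_pow ps_sum ps_C coeff_hd hd_mul hd_sum
  hd_coe succ_le_two_pow)

/-- a common denominator of one polynomial -/
lemma den_one (f : Polynomial ℚ) : ∃ D : ℕ, 0 < D ∧ ∃ F : Polynomial ℤ,
    (D : Polynomial ℚ) * f = F.map (Int.castRingHom ℚ) := by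
  induction f using Polynomial.induction_on' with
  | add p q hp hq =>
    obtain ⟨D, hD, F, hF⟩ := hp
    obtain ⟨E, hE, G, hG⟩ := hq
    refine ⟨D * E, Nat.mul_pos hD hE, (E : Polynomial ℤ) * F + (D : Polynomial ℤ) * G, ?_⟩
    simp only [Polynomial.map_add, Polynomial.map_mul, Polynomial.map_natCast, ← hF, ← hG]
    push_cast
    ring
  | monomial n a =>
    refine ⟨a.den, a.pos, Polynomial.monomial n a.num, ?_⟩
    rw [Polynomial.map_monomial, ← Polynomial.C_eq_natCast, Polynomial.C_mul_monomial]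
    congr 1
    rw [mul_comm]
    exact a.mul_den_eq_num

/-- a common denominator of a finite family -/
lemma den_fam {σ : Type*} [Fintype σ] (f : σ → Polynomial ℚ) : ∃ D : ℕ, 0 < D ∧ ∃ F : σ → Polynomial ℤ,
    ∀ i, (D : Polynomial ℚ) * f i = (F i).map (Int.castRingHom ℚ) := by
  classical
  choose D hD F hF using fun i => den_one (f i)
  have h1 : ∀ i, D i ∣ ∏ j, D j := fun i => Finset.dvd_prod_of_mem _ (Finset.mem_univ i)
  choose E hE using h1
  refine ⟨∏ j, D j, Finset.prod_pos fun i _ => hD i, fun i => (E i : Polynomial ℤ) * F i, fun i => ?_⟩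
  rw [hE i, Polynomial.map_mul, ← hF i, Polynomial.map_natCast]
  push_cast
  ring

/-- bounds for a finite family of polynomials -/
lemma bd_fam {σ : Type*} [Fintype σ] (F : σ → Polynomial ℤ) : ∃ (δ : ℕ) (A : ℝ), 1 ≤ A ∧ ∀ i, Bd δ A (F i) := by
  classical
  refine ⟨Finset.univ.sup fun i => (F i).natDegree,
    1 + ∑ i, ∑ l ∈ (F i).support, |(((F i).coeff l : ℤ) : ℝ)|, ?_, fun i => ⟨?_, fun l => ?_⟩⟩
  · have : 0 ≤ ∑ i, ∑ l ∈ (F i).support, |(((F i).coeff l : ℤ) : ℝ)| :=
      Finset.sum_nonneg fun i _ => Finset.sum_nonneg fun l _ => abs_nonneg _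
    linarith
  · exact Finset.le_sup (f := fun i => (F i).natDegree) (Finset.mem_univ i)
  · by_cases hl : l ∈ (F i).support
    · have h1 : |(((F i).coeff l : ℤ) : ℝ)| ≤ ∑ l ∈ (F i).support, |(((F i).coeff l : ℤ) : ℝ)| :=
        Finset.single_le_sum (f := fun l => |(((F i).coeff l : ℤ) : ℝ)|) (fun _ _ => abs_nonneg _) hl
      have h2 : ∑ l ∈ (F i).support, |(((F i).coeff l : ℤ) : ℝ)| ≤
          ∑ i, ∑ l ∈ (F i).support, |(((F i).coeff l : ℤ) : ℝ)| :=
        Finset.single_le_sum (f := fun i => ∑ l ∈ (F i).support, |(((F i).coeff l : ℤ) : ℝ)|)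
          (fun _ _ => Finset.sum_nonneg fun l _ => abs_nonneg _) (Finset.mem_univ i)
      linarith
    · rw [Polynomial.notMem_support_iff.1 hl]
      have : 0 ≤ ∑ i, ∑ l ∈ (F i).support, |(((F i).coeff l : ℤ) : ℝ)| :=
        Finset.sum_nonneg fun i _ => Finset.sum_nonneg fun l _ => abs_nonneg _
      simp only [Int.cast_zero, abs_zero]
      linarith

/-- Hasse derivatives -/
lemma bd_hasse {δ : ℕ} {A : ℝ} {P : Polynomial ℤ} (h : Bd δ A P) (a : ℕ) :
    Bd δ (2 ^ δ * A) (Polynomial.hasseDeriv a P) := by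
  have hA := h.nonneg
  refine ⟨(Polynomial.natDegree_hasseDeriv_le P a).trans ((Nat.sub_le _ _).trans h.1), fun l => ?_⟩
  rw [Polynomial.hasseDeriv_coeff]
  by_cases hl : l + a ≤ δ
  · push_cast
    rw [abs_mul]
    refine mul_le_mul ?_ (h.2 _) (abs_nonneg _) (by positivity)
    rw [Nat.abs_cast]
    have h1 : (l + a).choose a ≤ 2 ^ δ := (Nat.choose_le_two_pow _ _).trans (Nat.pow_le_pow_right (by norm_num) hl)
    exact_mod_cast h1
  · rw [Polynomial.coeff_eq_zero_of_natDegree_lt (lt_of_le_of_lt h.1 (not_le.1 hl))]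
    simp only [mul_zero, Int.cast_zero, abs_zero]
    positivity

lemma hd_ps (a : ℕ) (P : Polynomial ℤ) : hd a (ps P) = ps (Polynomial.hasseDeriv a P) := by
  unfold ps
  rw [hd_coe]
  congr 1
  ext m
  rw [Polynomial.hasseDeriv_coeff, Polynomial.coeff_map, Polynomial.coeff_map, Polynomial.hasseDeriv_coeff]
  simp

lemma coeff_ps (P : Polynomial ℤ) (m : ℕ) : coeff m (ps P) = (P.coeff m : ℚ) := by
  unfold ps
  rw [Polynomial.coeff_coe, Polynomial.coeff_map]
  simp

variable {ι : Type} [Fintype ι] {q : ℕ} {C : ℝ} {T : Polynomial ℤ} {w : ι → ℚ⟦X⟧}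

/-- the passage to another basis -/
lemma gsk_of {N : ℕ} (hw : GSys q C T w) (y : Fin N → ℚ⟦X⟧) (c : Fin N → ι → Polynomial ℤ)
    (M : ι → Fin N → Polynomial ℤ) (μ : ℕ) (hμ : 0 < μ) (hy : ∀ i, y i = ∑ j, ps (c i j) * w j)
    (hM : ∀ j, (μ : ℚ⟦X⟧) * w j = ∑ i, ps (M j i) * y i) : ∃ (K₀ : ℝ) (b : ℕ), GSK q (2 * C) K₀ b T y := by
  classical
  obtain ⟨δ₁, A₁, hA₁, hc₁⟩ := bd_fam (fun p : Fin N × ι => c p.1 p.2)
  obtain ⟨δ₂, A₂, hA₂, hM₂⟩ := bd_fam (fun p : ι × Fin N => M p.1 p.2)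
  have hC := hw.one_le
  have hC0 : 0 < C := zero_lt_one.trans_le hC
  have hC2 : ∀ m : ℕ, C ^ (m + 1) ≤ (2 * C) ^ (m + 1) := fun m => pow_le_pow_left₀ hC0.le (by linarith) _
  set n : ℝ := (Fintype.card ι : ℝ) with hn
  have hn0 : 0 ≤ n := by positivity
  set B₁ : ℝ := (q * δ₁ + 1) * (((q + 1) * C) ^ δ₁ * (2 ^ δ₁ * A₁)) with hB₁
  set B₂ : ℝ := (q * δ₁ + δ₁ + 1) * (B₁ * ((δ₂ + 1) * A₂)) with hB₂
  have hB₁0 : 0 ≤ B₁ := by positivity
  have hB₂0 : 0 ≤ B₂ := by positivity
  set K₀ : ℝ := 1 + μ + n * ((δ₁ + 1) * A₁) + n * (n * B₂) with hK₀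
  have hK1 : 1 ≤ K₀ := by
    have h1 : 0 ≤ (μ : ℝ) := by positivity
    have h2 : 0 ≤ n * ((δ₁ + 1) * A₁) := by positivity
    have h3 : 0 ≤ n * (n * B₂) := by positivity
    linarith
  have hK2 : (μ : ℝ) ≤ K₀ := by
    have h2 : 0 ≤ n * ((δ₁ + 1) * A₁) := by positivity
    have h3 : 0 ≤ n * (n * B₂) := by positivity
    linarith
  have hK3 : n * ((δ₁ + 1) * A₁) ≤ K₀ := by
    have h1 : 0 ≤ (μ : ℝ) := by positivity
    have h3 : 0 ≤ n * (n * B₂) := by positivity
    linarith
  have hK4 : n * (n * B₂) ≤ K₀ := by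
    have h1 : 0 ≤ (μ : ℝ) := by positivity
    have h2 : 0 ≤ n * ((δ₁ + 1) * A₁) := by positivity
    linarith
  refine ⟨K₀, δ₁ + δ₂, ⟨by linarith, hK1, hw.degT, fun l => (hw.sizeT l).trans (by linarith), ?_, ?_, ?_⟩⟩
  · -- size
    intro i m
    have hterm : ∀ j, |((coeff m (ps (c i j) * w j) : ℚ) : ℝ)| ≤ (δ₁ + 1) * A₁ * C ^ (m + 1) := by
      intro j
      rw [coeff_mul]
      have h1 : ∑ p ∈ antidiagonal m, coeff p.1 (ps (c i j)) * coeff p.2 (w j) =
          ∑ p ∈ (antidiagonal m).filter (fun p => p.1 ≤ δ₁), coeff p.1 (ps (c i j)) * coeff p.2 (w j) := by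
        symm
        refine Finset.sum_subset (Finset.filter_subset _ _) fun p hp hp' => ?_
        have h2 : δ₁ < p.1 := by
          by_contra h3
          exact hp' (Finset.mem_filter.2 ⟨hp, not_lt.1 h3⟩)
        rw [coeff_ps, Polynomial.coeff_eq_zero_of_natDegree_lt (lt_of_le_of_lt (hc₁ (i, j)).1 h2)]
        simp
      rw [h1]
      push_cast
      refine (Finset.abs_sum_le_sum_abs _ _).trans ?_
      refine (Finset.sum_le_card_nsmul _ _ (A₁ * C ^ (m + 1)) fun p hp => ?_).trans ?_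
      · have hp1 := (Finset.mem_filter.1 hp).1
        rw [Finset.HasAntidiagonal.mem_antidiagonal] at hp1
        rw [abs_mul, coeff_ps]
        push_cast
        refine mul_le_mul ((hc₁ (i, j)).2 _) ((hw.size j _).trans (pow_le_pow_right₀ hC (by omega))) (abs_nonneg _)
          (by positivity)
      · rw [nsmul_eq_mul]
        have h3 : ((antidiagonal m).filter (fun p => p.1 ≤ δ₁)).card ≤ δ₁ + 1 := by
          have h4 : ((antidiagonal m).filter (fun p => p.1 ≤ δ₁)).card ≤ (Finset.range (δ₁ + 1)).card := by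
            refine Finset.card_le_card_of_injOn (fun p => p.1) (fun p hp => ?_) ?_
            · have := (Finset.mem_filter.1 hp).2
              simpa [Nat.lt_succ_iff] using this
            · intro p hp p' hp' hpp
              have e1 := (Finset.mem_filter.1 hp).1
              have e2 := (Finset.mem_filter.1 hp').1
              rw [Finset.HasAntidiagonal.mem_antidiagonal] at e1 e2
              have e3 : p.1 = p'.1 := hpp
              exact Prod.ext e3 (by omega)
          simpa using h4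
        have h5 : (((antidiagonal m).filter (fun p => p.1 ≤ δ₁)).card : ℝ) ≤ (δ₁ : ℝ) + 1 := by exact_mod_cast h3
        calc (((antidiagonal m).filter (fun p => p.1 ≤ δ₁)).card : ℝ) * (A₁ * C ^ (m + 1))
            ≤ ((δ₁ : ℝ) + 1) * (A₁ * C ^ (m + 1)) := mul_le_mul_of_nonneg_right h5 (by positivity)
          _ = _ := by ring
    rw [hy i, map_sum]
    push_cast
    refine (Finset.abs_sum_le_sum_abs _ _).trans ?_
    refine (Finset.sum_le_card_nsmul _ _ ((δ₁ + 1) * A₁ * C ^ (m + 1)) fun j _ => hterm j).trans ?_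
    rw [nsmul_eq_mul, Finset.card_univ]
    calc (Fintype.card ι : ℝ) * ((δ₁ + 1) * A₁ * C ^ (m + 1)) = n * ((δ₁ + 1) * A₁) * C ^ (m + 1) := by
          rw [hn]; ring
      _ ≤ K₀ * (2 * C) ^ (m + 1) := mul_le_mul hK3 (hC2 m) (by positivity) (by positivity)
  · -- den
    intro m
    obtain ⟨d, hd0, hd, hd'⟩ := hw.den m
    refine ⟨d, hd0, hd.trans ?_, fun i l hl => ?_⟩
    · calc C ^ (m + 1) = 1 * C ^ (m + 1) := (one_mul _).symm
        _ ≤ K₀ * (2 * C) ^ (m + 1) := mul_le_mul hK1 (hC2 m) (by positivity) (by positivity)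
    · choose! a ha using fun j => hd' j
      refine ⟨∑ j, ∑ p ∈ antidiagonal l, (c i j).coeff p.1 * a j p.2, ?_⟩
      rw [hy i, map_sum, Finset.mul_sum]
      push_cast
      refine Finset.sum_congr rfl fun j _ => ?_
      rw [coeff_mul, Finset.mul_sum]
      refine Finset.sum_congr rfl fun p hp => ?_
      rw [Finset.HasAntidiagonal.mem_antidiagonal] at hp
      rw [← ha j p.2 (by omega), coeff_ps]
      ring
  · -- der
    intro k
    obtain ⟨g, hg0, hg, hg'⟩ := hw.der k
    refine ⟨μ * g, Nat.mul_pos hμ hg0, ?_, ?_⟩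
    · push_cast
      exact mul_le_mul hK2 (hg.trans (hC2 k)) (by positivity) (by positivity)
    · intro s hs
      choose! G h1 h2 h3 using hg'
      have hterm : ∀ i i' j l, ∀ p ∈ antidiagonal s, Bd (q * s + (δ₁ + δ₂)) (B₂ * C ^ (k + 1))
          ((T ^ p.1 * Polynomial.hasseDeriv p.1 (c i j)) * (M l i' * G p.2 j l)) := by
        intro i i' j l p hp
        rw [Finset.HasAntidiagonal.mem_antidiagonal] at hp
        by_cases ha : p.1 ≤ δ₁
        · have e1 : Bd (q * p.1) (((q + 1) * C) ^ p.1) (T ^ p.1) := (show Bd q C T from ⟨hw.degT, hw.sizeT⟩).pow p.1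
          have e2 := e1.mul (bd_hasse (hc₁ (i, j)) p.1)
          have e3 : Bd (q * p.2) (C ^ (k + 1)) (G p.2 j l) := ⟨h1 p.2 (by omega) j l, h2 p.2 (by omega) j l⟩
          have e4 := (hM₂ (l, i')).mul e3
          have e5 := e2.mul e4
          refine e5.mono ?_ ?_
          · rw [← hp]
            ring_nf
            omega
          · have f1 : (p.1 : ℝ) ≤ δ₁ := by exact_mod_cast ha
            have f2 : (0 : ℝ) ≤ q := by positivity
            have f3 : (q : ℝ) * p.1 ≤ q * δ₁ := mul_le_mul_of_nonneg_left f1 f2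
            have f4 : 1 ≤ ((q : ℝ) + 1) * C := by nlinarith
            push_cast
            have f5 : ((q : ℝ) * p.1 + 1) * (((q + 1) * C) ^ p.1 * (2 ^ δ₁ * A₁)) ≤ B₁ := by
              refine mul_le_mul (by linarith) ?_ (by positivity) (by positivity)
              exact mul_le_mul_of_nonneg_right (pow_le_pow_right₀ f4 ha) (by positivity)
            calc ((q : ℝ) * p.1 + δ₁ + 1) * (((q : ℝ) * p.1 + 1) * (((q + 1) * C) ^ p.1 * (2 ^ δ₁ * A₁)) *
                  ((δ₂ + 1) * (A₂ * C ^ (k + 1))))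
                ≤ ((q : ℝ) * δ₁ + δ₁ + 1) * (B₁ * ((δ₂ + 1) * (A₂ * C ^ (k + 1)))) := by
                  refine mul_le_mul (by linarith) ?_ (by positivity) (by positivity)
                  exact mul_le_mul_of_nonneg_right f5 (by positivity)
              _ = B₂ * C ^ (k + 1) := by rw [hB₂]; ring
        · rw [Polynomial.hasseDeriv_eq_zero_of_lt_natDegree _ _ (lt_of_le_of_lt (hc₁ (i, j)).1 (not_le.1 ha))]
          simp only [mul_zero, zero_mul]
          exact ⟨by simp, fun l => by simp; positivity⟩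
      have hBd : ∀ i i', Bd (q * s + (δ₁ + δ₂)) (n * (n * B₂) * (2 * C) ^ (k + 1))
          (∑ j, ∑ p ∈ antidiagonal s, ∑ l,
            (T ^ p.1 * Polynomial.hasseDeriv p.1 (c i j)) * (M l i' * G p.2 j l)) := by
        intro i i'
        refine (Bd.sum _ fun j _ => Bd.sum _ fun p hp => Bd.sum _ fun l _ => hterm i i' j l p hp).mono le_rfl ?_
        rw [Finset.card_univ, Finset.Nat.card_antidiagonal]
        push_cast
        have e3 : (s : ℝ) + 1 ≤ 2 ^ (k + 1) := by
          refine (succ_le_two_pow s).trans (pow_le_pow_right₀ (by norm_num) (by omega))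
        rw [← hn]
        calc n * (((s : ℝ) + 1) * (n * (B₂ * C ^ (k + 1)))) ≤ n * (2 ^ (k + 1) * (n * (B₂ * C ^ (k + 1)))) := by
              refine mul_le_mul_of_nonneg_left ?_ hn0
              exact mul_le_mul_of_nonneg_right e3 (by positivity)
          _ = _ := by rw [mul_pow]; ring
      refine ⟨fun i i' => ∑ j, ∑ p ∈ antidiagonal s, ∑ l,
            (T ^ p.1 * Polynomial.hasseDeriv p.1 (c i j)) * (M l i' * G p.2 j l), fun i i' => (hBd i i').1,
        fun i i' l => ((hBd i i').2 l).trans ?_, fun i => ?_⟩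
      · exact mul_le_mul_of_nonneg_right hK4 (by positivity)
      · have e1 : ((μ * g : ℕ) : ℚ⟦X⟧) * (ps T ^ s * hd s (y i)) =
            ∑ j, ∑ p ∈ antidiagonal s, ∑ l, (ps (T ^ p.1 * Polynomial.hasseDeriv p.1 (c i j)) * ps (G p.2 j l)) *
              ((μ : ℚ⟦X⟧) * w l) := by
          rw [hy i, hd_sum, Finset.mul_sum, Finset.mul_sum]
          refine Finset.sum_congr rfl fun j _ => ?_
          rw [hd_mul, Finset.mul_sum, Finset.mul_sum]
          refine Finset.sum_congr rfl fun p hp => ?_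
          rw [Finset.HasAntidiagonal.mem_antidiagonal] at hp
          have e2 : ((μ * g : ℕ) : ℚ⟦X⟧) * (ps T ^ s * (hd p.1 (ps (c i j)) * hd p.2 (w j))) =
              ((μ : ℚ⟦X⟧) * (ps T ^ p.1 * hd p.1 (ps (c i j)))) * ((g : ℚ⟦X⟧) * (ps T ^ p.2 * hd p.2 (w j))) := by
            rw [← hp, pow_add]
            push_cast
            ring
          rw [e2, h3 p.2 (by omega) j, hd_ps, ← ps_pow, ← ps_mul, Finset.mul_sum]
          refine Finset.sum_congr rfl fun l _ => ?_
          ring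
        rw [e1]
        simp only [ps_sum, Finset.sum_mul]
        symm
        rw [Finset.sum_comm]
        refine Finset.sum_congr rfl fun j _ => ?_
        rw [Finset.sum_comm]
        refine Finset.sum_congr rfl fun p _ => ?_
        rw [Finset.sum_comm]
        refine Finset.sum_congr rfl fun l _ => ?_
        rw [hM l, Finset.mul_sum]
        refine Finset.sum_congr rfl fun i' _ => ?_
        simp only [ps_mul]
        ring

lemma smul_eq (P : Polynomial ℚ) (f : ℚ⟦X⟧) : P • f = (P : ℚ⟦X⟧) * f := by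
  rw [Algebra.smul_def]
  rfl

theorem t_basis : S_basis := by
  intro ι _ q C T w hw
  classical
  have hinj : Function.Injective (algebraMap (Polynomial ℚ) ℚ⟦X⟧) := by
    intro P Q hPQ
    exact Polynomial.coe_injective ℚ hPQ
  have htf : Module.IsTorsionFree (Polynomial ℚ) ℚ⟦X⟧ := Module.isTorsionFree_iff_algebraMap_injective.mpr hinj
  set V : Submodule (Polynomial ℚ) ℚ⟦X⟧ := Submodule.span (Polynomial ℚ) (Set.range w) with hV
  have : Module.Finite (Polynomial ℚ) V := Module.Finite.span_of_finite _ (Set.finite_range w)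
  have : Module.Free (Polynomial ℚ) V := inferInstance
  let B := Module.finBasis (Polynomial ℚ) V
  set N := Module.finrank (Polynomial ℚ) V with hN
  have hNc : N ≤ Fintype.card ι := finrank_range_le_card w
  -- coordinates
  have hc0 : ∀ i : Fin N, ∃ c : ι → Polynomial ℚ, ∑ j, c j • w j = (B i : ℚ⟦X⟧) := fun i =>
    (Submodule.mem_span_range_iff_exists_fun _).1 (B i).2
  choose c0 hc0 using hc0
  have hwV : ∀ j, w j ∈ V := fun j => Submodule.subset_span ⟨j, rfl⟩
  have hM0 : ∀ j, w j = ∑ i, (B.repr ⟨w j, hwV j⟩ i) • (B i : ℚ⟦X⟧) := by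
    intro j
    have h1 := B.sum_repr ⟨w j, hwV j⟩
    have h2 := congrArg (V.subtype) h1
    rw [map_sum] at h2
    refine h2.symm.trans ?_
    refine Finset.sum_congr rfl fun i _ => ?_
    rw [map_smul]
    rfl
  obtain ⟨D, hD, c, hc⟩ := den_fam (fun p : Fin N × ι => c0 p.1 p.2)
  obtain ⟨E, hE, M, hM⟩ := den_fam (fun p : ι × Fin N => B.repr ⟨w p.1, hwV p.1⟩ p.2)
  have hDQ : (D : ℚ) ≠ 0 := by exact_mod_cast hD.ne'
  have hD0 : (D : Polynomial ℚ) ≠ 0 := by exact_mod_cast hD.ne'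
  set y : Fin N → ℚ⟦X⟧ := fun i => (D : Polynomial ℚ) • (B i : ℚ⟦X⟧) with hy
  have hy1 : ∀ i, y i = ∑ j, ps (c (i, j)) * w j := by
    intro i
    rw [hy]
    simp only
    rw [← hc0 i, Finset.smul_sum]
    refine Finset.sum_congr rfl fun j _ => ?_
    rw [smul_smul, hc (i, j), smul_eq]
    rfl
  have hM1 : ∀ j, ((E * D : ℕ) : ℚ⟦X⟧) * w j = ∑ i, ps (M (j, i)) * y i := by
    intro j
    have h1 : ((E * D : ℕ) : ℚ⟦X⟧) * w j = ((E * D : ℕ) : Polynomial ℚ) • w j := by
      rw [smul_eq]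
      congr 1
      rw [← Polynomial.C_eq_natCast, Polynomial.coe_C]
      simp
    rw [h1]
    conv_lhs => rw [hM0 j]
    rw [Finset.smul_sum]
    refine Finset.sum_congr rfl fun i _ => ?_
    have h2 := hM (j, i)
    have h3 : ps (M (j, i)) * y i = (Polynomial.map (Int.castRingHom ℚ) (M (j, i))) • y i := by
      rw [smul_eq]; rfl
    rw [h3, ← h2, hy]
    simp only
    rw [smul_smul, smul_smul]
    congr 1
    push_cast
    ring
  obtain ⟨K₀, b, hK⟩ := gsk_of hw y (fun i j => c (i, j)) (fun j i => M (j, i)) (E * D) (Nat.mul_pos hE hD) hy1 hM1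
  refine ⟨N, y, K₀, b, hNc, hK, ?_, fun i => ?_, fun j => ?_⟩
  · have h1 : LinearIndependent (Polynomial ℚ) (fun i => (B i : ℚ⟦X⟧)) :=
      B.linearIndependent.map' V.subtype V.ker_subtype
    rw [Fintype.linearIndependent_iff] at h1 ⊢
    intro g hg i
    have h2 := h1 (fun i => g i * (D : Polynomial ℚ)) (by
      rw [← hg]
      refine Finset.sum_congr rfl fun i _ => ?_
      rw [hy]
      simp only
      rw [smul_smul]) i
    exact (mul_eq_zero.1 h2).resolve_right hD0
  · exact ⟨fun j => (c (i, j)).map (Int.castRingHom ℚ), hy1 i⟩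
  · refine ⟨fun i => Polynomial.C ((D : ℚ)⁻¹) * B.repr ⟨w j, hwV j⟩ i, ?_⟩
    conv_lhs => rw [hM0 j]
    refine Finset.sum_congr rfl fun i _ => ?_
    rw [← smul_eq, hy]
    simp only
    rw [smul_smul]
    congr 1
    have h4 : (D : Polynomial ℚ) = Polynomial.C (D : ℚ) := by simp
    rw [h4, mul_assoc, mul_comm _ (Polynomial.C (D : ℚ)), ← mul_assoc, ← Polynomial.C_mul, inv_mul_cancel₀ hDQ,
      Polynomial.C_1, one_mul]

end Pool.Agent.T2h17.GH
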