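import Pool.Agent.T2h17.GH.Stm

/-!
# Task GH_01_COREK: the estimate for one value of the parameter, for families with arbitrary constants
-/

set_option autoImplicit false

open PowerSeries Finset.HasAntidiagonal

namespace Pool.Agent.T2h17.GH

open Pool.Agent.Y113
open Pool.Agent.Y916.Al
open Pool.Agent.Y921.PW (l1 l1_nonneg l1_bound l1_sum l1_mul l1_pow)

attribute [local instance] Matrix.seminormedAddCommGroup

/-- Siegel's lemma for a family with an arbitrary constant `K₀` -/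
lemma siegel_polyK {N : ℕ} {C₀ C K₀ : ℝ} (hC₀ : 1 ≤ C₀) (hC : 1 ≤ C) (hK1 : 1 ≤ K₀) {y : Fin N → ℚ⟦X⟧}
    (size : ∀ i m, |((coeff m (y i) : ℚ) : ℝ)| ≤ K₀ * C₀ ^ (m + 1))
    (den : ∀ m, ∃ d : ℕ, 0 < d ∧ (d : ℝ) ≤ K₀ * C₀ ^ (m + 1) ∧ ∀ i, ∀ j ≤ m, ∃ a : ℤ, (d : ℚ) * coeff j (y i) = a)
    (n m₀ e : ℕ) (hKC : K₀ ^ 2 * C₀ ^ (2 * m₀ + 1) ≤ C ^ (2 * m₀ + 1)) (hm : 0 < m₀) (hmn : m₀ < N * (n + 1)) (he : m₀ ≤ e * (N * (n + 1) - m₀)) :
    ∃ P : Fin N → Polynomial ℤ, P ≠ 0 ∧ (∀ i, (P i).natDegree ≤ n) ∧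
      (∀ i l, |(((P i).coeff l : ℤ) : ℝ)| ≤ ((N * (n + 1) : ℕ) * C ^ (2 * m₀ + 1)) ^ e) ∧
      ∀ l < m₀, coeff l (∑ i, ps (P i) * y i) = 0 := by
  obtain ⟨d, hd0, hdC, hd⟩ := den m₀
  choose! a ha using hd
  let A : Matrix (Fin m₀) (Fin N × Fin (n + 1)) ℤ := Matrix.of fun l p => if (p.2 : ℕ) ≤ l then a p.1 (l - p.2) else 0
  have hcard : Fintype.card (Fin m₀) < Fintype.card (Fin N × Fin (n + 1)) := by simpa using hmn
  obtain ⟨x, hx0, hAx, hxn⟩ := Int.Matrix.exists_ne_zero_int_vec_norm_le A hcard (by simpa using hm)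
  have hAn : ‖A‖ ≤ C ^ (2 * m₀ + 1) := by
    rw [Matrix.norm_le_iff (by positivity)]
    intro l p
    show ‖(if (p.2 : ℕ) ≤ l then a p.1 (l - p.2) else 0 : ℤ)‖ ≤ _
    split_ifs with h
    · have h1 : ((a p.1 (l - p.2) : ℤ) : ℚ) = (d : ℚ) * coeff ((l : ℕ) - p.2) (y p.1) :=
        (ha p.1 _ (by have := l.2; omega)).symm
      have h2 : ‖a p.1 (l - p.2)‖ = |((a p.1 (l - p.2) : ℤ) : ℝ)| := by
        rw [Int.norm_eq_abs]
      rw [h2]
      have h3 : ((a p.1 (l - p.2) : ℤ) : ℝ) = (d : ℝ) * ((coeff ((l : ℕ) - p.2) (y p.1) : ℚ) : ℝ) := by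
        exact_mod_cast congrArg (fun q : ℚ => (q : ℝ)) h1
      rw [h3, abs_mul, Nat.abs_cast]
      calc (d : ℝ) * |((coeff ((l : ℕ) - p.2) (y p.1) : ℚ) : ℝ)| ≤
            (K₀ * C₀ ^ (m₀ + 1)) * (K₀ * C₀ ^ ((l : ℕ) - p.2 + 1)) :=
            mul_le_mul hdC (size _ _) (abs_nonneg _) (by positivity)
        _ ≤ (K₀ * C₀ ^ (m₀ + 1)) * (K₀ * C₀ ^ m₀) := by
            apply mul_le_mul_of_nonneg_left _ (by positivity)
            apply mul_le_mul_of_nonneg_left _ (by positivity)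
            exact pow_le_pow_right₀ hC₀ (by have := l.2; omega)
        _ = K₀ ^ 2 * C₀ ^ (2 * m₀ + 1) := by
            have e1 : 2 * m₀ + 1 = (m₀ + 1) + m₀ := by ring
            rw [e1, pow_add C₀]; ring
        _ ≤ C ^ (2 * m₀ + 1) := hKC
    · simp only [norm_zero]; positivity
  have hxC : ∀ p, |((x p : ℤ) : ℝ)| ≤ ((N * (n + 1) : ℕ) * C ^ (2 * m₀ + 1)) ^ e := by
    intro p
    have h1 : |((x p : ℤ) : ℝ)| ≤ ‖x‖ := by
      rw [← Int.norm_eq_abs]
      exact norm_le_pi_norm x p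
    refine h1.trans (hxn.trans ?_)
    have hbase : (1 : ℝ) ≤ ((N * (n + 1) : ℕ) : ℝ) * C ^ (2 * m₀ + 1) := by
      have h2 : (1 : ℝ) ≤ ((N * (n + 1) : ℕ) : ℝ) := by
        exact_mod_cast (show 1 ≤ N * (n + 1) by omega)
      have h3 : (1 : ℝ) ≤ C ^ (2 * m₀ + 1) := one_le_pow₀ hC
      nlinarith
    have hmax : max 1 ‖A‖ ≤ C ^ (2 * m₀ + 1) := max_le (one_le_pow₀ hC) hAn
    have hcard2 : (Fintype.card (Fin N × Fin (n + 1)) : ℝ) = ((N * (n + 1) : ℕ) : ℝ) := by simp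
    have hcard3 : (Fintype.card (Fin m₀) : ℝ) = m₀ := by simp
    rw [hcard2, hcard3]
    have hexp : (m₀ : ℝ) / (((N * (n + 1) : ℕ) : ℝ) - m₀) ≤ (e : ℝ) := by
      have h4 : (0 : ℝ) < ((N * (n + 1) : ℕ) : ℝ) - m₀ := by
        have : (m₀ : ℝ) < ((N * (n + 1) : ℕ) : ℝ) := by exact_mod_cast hmn
        linarith
      rw [div_le_iff₀ h4]
      have h5 : ((N * (n + 1) - m₀ : ℕ) : ℝ) = ((N * (n + 1) : ℕ) : ℝ) - m₀ := by
        rw [Nat.cast_sub hmn.le]
      rw [← h5]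
      exact_mod_cast he
    have hnn : (0 : ℝ) ≤ ((N * (n + 1) : ℕ) : ℝ) * max 1 ‖A‖ := by positivity
    calc (((N * (n + 1) : ℕ) : ℝ) * max 1 ‖A‖) ^ ((m₀ : ℝ) / (((N * (n + 1) : ℕ) : ℝ) - m₀))
        ≤ (((N * (n + 1) : ℕ) : ℝ) * C ^ (2 * m₀ + 1)) ^ ((m₀ : ℝ) / (((N * (n + 1) : ℕ) : ℝ) - m₀)) := by
          apply Real.rpow_le_rpow hnn
          · exact mul_le_mul_of_nonneg_left hmax (by positivity)
          · apply div_nonneg (by positivity)
            have : (m₀ : ℝ) < ((N * (n + 1) : ℕ) : ℝ) := by exact_mod_cast hmn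
            linarith
      _ ≤ (((N * (n + 1) : ℕ) : ℝ) * C ^ (2 * m₀ + 1)) ^ (e : ℝ) := Real.rpow_le_rpow_of_exponent_le hbase hexp
      _ = _ := by rw [Real.rpow_natCast]
  -- the polynomials
  let P : Fin N → Polynomial ℤ := fun i => ∑ j : Fin (n + 1), Polynomial.monomial (j : ℕ) (x (i, j))
  have hPc : ∀ i (l : ℕ), (P i).coeff l = if h : l < n + 1 then x (i, ⟨l, h⟩) else 0 := by
    intro i l
    simp only [P, Polynomial.finsetSum_coeff, Polynomial.coeff_monomial]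
    split_ifs with h
    · rw [Finset.sum_eq_single ⟨l, h⟩]
      · simp
      · intro b _ hb
        rw [if_neg]
        intro h2
        exact hb (Fin.ext h2)
      · simp
    · refine Finset.sum_eq_zero fun b _ => ?_
      rw [if_neg]
      have := b.2
      omega
  refine ⟨P, ?_, ?_, ?_, ?_⟩
  · intro h0
    apply hx0
    funext ⟨i, j⟩
    have h1 := hPc i j
    rw [h0] at h1
    simp only [Pi.zero_apply, Polynomial.coeff_zero, j.2, dif_pos] at h1
    exact h1.symm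
  · intro i
    refine Polynomial.natDegree_sum_le_of_forall_le _ _ fun j _ => ?_
    exact (Polynomial.natDegree_monomial_le _).trans (by have := j.2; omega)
  · intro i l
    rw [hPc]
    split_ifs with h
    · exact hxC _
    · simp only [Int.cast_zero, abs_zero]
      positivity
  · intro l hl
    have h1 := congrFun hAx ⟨l, hl⟩
    have h2 : (d : ℚ) * coeff l (∑ i, ps (P i) * y i) = (((A.mulVec x) ⟨l, hl⟩ : ℤ) : ℚ) := by
      have h3 : (A.mulVec x) ⟨l, hl⟩ = ∑ p : Fin N × Fin (n + 1), A ⟨l, hl⟩ p * x p := rfl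
      rw [h3, map_sum, Finset.mul_sum, Fintype.sum_prod_type]
      push_cast
      refine Finset.sum_congr rfl fun i _ => ?_
      rw [coeff_mul, Finset.mul_sum]
      -- sum over the antidiagonal versus sum over Fin (n+1)
      have h4 : ∀ p ∈ antidiagonal l, (d : ℚ) * (coeff p.1 (ps (P i)) * coeff p.2 (y i)) =
          (((P i).coeff p.1 : ℤ) : ℚ) * (a i (l - p.1) : ℚ) := by
        intro p hp
        rw [Finset.HasAntidiagonal.mem_antidiagonal] at hp
        have h5 : p.2 = l - p.1 := by omega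
        rw [← ha i (l - p.1) (by omega), ← h5]
        simp only [ps, Polynomial.coeff_coe, Polynomial.coeff_map, eq_intCast]
        ring
      rw [Finset.sum_congr rfl h4]
      rw [Finset.Nat.sum_antidiagonal_eq_sum_range_succ_mk]
      have h6 : ∀ j : Fin (n + 1), ((A ⟨l, hl⟩ (i, j) : ℤ) : ℚ) * ((x (i, j) : ℤ) : ℚ) =
          (fun j : ℕ => if j ≤ l then (((P i).coeff j : ℤ) : ℚ) * (a i (l - j) : ℚ) else 0) j := by
        intro j
        simp only [A, Matrix.of_apply]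
        rw [hPc, dif_pos j.2]
        split_ifs with h
        · push_cast; ring
        · simp
      rw [Finset.sum_congr rfl fun j _ => h6 j, Fin.sum_univ_eq_sum_range
        (fun j : ℕ => if j ≤ l then (((P i).coeff j : ℤ) : ℚ) * (a i (l - j) : ℚ) else 0) (n + 1)]
      have h7 : ∀ j : ℕ, n + 1 ≤ j → (P i).coeff j = 0 := by
        intro j hj
        rw [hPc, dif_neg (by omega)]
      rcases le_total (n + 1) (l + 1) with h8 | h8
      · rw [← Finset.sum_subset (Finset.range_mono h8)]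
        · refine Finset.sum_congr rfl fun j hj => ?_
          rw [Finset.mem_range] at hj
          rw [if_pos (by omega)]
        · intro j _ hj
          rw [Finset.mem_range, not_lt] at hj
          rw [h7 j hj]; simp
      · symm
        rw [← Finset.sum_subset (Finset.range_mono h8)]
        · refine Finset.sum_congr rfl fun j hj => ?_
          rw [Finset.mem_range] at hj
          rw [if_pos (by omega)]
        · intro j _ hj
          rw [Finset.mem_range, not_lt] at hj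
          rw [if_neg (by omega)]
    rw [h1] at h2
    simp only [Pi.zero_apply, Int.cast_zero] at h2
    rcases mul_eq_zero.1 h2 with h3 | h3
    · exact absurd (by exact_mod_cast h3) hd0.ne'
    · exact h3

/-- the degrees of the derived vector -/
lemma natDegree_PdZK {N q b : ℕ} {T : Polynomial ℤ} {G : ℕ → Fin N → Fin N → Polynomial ℤ} {P : Fin N → Polynomial ℤ} {n K : ℕ}
    (hT : T.natDegree ≤ q) (hP : ∀ i, (P i).natDegree ≤ n) (hG : ∀ s ≤ K, ∀ i j, (G s i j).natDegree ≤ q * s + b) {k : ℕ}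
    (hk : k ≤ K) (j : Fin N) : (PdZ T G P k j).natDegree ≤ n + (q * K + b) := by
  unfold PdZ
  refine Polynomial.natDegree_sum_le_of_forall_le _ _ fun p hp => ?_
  rw [Finset.HasAntidiagonal.mem_antidiagonal] at hp
  refine Polynomial.natDegree_sum_le_of_forall_le _ _ fun i _ => ?_
  refine Polynomial.natDegree_mul_le.trans ?_
  have h1 := hG p.2 (by omega) i j
  have h2 : (T ^ p.1 * Polynomial.hasseDeriv p.1 (P i)).natDegree ≤ q * p.1 + n := by
    refine Polynomial.natDegree_mul_le.trans ?_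
    have h3 : (T ^ p.1).natDegree ≤ q * p.1 := by
      refine Polynomial.natDegree_pow_le.trans ?_
      rw [mul_comm]
      exact Nat.mul_le_mul_right _ hT
    have h4 : (Polynomial.hasseDeriv p.1 (P i)).natDegree ≤ n :=
      (Polynomial.natDegree_hasseDeriv_le _ _).trans ((Nat.sub_le _ _).trans (hP i))
    omega
  have h5 : q * p.1 + q * p.2 ≤ q * K := by
    rw [← Nat.mul_add]
    exact Nat.mul_le_mul_left _ (by omega)
  omega

/-- the sum of the absolute values of the coefficients of the derived vector -/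
lemma PdZ_l1K {N q : ℕ} {C : ℝ} {T : Polynomial ℤ} {G : ℕ → Fin N → Fin N → Polynomial ℤ} {P : Fin N → Polynomial ℤ} {n K : ℕ} {A D : ℝ}
    (hD2 : 2 ≤ D) (hCD : C ≤ D) (hC : 1 ≤ C) (hA : 0 ≤ A)
    (hT : T.natDegree ≤ q) (hTc : ∀ l, |((T.coeff l : ℤ) : ℝ)| ≤ C)
    (hP : ∀ i, (P i).natDegree ≤ n) (hPc : ∀ i l, |(((P i).coeff l : ℤ) : ℝ)| ≤ A)
    (hG : ∀ s ≤ K, ∀ i j, (G s i j).natDegree ≤ q * K)
    (hGc : ∀ s ≤ K, ∀ i j l, |(((G s i j).coeff l : ℤ) : ℝ)| ≤ C ^ (K + 1)) {k : ℕ} (hk : k ≤ K) (j : Fin N) :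
    l1 (PdZ T G P k j) ≤ D ^ ((2 * q + 3) * K + 2 * n + N + 1) * A := by
  have hD0 : 0 ≤ D := by linarith
  have hD1 : 1 ≤ D := by linarith
  have hnat : ∀ a : ℕ, (a : ℝ) + 1 ≤ D ^ a := by
    intro a
    calc (a : ℝ) + 1 ≤ 2 ^ a := by
          have : a + 1 ≤ 2 ^ a := Nat.lt_two_pow_self
          exact_mod_cast this
      _ ≤ D ^ a := pow_le_pow_left₀ (by norm_num) hD2 a
  have hTx : l1 T ≤ D ^ (q + 1) := by
    refine (l1_bound hT hTc).trans ?_
    rw [pow_succ]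
    exact mul_le_mul (hnat q) hCD (by linarith) (by positivity)
  have hPx : ∀ i, ∀ a, l1 (Polynomial.hasseDeriv a (P i)) ≤ D ^ (2 * n) * A := by
    intro i a
    have h1 : (Polynomial.hasseDeriv a (P i)).natDegree ≤ n :=
      (Polynomial.natDegree_hasseDeriv_le _ _).trans ((Nat.sub_le _ _).trans (hP i))
    have h2 : ∀ l, |(((Polynomial.hasseDeriv a (P i)).coeff l : ℤ) : ℝ)| ≤ 2 ^ n * A := by
      intro l
      rw [Polynomial.hasseDeriv_coeff]
      rcases le_or_gt (l + a) n with h | h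
      · push_cast
        rw [abs_mul, Nat.abs_cast]
        have h3 : (((l + a).choose a : ℕ) : ℝ) ≤ 2 ^ n := by
          calc (((l + a).choose a : ℕ) : ℝ) ≤ 2 ^ (l + a) := by exact_mod_cast Nat.choose_le_two_pow _ _
            _ ≤ 2 ^ n := pow_le_pow_right₀ (by norm_num) h
        exact mul_le_mul h3 (hPc _ _) (abs_nonneg _) (by positivity)
      · rw [Polynomial.coeff_eq_zero_of_natDegree_lt (lt_of_le_of_lt (hP i) h)]
        simp only [mul_zero, Int.cast_zero, abs_zero]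
        positivity
    refine (l1_bound h1 h2).trans ?_
    have h4 : (2 : ℝ) ^ n ≤ D ^ n := pow_le_pow_left₀ (by norm_num) hD2 n
    calc ((n : ℝ) + 1) * (2 ^ n * A) ≤ D ^ n * (D ^ n * A) :=
          mul_le_mul (hnat n) (mul_le_mul_of_nonneg_right h4 hA) (by positivity) (by positivity)
      _ = D ^ (2 * n) * A := by rw [two_mul, pow_add]; ring
  have hGx : ∀ s ≤ K, ∀ i j, l1 (G s i j) ≤ D ^ (q * K + K + 1) := by
    intro s hs i j
    have h1 : (G s i j).natDegree ≤ q * K := hG s hs i j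
    refine (l1_bound h1 (hGc s hs i j)).trans ?_
    have h2 : C ^ (K + 1) ≤ D ^ (K + 1) := pow_le_pow_left₀ (by linarith) hCD _
    calc (((q * K : ℕ) : ℝ) + 1) * C ^ (K + 1) ≤ D ^ (q * K) * D ^ (K + 1) :=
          mul_le_mul (hnat _) h2 (by positivity) (by positivity)
      _ = D ^ (q * K + K + 1) := by rw [← pow_add]; congr 1
  unfold PdZ
  refine (l1_sum _ _).trans ?_
  have hterm : ∀ x ∈ antidiagonal k, l1 (∑ i, T ^ x.1 * Polynomial.hasseDeriv x.1 (P i) * G x.2 i j) ≤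
      N * (D ^ ((q + 1) * K) * (D ^ (2 * n) * A) * D ^ (q * K + K + 1)) := by
    intro x hx
    rw [Finset.HasAntidiagonal.mem_antidiagonal] at hx
    refine (l1_sum _ _).trans ?_
    have h1 : ∀ i : Fin N, l1 (T ^ x.1 * Polynomial.hasseDeriv x.1 (P i) * G x.2 i j) ≤
        D ^ ((q + 1) * K) * (D ^ (2 * n) * A) * D ^ (q * K + K + 1) := by
      intro i
      refine (l1_mul _ _).trans ?_
      refine mul_le_mul ((l1_mul _ _).trans ?_) (hGx _ (by omega) _ _) (l1_nonneg _) (by positivity)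
      refine mul_le_mul ((l1_pow _ _).trans ?_) (hPx i _) (l1_nonneg _) (by positivity)
      calc l1 T ^ x.1 ≤ (D ^ (q + 1)) ^ x.1 := pow_le_pow_left₀ (l1_nonneg _) hTx _
        _ = D ^ ((q + 1) * x.1) := by rw [← pow_mul]
        _ ≤ D ^ ((q + 1) * K) := pow_le_pow_right₀ hD1 (Nat.mul_le_mul_left _ (by omega))
    refine (Finset.sum_le_sum fun i _ => h1 i).trans ?_
    simp
  refine (Finset.sum_le_sum hterm).trans ?_
  rw [Finset.sum_const, Finset.Nat.card_antidiagonal, nsmul_eq_mul]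
  have h3 : (((k + 1 : ℕ)) : ℝ) ≤ D ^ K := by
    push_cast
    calc (k : ℝ) + 1 ≤ (K : ℝ) + 1 := by have : (k : ℝ) ≤ K := by exact_mod_cast hk
                                         linarith
      _ ≤ D ^ K := hnat K
  have h4 : (N : ℝ) ≤ D ^ N := by
    have := hnat N
    linarith
  calc (((k + 1 : ℕ)) : ℝ) * (N * (D ^ ((q + 1) * K) * (D ^ (2 * n) * A) * D ^ (q * K + K + 1)))
      ≤ D ^ K * (D ^ N * (D ^ ((q + 1) * K) * (D ^ (2 * n) * A) * D ^ (q * K + K + 1))) := by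
        refine mul_le_mul h3 (mul_le_mul_of_nonneg_right h4 (by positivity)) (by positivity) (by positivity)
    _ = D ^ ((2 * q + 3) * K + 2 * n + N + 1) * A := by
        have : (2 * q + 3) * K + 2 * n + N + 1 = K + (N + ((q + 1) * K + (2 * n + (q * K + K + 1)))) := by ring
        rw [this, pow_add, pow_add, pow_add, pow_add]
        ring

/-- size of the coefficients of the form -/
lemma form_sizeK {N : ℕ} {C K₀ A : ℝ} (hK1 : 1 ≤ K₀) (hC : 1 ≤ C) (hA : 0 ≤ A) {y : Fin N → ℚ⟦X⟧}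
    (size : ∀ i m, |((coeff m (y i) : ℚ) : ℝ)| ≤ K₀ * C ^ (m + 1)) {P : Fin N → Polynomial ℤ} {n : ℕ}
    (hP : ∀ i, (P i).natDegree ≤ n) (hPc : ∀ i l, |(((P i).coeff l : ℤ) : ℝ)| ≤ A) (m : ℕ) :
    |((coeff m (∑ i, ps (P i) * y i) : ℚ) : ℝ)| ≤ (N * (n + 1) * A * (K₀ * C)) * C ^ m := by
  rw [map_sum]
  push_cast
  refine (Finset.abs_sum_le_sum_abs _ _).trans ?_
  have h1 : ∀ i : Fin N, |((coeff m (ps (P i) * y i) : ℚ) : ℝ)| ≤ (n + 1) * A * (K₀ * C) * C ^ m := by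
    intro i
    rw [coeff_mul, Finset.Nat.sum_antidiagonal_eq_sum_range_succ_mk]
    push_cast
    refine (Finset.abs_sum_le_sum_abs _ _).trans ?_
    have h2 : ∀ l ∈ Finset.range (m + 1), |((coeff l (ps (P i)) : ℚ) : ℝ) * ((coeff (m - l) (y i) : ℚ) : ℝ)| ≤
        if l < n + 1 then A * (K₀ * C * C ^ m) else 0 := by
      intro l hl
      rw [Finset.mem_range] at hl
      have h3 : ((coeff l (ps (P i)) : ℚ) : ℝ) = (((P i).coeff l : ℤ) : ℝ) := by
        simp [ps, Polynomial.coeff_coe]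
      rw [h3, abs_mul]
      split_ifs with h
      · refine mul_le_mul (hPc i l) ?_ (abs_nonneg _) hA
        refine (size i _).trans ?_
        rw [mul_assoc, ← pow_succ']
        exact mul_le_mul_of_nonneg_left (pow_le_pow_right₀ hC (by omega)) (by positivity)
      · rw [Polynomial.coeff_eq_zero_of_natDegree_lt (by have := hP i; omega)]
        simp
    refine (Finset.sum_le_sum h2).trans ?_
    rw [← Finset.sum_filter, Finset.sum_const, nsmul_eq_mul]
    have h4 : ((Finset.range (m + 1)).filter (fun l => l < n + 1)).card ≤ n + 1 := by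
      calc ((Finset.range (m + 1)).filter (fun l => l < n + 1)).card ≤ (Finset.range (n + 1)).card := by
            apply Finset.card_le_card
            intro l hl
            rw [Finset.mem_filter] at hl
            exact Finset.mem_range.2 hl.2
        _ = n + 1 := Finset.card_range _
    have h5 : (((Finset.range (m + 1)).filter (fun l => l < n + 1)).card : ℝ) ≤ (n : ℝ) + 1 := by exact_mod_cast h4
    calc _ ≤ ((n : ℝ) + 1) * (A * (K₀ * C * C ^ m)) := mul_le_mul_of_nonneg_right h5 (by positivity)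
      _ = _ := by ring
  refine (Finset.sum_le_sum fun i _ => h1 i).trans (le_of_eq ?_)
  simp
  ring

/-- the estimate for one value of the parameter `ν`, for a family with arbitrary constants -/
lemma core1 {N q : ℕ} {C₀ K₀ : ℝ} {b : ℕ} {T : Polynomial ℤ} {y : Fin N → ℚ⟦X⟧} (hG : GSK q C₀ K₀ b T y) (i₀ : Fin N)
    (K : IntermediateField ℚ ℂ) [FiniteDimensional ℚ K] {m : ℕ}
    (hm : Module.finrank ℚ K ≤ m) (x u w : K) (hu : IsIntegral ℤ u) (hw : IsIntegral ℤ w) (hw0 : w ≠ 0) (hxuw : x = u / w)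
    (h1 : evc (x : ℂ) (y i₀) ≠ 0)
    (X : ℝ) (hX1 : 1 ≤ X) (hX : ∀ σ : K →+* ℂ, ‖σ u‖ ≤ X ∧ ‖σ w‖ ≤ X) (hxC₀ : 16 * C₀ * ‖(x : ℂ)‖ ≤ 1)
    (c₁ : ℕ)
    (hrank : ∀ (n m' K' : ℕ) (P : Fin N → Polynomial K), P ≠ 0 → (∀ i, (P i).natDegree ≤ n) →
      (∀ l < m', coeff l (∑ i, (P i : K⟦X⟧) * PowerSeries.map (algebraMap ℚ K) (y i)) = 0) →
      (N - 1) * n + c₁ < m' → N * n + c₁ < m' + K' →
      ∀ (g : K) (G : ℕ → Fin N → Fin N → Polynomial K), g ≠ 0 →
      (∀ s ≤ K', ∀ i, PowerSeries.C g * (((T.map (Int.castRingHom K) : Polynomial K) : K⟦X⟧) ^ s *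
        hdF s (PowerSeries.map (algebraMap ℚ K) (y i))) = ∑ j, (G s i j : K⟦X⟧) * PowerSeries.map (algebraMap ℚ K) (y j)) →
      ∀ v : Fin N → K, (∀ k ≤ K', ∑ j, (PdF (T.map (Int.castRingHom K)) G P k j).eval x * v j = 0) → v = 0)
    {R : ℕ} (a : Fin R → Fin N → K) (hLI : LinearIndependent K a) (haI : ∀ r j, IsIntegral ℤ (a r j))
    (ha : ∀ r, ∑ i, (a r i : ℂ) * evc (x : ℂ) (y i) = 0) (A₁ : ℝ) (hA₁ : 1 ≤ A₁)
    (hA : ∀ r j (σ : K →+* ℂ), ‖σ (a r j)‖ ≤ A₁) (L ν : ℕ) (hL : 4 ≤ L) (hν : c₁ < ν) (hKν : K₀ ≤ 2 ^ ν) (hbν : b ≤ ν) :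
    CoreIneq N (q + 1) m R L ν (2 * C₀) X A₁ ‖(x : ℂ)‖ (max 1 (1 / ‖evc (x : ℂ) (y i₀)‖)) := by
  have hC₀ := hG.one_le
  have hK1 := hG.one_leK
  unfold CoreIneq
  set C : ℝ := 2 * C₀ with hCdef
  have hC : 1 ≤ C := by linarith
  have hxC : 8 * C * ‖(x : ℂ)‖ ≤ 1 := by rw [hCdef]; linarith
  set κ : ℝ := max 1 (1 / ‖evc (x : ℂ) (y i₀)‖) with hκ
  set q' : ℕ := q + 1 with hq'
  have hNpos : 0 < N := i₀.pos
  have hX0 : 0 ≤ X := by linarith
  have hνpos : 0 < ν := by omega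
  have hNL : 4 ≤ N * L := le_trans hL (Nat.le_mul_of_pos_left L hNpos)
  set n := L * ν with hn
  set m₀ := (N * L - 1) * ν with hm₀
  set K' := 2 * ν with hK
  have hNLn : N * n = N * L * ν := by rw [hn]; ring
  have hm₀' : m₀ + ν = N * n := by
    rw [hNLn, hm₀, Nat.sub_mul, one_mul]
    have : ν ≤ N * L * ν := Nat.le_mul_of_pos_left ν (by omega)
    omega
  have hm₀pos : 0 < m₀ := by
    rw [hm₀]; exact Nat.mul_pos (by omega) hνpos
  have hmn : m₀ < N * (n + 1) := by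
    have : N * (n + 1) = N * n + N := by ring
    omega
  have he : m₀ ≤ (N * L) * (N * (n + 1) - m₀) := by
    have h2 : N * (n + 1) - m₀ = ν + N := by
      have : N * (n + 1) = N * n + N := by ring
      omega
    rw [h2]
    calc m₀ ≤ N * n := by omega
      _ = N * L * ν := hNLn
      _ ≤ N * L * (ν + N) := Nat.mul_le_mul_left _ (by omega)
  have hνm : ν ≤ m₀ := by
    rw [hm₀]; exact Nat.le_mul_of_pos_left ν (by omega)
  have hCC : C₀ ≤ C := by rw [hCdef]; linarith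
  have h2m : ∀ e : ℕ, ν ≤ e → K₀ ≤ 2 ^ e := fun e he => hKν.trans (pow_le_pow_right₀ (by norm_num) he)
  have hKC : K₀ ^ 2 * C₀ ^ (2 * m₀ + 1) ≤ C ^ (2 * m₀ + 1) := by
    rw [hCdef, mul_pow]
    refine mul_le_mul_of_nonneg_right ?_ (by positivity)
    calc K₀ ^ 2 ≤ (2 ^ m₀) ^ 2 := pow_le_pow_left₀ (by linarith) (h2m _ hνm) 2
      _ = 2 ^ (2 * m₀) := by rw [← pow_mul, mul_comm]
      _ ≤ 2 ^ (2 * m₀ + 1) := pow_le_pow_right₀ (by norm_num) (by omega)
  have hKK : K₀ * C₀ ^ (K' + 1) ≤ C ^ (K' + 1) := by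
    rw [hCdef, mul_pow]
    exact mul_le_mul_of_nonneg_right (h2m _ (by omega)) (by positivity)
  have hTdeg : T.natDegree ≤ q' := hG.degT.trans (by omega)
  have hTsz : ∀ l, |((T.coeff l : ℤ) : ℝ)| ≤ C := fun l => (hG.sizeT l).trans hCC
  obtain ⟨P, hP0, hPn, hPc, hPv⟩ := siegel_polyK hC₀ hC hK1 hG.size hG.den n m₀ (N * L) hKC hm₀pos hmn he
  set A₀ : ℝ := ((N * (n + 1) : ℕ) * C ^ (2 * m₀ + 1)) ^ (N * L) with hA₀
  have hA₀0 : 0 ≤ A₀ := by positivity
  obtain ⟨g, hg0, hgC, hgG⟩ := hG.der K'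
  choose! G hGd hGc hGe using hgG
  have hgC2 : (g : ℝ) ≤ C ^ (K' + 1) := hgC.trans hKK
  have hbK : b ≤ K' := by omega
  have hGd' : ∀ s ≤ K', ∀ i j, (G s i j).natDegree ≤ q' * K' := by
    intro s hs i j
    refine (hGd s hs i j).trans ?_
    have e1 : q * s ≤ q * K' := Nat.mul_le_mul_left _ hs
    have e2 : q' * K' = q * K' + K' := by rw [hq']; ring
    omega
  have hGc' : ∀ s ≤ K', ∀ i j l, |(((G s i j).coeff l : ℤ) : ℝ)| ≤ C ^ (K' + 1) := fun s hs i j l =>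
    (hGc s hs i j l).trans hKK
  -- versions over `K`
  have hPQ0 : (fun i => (P i).map (Int.castRingHom K)) ≠ 0 := by
    intro h
    apply hP0
    funext i
    have h2 := congrFun h i
    simp only [Pi.zero_apply] at h2
    exact (Polynomial.map_eq_zero_iff (Int.cast_injective)).1 h2
  have hPvK : ∀ l < m₀, coeff l (∑ i, (((P i).map (Int.castRingHom K) : Polynomial K) : K⟦X⟧) *
      PowerSeries.map (algebraMap ℚ K) (y i)) = 0 := by
    intro l hl
    have h2 : ∑ i, (((P i).map (Int.castRingHom K) : Polynomial K) : K⟦X⟧) * PowerSeries.map (algebraMap ℚ K) (y i) =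
        PowerSeries.map (algebraMap ℚ K) (∑ i, ps (P i) * y i) := by
      rw [map_sum]
      refine Finset.sum_congr rfl fun i _ => ?_
      rw [map_mul, map_ps]
    rw [h2, PowerSeries.coeff_map, hPv l hl, map_zero]
  have hsp := hrank n m₀ K' (fun i => (P i).map (Int.castRingHom K)) hPQ0
    (fun i => (Polynomial.natDegree_map_le).trans (hPn i)) hPvK
    (by
      have h2 : (N - 1) * n + n = N * n := by
        have h3 : (N - 1 + 1) * n = N * n := by rw [Nat.sub_add_cancel hNpos]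
        rw [← h3]; ring
      have h4 : 2 * ν ≤ n := by rw [hn]; exact Nat.mul_le_mul_right _ (by omega)
      omega)
    (by omega) (g : K) (fun s i j => (G s i j).map (Int.castRingHom K)) (by exact_mod_cast hg0.ne')
    (by
      intro s hs i
      have h2 := congrArg (PowerSeries.map (algebraMap ℚ K)) (hGe s hs i)
      rw [map_mul, map_mul, map_pow, map_ps, map_sum, map_natCast] at h2
      rw [hdF_map, map_natCast]
      rw [h2]
      refine Finset.sum_congr rfl fun j _ => ?_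
      rw [map_mul, map_ps])
  -- integer vectors
  set D : ℕ := n + q' * K' with hD
  have hdegPd : ∀ k ≤ K', ∀ j, (PdZ T G P k j).natDegree ≤ D := fun k hk j =>
    (natDegree_PdZK hG.degT hPn (fun s hs i j => hGd s hs i j) hk j).trans (by
      have e2 : q' * K' = q * K' + K' := by rw [hq']; ring
      omega)
  set z : Fin (K' + 1) → Fin N → K := fun k j => hom (PdZ T G P k j) u w D with hz
  have hzorth : ∀ v : Fin N → K, (∀ k, ∑ j, z k j * v j = 0) → v = 0 := by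
    intro v hv
    apply hsp v
    intro k hk
    have h2 := hv ⟨k, by omega⟩
    have h3 : ∀ j, z ⟨k, by omega⟩ j = w ^ D *
        (PdF (T.map (Int.castRingHom K)) (fun s i j => (G s i j).map (Int.castRingHom K))
          (fun i => (P i).map (Int.castRingHom K)) k j).eval x := by
      intro j
      rw [hz]
      simp only
      rw [hom_eq (hdegPd k hk j) hw0, PdF_map, ← hxuw]
    simp only [h3, mul_assoc] at h2
    rw [← Finset.mul_sum] at h2
    rcases mul_eq_zero.1 h2 with h5 | h5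
    · exact absurd h5 (pow_ne_zero _ hw0)
    · exact h5
  obtain ⟨M, I, hMdet, hIc, hMI, hMr⟩ := Pool.Agent.Y113.AL.t_mat K N R (Fin (K' + 1)) a z hLI hzorth
  -- bounds
  have hx0 : (0 : ℝ) ≤ ‖(x : ℂ)‖ := norm_nonneg _
  have hx1 : ‖(x : ℂ)‖ ≤ 1 := by nlinarith
  have hC2 : C ≤ 2 * C := by linarith
  have hD2 : 2 ≤ 2 * C := by linarith
  have hD1 : 1 ≤ 2 * C := by linarith
  have hzb : ∀ k j (σ : K →+* ℂ), ‖σ (z k j)‖ ≤ X ^ D * ((2 * C) ^ ((2 * q' + 3) * K' + 2 * n + N + 1) * A₀) := by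
    intro k j σ
    refine (hom_bound (hdegPd k (by have := k.2; omega) j) σ hX0 (hX σ).1 (hX σ).2).trans ?_
    refine mul_le_mul_of_nonneg_left ?_ (by positivity)
    exact PdZ_l1K hD2 hC2 hC hA₀0 hTdeg hTsz hPn hPc hGd' hGc' (by have := k.2; omega) j
  -- the small forms
  have hcvy : ∀ i, Cvc (x : ℂ) (y i) := fun i => Cvc.of_bound (A := K₀ * C₀) (B := C₀) (by positivity) (by nlinarith)
    (fun l => by rw [mul_assoc, ← pow_succ', Complex.norm_ratCast]; exact hG.size i l)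
  set Rf := ∑ i, ps (P i) * y i with hR
  have hbd : ∀ k ≤ m₀, Cvc (x : ℂ) (hd k Rf) ∧ ‖evc (x : ℂ) (hd k Rf)‖ ≤
      2 * ((N * (n + 1) * A₀ * C) * (4 * C) ^ m₀ * ‖(x : ℂ)‖ ^ (m₀ - k)) := by
    intro k hk
    have hb1 := ev_hd_bound (f := Rf) (A := N * (n + 1) * A₀ * (K₀ * C₀)) (B := C₀) (by positivity) hC₀ (by nlinarith)
      (form_sizeK hK1 hC₀ hA₀0 hG.size hPn hPc) hk hPv
    refine ⟨hb1.1, hb1.2.trans ?_⟩
    refine mul_le_mul_of_nonneg_left ?_ (by norm_num)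
    refine mul_le_mul_of_nonneg_right ?_ (by positivity)
    have e1 : (4 * C) ^ m₀ = 2 ^ m₀ * (4 * C₀) ^ m₀ := by rw [hCdef, ← mul_pow]; congr 1; ring
    rw [e1]
    calc N * (n + 1) * A₀ * (K₀ * C₀) * (4 * C₀) ^ m₀ = (N * (n + 1) * A₀ * C₀) * (K₀ * (4 * C₀) ^ m₀) := by ring
      _ ≤ (N * (n + 1) * A₀ * C) * (2 ^ m₀ * (4 * C₀) ^ m₀) := by
          refine mul_le_mul ?_ ?_ (by positivity) (by positivity)
          · exact mul_le_mul_of_nonneg_left hCC (by positivity)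
          · exact mul_le_mul_of_nonneg_right (h2m _ hνm) (by positivity)
  have hKm : K' ≤ m₀ := by rw [hK, hm₀]; exact Nat.mul_le_mul_right _ (by omega)
  have hps : ∀ Q : Polynomial ℤ, Cvc (x : ℂ) (ps Q) ∧ evc (x : ℂ) (ps Q) = Polynomial.aeval (x : ℂ) Q := by
    intro Q
    refine ⟨Cvc.coe _, ?_⟩
    rw [ps, Pool.Agent.Y916.Al.ev_coe]
    rw [Polynomial.aeval_def, Polynomial.aeval_def, Polynomial.eval₂_map]
    congr 1
  have hform : ∀ k ≤ K', (g : ℂ) * (Polynomial.aeval (x : ℂ) T ^ k * evc (x : ℂ) (hd k Rf)) =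
      ∑ j, Polynomial.aeval (x : ℂ) (PdZ T G P k j) * evc (x : ℂ) (y j) := by
    intro k hk
    have hbound := hbd k (by omega)
    have hPdeq := Pd_eq Polynomial.coeToPowerSeries.ringHom coe_deriv' (T := T.map (Int.castRingHom ℚ)) (Y := y)
      (G := fun s i j => (G s i j).map (Int.castRingHom ℚ)) (K := K') (g := (g : ℚ⟦X⟧)) (fun s hs i => hGe s hs i)
      (fun i => (P i).map (Int.castRingHom ℚ)) k hk
    simp only [← PdZ_map] at hPdeq
    have hPdeq' : (g : ℚ⟦X⟧) * (ps T ^ k * hd k Rf) = ∑ j, ps (PdZ T G P k j) * y j := hPdeq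
    have hev := congrArg (evc (x : ℂ)) hPdeq'
    have hgC' : Cvc (x : ℂ) ((g : ℚ⟦X⟧)) ∧ evc (x : ℂ) ((g : ℚ⟦X⟧)) = g := by
      rw [← map_natCast (PowerSeries.C (R := ℚ))]
      exact ⟨Cvc.C _, by rw [Pool.Agent.Y916.Al.ev_C]; simp⟩
    rw [hgC'.1.ev_mul (((hps T).1.pow k).mul hbound.1),
      ((hps T).1.pow k).ev_mul hbound.1, (hps T).1.ev_pow, hgC'.2, (hps T).2,
      Cvc.ev_sum _ _ (fun j _ => (hps _).1.mul (hcvy j))] at hev
    rw [hev]
    refine Finset.sum_congr rfl fun j _ => ?_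
    rw [(hps _).1.ev_mul (hcvy j), (hps _).2]
  set LL : ℝ := X ^ D * ((2 * C) ^ (K' + 1) * ((2 * C) ^ ((q' + 1) * K') *
        (2 * ((N * ((n : ℕ) + 1) * A₀ * C) *
          (4 * C) ^ m₀ * ‖(x : ℂ)‖ ^ (m₀ - K'))))) with hLL
  have hLL0 : 0 ≤ LL := by positivity
  have hwX : ‖(w : ℂ)‖ ≤ X := (hX (algebraMap K ℂ)).2
  have hsmall : ∀ k : Fin (K' + 1), ‖∑ j, ((z k j : K) : ℂ) * evc (x : ℂ) (y j)‖ ≤ LL := by
    intro k
    have hk : (k : ℕ) ≤ K' := by have := k.2; omega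
    have hzx : ∀ j, ((z k j : K) : ℂ) = (w : ℂ) ^ D * Polynomial.aeval (x : ℂ) (PdZ T G P k j) := by
      intro j
      have h3 : z k j = w ^ D * ((PdZ T G P k j).map (Int.castRingHom K)).eval x := by
        rw [hxuw]; exact hom_eq (hdegPd k hk j) hw0
      rw [h3]
      have h4 : (((((PdZ T G P k j).map (Int.castRingHom K)).eval x : K)) : ℂ) = Polynomial.aeval (x : ℂ) (PdZ T G P k j) := by
        rw [Polynomial.eval_map, Polynomial.aeval_def, Polynomial.eval₂_eq_sum_range, Polynomial.eval₂_eq_sum_range]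
        push_cast
        rfl
      rw [← h4]
      push_cast
      ring
    have h2 : ∑ j, ((z k j : K) : ℂ) * evc (x : ℂ) (y j) = (w : ℂ) ^ D *
        ((g : ℂ) * (Polynomial.aeval (x : ℂ) T ^ (k : ℕ) * evc (x : ℂ) (hd k Rf))) := by
      rw [hform k hk, Finset.mul_sum]
      refine Finset.sum_congr rfl fun j _ => ?_
      rw [hzx]; ring
    rw [h2, norm_mul, norm_mul, norm_mul, norm_pow, norm_pow, Complex.norm_natCast, hLL]
    have hTx : ‖Polynomial.aeval (x : ℂ) T‖ ≤ (2 * C) ^ (q' + 1) := by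
      refine (norm_aeval_le hx1 hTdeg hTsz).trans ?_
      rw [pow_succ]
      refine mul_le_mul ?_ hC2 (by linarith) (by positivity)
      calc (q' : ℝ) + 1 ≤ 2 ^ q' := by exact_mod_cast (Nat.lt_two_pow_self : q' < 2 ^ q')
        _ ≤ (2 * C) ^ q' := pow_le_pow_left₀ (by norm_num) hD2 q'
    refine mul_le_mul (pow_le_pow_left₀ (norm_nonneg _) hwX _) ?_ (by positivity) (by positivity)
    refine mul_le_mul ?_ (mul_le_mul ?_ ?_ (norm_nonneg _) (by positivity)) (by positivity) (by positivity)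
    · exact hgC2.trans (pow_le_pow_left₀ (by linarith) hC2 _)
    · calc ‖Polynomial.aeval (x : ℂ) T‖ ^ (k : ℕ) ≤ ((2 * C) ^ (q' + 1)) ^ (k : ℕ) :=
            pow_le_pow_left₀ (norm_nonneg _) hTx _
        _ = (2 * C) ^ ((q' + 1) * k) := by rw [← pow_mul]
        _ ≤ (2 * C) ^ ((q' + 1) * K') := pow_le_pow_right₀ hD1 (Nat.mul_le_mul_left _ hk)
    · refine (hbd k (by omega)).2.trans ?_
      refine mul_le_mul_of_nonneg_left ?_ (by norm_num)
      refine mul_le_mul_of_nonneg_left ?_ (by positivity)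
      exact pow_le_pow_of_le_one hx0 hx1 (by omega)
  have hnatN : (1 : ℝ) ≤ ((N * (n + 1) : ℕ) : ℝ) := by
    exact_mod_cast (Nat.mul_pos hNpos (Nat.succ_pos n))
  have hA₀1 : 1 ≤ A₀ := by
    rw [hA₀]
    apply one_le_pow₀
    have : (1 : ℝ) ≤ C ^ (2 * m₀ + 1) := one_le_pow₀ hC
    nlinarith
  have hZ1 : 1 ≤ X ^ D * ((2 * C) ^ ((2 * q' + 3) * K' + 2 * n + N + 1) * A₀) := by
    have h2 : (1 : ℝ) ≤ X ^ D := one_le_pow₀ hX1
    have h3 : (1 : ℝ) ≤ (2 * C) ^ ((2 * q' + 3) * K' + 2 * n + N + 1) := one_le_pow₀ hD1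
    have h4 : (1 : ℝ) ≤ (2 * C) ^ ((2 * q' + 3) * K' + 2 * n + N + 1) * A₀ := by nlinarith
    nlinarith
  have hY0 : 0 < ‖evc (x : ℂ) (y i₀)‖ := norm_pos_iff.2 h1
  have hsc : ∀ r, ∑ j, (M r j : ℂ) * (evc (x : ℂ) (y j) / evc (x : ℂ) (y i₀)) =
      (∑ j, (M r j : ℂ) * evc (x : ℂ) (y j)) / evc (x : ℂ) (y i₀) := by
    intro r
    rw [Finset.sum_div]
    exact Finset.sum_congr rfl fun j _ => by ring
  have hfin := det2 K hm M I i₀ (fun j => evc (x : ℂ) (y j) / evc (x : ℂ) (y i₀)) A₁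
    (X ^ D * ((2 * C) ^ ((2 * q' + 3) * K' + 2 * n + N + 1) * A₀)) (LL / ‖evc (x : ℂ) (y i₀)‖)
    hMdet ?_ (div_self h1) hA₁ hZ1 (by positivity) ?_ ?_ ?_ ?_
  · rw [hIc] at hfin
    refine ⟨hfin.1, hfin.2.trans ?_⟩
    have hκ1 : 1 / ‖evc (x : ℂ) (y i₀)‖ ≤ κ := le_max_right _ _
    have hfac : 0 ≤ (N * LL) * (N.factorial * A₁ ^ N *
        (X ^ D * ((2 * C) ^ ((2 * q' + 3) * K' + 2 * n + N + 1) * A₀)) ^ (N - R)) ^ m := by positivity
    calc N * (LL / ‖evc (x : ℂ) (y i₀)‖) * (N.factorial * A₁ ^ N *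
          (X ^ D * ((2 * C) ^ ((2 * q' + 3) * K' + 2 * n + N + 1) * A₀)) ^ (N - R)) ^ m
        = (1 / ‖evc (x : ℂ) (y i₀)‖) * ((N * LL) * (N.factorial * A₁ ^ N *
          (X ^ D * ((2 * C) ^ ((2 * q' + 3) * K' + 2 * n + N + 1) * A₀)) ^ (N - R)) ^ m) := by ring
      _ ≤ κ * ((N * LL) * (N.factorial * A₁ ^ N *
          (X ^ D * ((2 * C) ^ ((2 * q' + 3) * K' + 2 * n + N + 1) * A₀)) ^ (N - R)) ^ m) :=
          mul_le_mul_of_nonneg_right hκ1 hfac
      _ = _ := by rw [hLL]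
  · intro r j
    by_cases hr : r ∈ I
    · obtain ⟨s, hs⟩ := hMI r hr
      rw [hs]; exact haI s j
    · obtain ⟨k, hk⟩ := hMr r hr
      rw [hk]; exact hom_int _ hu hw _
  · intro r hr
    obtain ⟨s, hs⟩ := hMI r hr
    rw [hsc, hs, ha s, zero_div]
  · intro r hr
    obtain ⟨k, hk⟩ := hMr r hr
    rw [hsc, norm_div, hk]
    exact div_le_div_of_nonneg_right (hsmall k) hY0.le
  · intro r hr j σ
    obtain ⟨s, hs⟩ := hMI r hr
    rw [hs]; exact hA s j σ
  · intro r hr j σ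
    obtain ⟨k, hk⟩ := hMr r hr
    rw [hk]; exact hzb k j σ

/-- **COREK** -/
theorem t_corek : S_corek := by
  intro N q C K₀ b T y hG i₀ K m hfd hm x u w hu hw hw0 hxuw h1 X hX1 hX hxC c₁ hrank R a hLI haI ha A₁ hA₁ hA L hL
  haveI := hfd
  obtain ⟨k₀, hk₀⟩ := pow_unbounded_of_one_lt K₀ (one_lt_two : (1 : ℝ) < 2)
  refine ⟨max 1 (1 / ‖evc (x : ℂ) (y i₀)‖), c₁ + b + k₀, le_max_left _ _, ?_⟩
  intro ν hν
  exact core1 hG i₀ K hm x u w hu hw hw0 hxuw h1 X hX1 hX hxC c₁ hrank a hLI haI ha A₁ hA₁ hA L ν hL (by omega)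
    (hk₀.le.trans (pow_le_pow_right₀ (by norm_num) (by omega))) (by omega)

end Pool.Agent.T2h17.GH
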