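import Pool.Agent.R351.GD.GKm
import Pool.Agent.R351.GD.Prod
import Pool.Agent.Y261.AL.Rank
import Pool.Agent.Y356.AF.Rk
import Pool.Agent.Y916.Af.Dep2

/-!
# Values of G-functions at algebraic points: bounds which are polynomial in the degree of the point.
Definitions and statements of the parts
-/

set_option autoImplicit false

open PowerSeries Filter AlgebraicIndependent

namespace Pool.Agent.T2h17.GH

open Pool.Agent.Y113 (GSys ps hd)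
open Pool.Agent.Y916.Al (hdF PdF Pt evc)
open Pool.Agent.Y916.Af (mons IrrD spc Vc)
open Pool.Agent.Y118.UL (U mk)
open Pool.Agent.R351.GD (PB)

/-- A family of power series which is closed under derivation, with the conditions of Siegel and Galochkin; the
rate is `C`, and there are arbitrary constants `K₀`, `b` which do not depend on the order. -/
structure GSK {ι : Type} [Fintype ι] (q : ℕ) (C K₀ : ℝ) (b : ℕ) (T : Polynomial ℤ) (y : ι → ℚ⟦X⟧) : Prop where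
  one_le : 1 ≤ C
  one_leK : 1 ≤ K₀
  degT : T.natDegree ≤ q
  sizeT : ∀ l, |((T.coeff l : ℤ) : ℝ)| ≤ C
  size : ∀ i m, |((coeff m (y i) : ℚ) : ℝ)| ≤ K₀ * C ^ (m + 1)
  den : ∀ m, ∃ d : ℕ, 0 < d ∧ (d : ℝ) ≤ K₀ * C ^ (m + 1) ∧ ∀ i, ∀ j ≤ m, ∃ a : ℤ, (d : ℚ) * coeff j (y i) = a
  der : ∀ k, ∃ g : ℕ, 0 < g ∧ (g : ℝ) ≤ K₀ * C ^ (k + 1) ∧ ∀ s ≤ k, ∃ G : ι → ι → Polynomial ℤ,
    (∀ i j, (G i j).natDegree ≤ q * s + b) ∧ (∀ i j l, |(((G i j).coeff l : ℤ) : ℝ)| ≤ K₀ * C ^ (k + 1)) ∧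
    ∀ i, (g : ℚ⟦X⟧) * (ps T ^ s * hd s (y i)) = ∑ j, ps (G i j) * y j

/-- (RANKK) the derived vectors span at the point `ξ`; no function has to be constant -/
def S_rankk : Prop := ∀ (F : Type) [Field F] [CharZero F] (N : ℕ) (T : Polynomial F) (B : Fin N → Fin N → Polynomial F)
  (y : Fin N → F⟦X⟧), (∀ i, (T : F⟦X⟧) * d⁄dX F (y i) = ∑ j, (B i j : F⟦X⟧) * y j) →
  LinearIndependent (Polynomial F) y → ∀ ξ : F, ξ ≠ 0 → T.eval ξ ≠ 0 →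
  ∃ c₁ : ℕ, ∀ (n m K : ℕ) (P : Fin N → Polynomial F), P ≠ 0 → (∀ i, (P i).natDegree ≤ n) →
    (∀ l < m, coeff l (∑ i, (P i : F⟦X⟧) * y i) = 0) → (N - 1) * n + c₁ < m → N * n + c₁ < m + K →
    ∀ (g : F) (G : ℕ → Fin N → Fin N → Polynomial F), g ≠ 0 →
    (∀ s ≤ K, ∀ i, PowerSeries.C g * ((T : F⟦X⟧) ^ s * hdF s (y i)) = ∑ j, (G s i j : F⟦X⟧) * y j) →
    ∀ v : Fin N → F, (∀ k ≤ K, ∑ j, (PdF T G P k j).eval ξ * v j = 0) → v = 0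

/-- the inequality for one value of the parameter `ν` -/
def CoreIneq (N q m R L ν : ℕ) (C X A₁ ε κ : ℝ) : Prop :=
  R < N ∧ X ^ (L * ν + q * (2 * ν)) * ((2 * C) ^ ((2 * q + 3) * (2 * ν) + 2 * (L * ν) + N + 1) *
        ((N * (L * ν + 1) : ℕ) * C ^ (2 * ((N * L - 1) * ν) + 1)) ^ (N * L)) ≤
      κ * (N * (X ^ (L * ν + q * (2 * ν)) * ((2 * C) ^ (2 * ν + 1) * ((2 * C) ^ ((q + 1) * (2 * ν)) *
        (2 * ((N * ((L * ν : ℕ) + 1) * ((N * (L * ν + 1) : ℕ) * C ^ (2 * ((N * L - 1) * ν) + 1)) ^ (N * L) * C) *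
          (4 * C) ^ ((N * L - 1) * ν) * ε ^ ((N * L - 1) * ν - 2 * ν)))))) *
      (N.factorial * A₁ ^ N * (X ^ (L * ν + q * (2 * ν)) * ((2 * C) ^ ((2 * q + 3) * (2 * ν) + 2 * (L * ν) + N + 1) *
        ((N * (L * ν + 1) : ℕ) * C ^ (2 * ((N * L - 1) * ν) + 1)) ^ (N * L))) ^ (N - R)) ^ m)

/-- (COREK) the estimate for large values of the parameter `ν`, for a family with arbitrary constants -/
def S_corek : Prop := ∀ (N q : ℕ) (C K₀ : ℝ) (b : ℕ) (T : Polynomial ℤ) (y : Fin N → ℚ⟦X⟧), GSK q C K₀ b T y →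
  ∀ (i₀ : Fin N) (K : IntermediateField ℚ ℂ) (m : ℕ), FiniteDimensional ℚ K → Module.finrank ℚ K ≤ m →
  ∀ x u w : K, IsIntegral ℤ u → IsIntegral ℤ w → w ≠ 0 → x = u / w → evc (x : ℂ) (y i₀) ≠ 0 →
  ∀ X : ℝ, 1 ≤ X → (∀ σ : K →+* ℂ, ‖σ u‖ ≤ X ∧ ‖σ w‖ ≤ X) → 16 * C * ‖(x : ℂ)‖ ≤ 1 → ∀ c₁ : ℕ,
  (∀ (n m' K' : ℕ) (P : Fin N → Polynomial K), P ≠ 0 → (∀ i, (P i).natDegree ≤ n) →
      (∀ l < m', coeff l (∑ i, (P i : K⟦X⟧) * PowerSeries.map (algebraMap ℚ K) (y i)) = 0) →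
      (N - 1) * n + c₁ < m' → N * n + c₁ < m' + K' →
      ∀ (g : K) (G : ℕ → Fin N → Fin N → Polynomial K), g ≠ 0 →
      (∀ s ≤ K', ∀ i, PowerSeries.C g * (((T.map (Int.castRingHom K) : Polynomial K) : K⟦X⟧) ^ s *
        hdF s (PowerSeries.map (algebraMap ℚ K) (y i))) = ∑ j, (G s i j : K⟦X⟧) * PowerSeries.map (algebraMap ℚ K) (y j)) →
      ∀ v : Fin N → K, (∀ k ≤ K', ∑ j, (PdF (T.map (Int.castRingHom K)) G P k j).eval x * v j = 0) → v = 0) →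
  ∀ (R : ℕ) (a : Fin R → Fin N → K), LinearIndependent K a → (∀ r j, IsIntegral ℤ (a r j)) →
  (∀ r, ∑ i, (a r i : ℂ) * evc (x : ℂ) (y i) = 0) → ∀ A₁ : ℝ, 1 ≤ A₁ → (∀ r j (σ : K →+* ℂ), ‖σ (a r j)‖ ≤ A₁) →
  ∀ L : ℕ, 4 ≤ L → ∃ (κ : ℝ) (ν₀ : ℕ), 1 ≤ κ ∧ ∀ ν : ℕ, ν₀ < ν →
    CoreIneq N (q + 1) m R L ν (2 * C) X A₁ ‖(x : ℂ)‖ κ

/-- (ASYK) the main theorem on G-systems for families with arbitrary constants; the exponent depends only on the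
number of the functions -/
def S_gkk : Prop := ∀ q : ℕ, ∃ E : ℕ → ℕ, PB E ∧ ∀ (m A N : ℕ) (C K₀ : ℝ) (b : ℕ) (T : Polynomial ℤ)
    (y : Fin N → ℚ⟦X⟧) (i₀ : Fin N) (K : IntermediateField ℚ ℂ) (x : K) (X : ℝ), FiniteDimensional ℚ K →
    Module.finrank ℚ K ≤ m → x ≠ 0 → Pt K x X → GSK q C K₀ b T y → evc (x : ℂ) (y i₀) ≠ 0 →
    LinearIndependent (Polynomial ℚ) y →
    ‖(x : ℂ)‖ * (2 * C) ^ (E N * (m + 1)) ≤ 1 → X * ‖(x : ℂ)‖ ^ A ≤ 1 → Polynomial.aeval (x : ℂ) T ≠ 0 →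
    ∀ (R : ℕ) (a : Fin R → Fin N → K), LinearIndependent K a →
    (∀ r, ∑ i, (a r i : ℂ) * evc (x : ℂ) (y i) = 0) → 2 * A * m * (N - R) ≤ N → False

/-- (BASIS) a basis of the `ℚ[x]`-module generated by a G-system -/
def S_basis : Prop := ∀ (ι : Type) [Fintype ι] (q : ℕ) (C : ℝ) (T : Polynomial ℤ) (w : ι → ℚ⟦X⟧), GSys q C T w →
  ∃ (N : ℕ) (y : Fin N → ℚ⟦X⟧) (K₀ : ℝ) (b : ℕ), N ≤ Fintype.card ι ∧ GSK q (2 * C) K₀ b T y ∧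
    LinearIndependent (Polynomial ℚ) y ∧
    (∀ i, ∃ c : ι → Polynomial ℚ, y i = ∑ j, (c j : ℚ⟦X⟧) * w j) ∧
    ∀ j, ∃ c : Fin N → Polynomial ℚ, w j = ∑ i, (c i : ℚ⟦X⟧) * y i

/-- (LOWB) the monomials of degree at most `Δ` in the values at the algebraic point `x` generate a large space -/
def S_low : Prop := ∀ (r q : ℕ) (C : ℝ) (T : Polynomial ℤ) (h : Fin r → ℚ⟦X⟧), T ≠ 0 →
  GSys q C T (fun i : Option (Fin r) => i.elim (1 : ℚ⟦X⟧) h) → ∃ c₀ : ℕ, ∀ (Δ m A : ℕ)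
  (K : IntermediateField ℚ ℂ) (x : K) (X : ℝ), FiniteDimensional ℚ K → Module.finrank ℚ K ≤ m → x ≠ 0 → Pt K x X →
  ‖(x : ℂ)‖ * 2 ^ ((Δ + m + 2) ^ c₀) ≤ 1 → X * ‖(x : ℂ)‖ ^ A ≤ 1 → ∀ I : Finset (Fin r),
  AlgebraicIndependent (Polynomial ℚ) (fun i : I => h i) →
  (Δ + 1) ^ I.card ≤ I.card.factorial *
    (2 * A * m * Module.finrank K (Submodule.span K (mons (fun s => evc (x : ℂ) (h s)) Δ)))

/-- (GROW) the monomials of degree at most `Δ` in numbers which are algebraic over `K(z_J)` generate a small space -/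
def S_grow : Prop := ∀ r b : ℕ, ∃ C : ℕ, ∀ (K : IntermediateField ℚ ℂ) (z : Fin r → ℂ) (J : Finset (Fin r))
  (G : Fin r → Polynomial (MvPolynomial J K)), (∀ s, (G s).natDegree ≤ b) →
  (∀ s i, ((G s).coeff i).totalDegree ≤ b) →
  (∀ s, MvPolynomial.aeval (fun j : J => z j) (G s).leadingCoeff ≠ 0) →
  (∀ s, Polynomial.eval₂ (MvPolynomial.aeval (fun j : J => z j) : MvPolynomial J K →ₐ[K] ℂ).toRingHom (z s) (G s) = 0) →
  ∀ Δ, Module.finrank K (Submodule.span K (mons z Δ)) ≤ C * (Δ + 1) ^ J.card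

/-- (DEPF) a relation over the subfield `F` of the ultrapower, which holds at a point of an irreducible set whose free
coordinates are independent over `F`, holds on the whole set -/
def S_depf : Prop := ∀ (F : Subfield (U ℂ)) (σ ε : Type) [Fintype σ] (e : ε → σ)
  (R : σ → Polynomial (MvPolynomial ε (Polynomial ℚ))), (∀ s, R s ≠ 0) → ∀ x : ℕ → ℂ, mk ℂ x ∈ F →
  (∀ c : Polynomial ℚ, c ≠ 0 → ∀ᶠ n in (hyperfilter ℕ : Filter ℕ), Polynomial.aeval (x n) c ≠ 0) →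
  ∀ Y : ℕ → Set (σ → ℂ), (∀ n, IrrD n (Y n)) → ∀ z : ℕ → σ → ℂ, (∀ n, z n ∈ Y n) →
  (∀ n, ∀ y ∈ Y n, ∀ s, Polynomial.eval₂ (spc e (x n) y) (y s) (R s) = 0) →
  AlgebraicIndependent F (fun i : ε => mk ℂ fun n => z n (e i)) →
  ∀ (d : ℕ) (P : ℕ → MvPolynomial σ ℂ), (∀ n, (P n).totalDegree ≤ d) →
  (∀ m : σ →₀ ℕ, mk ℂ (fun n => (P n).coeff m) ∈ F) → (∀ n, MvPolynomial.eval (z n) (P n) = 0) →
  ∀ᶠ n in (hyperfilter ℕ : Filter ℕ), ∀ y ∈ Y n, MvPolynomial.eval y (P n) = 0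

end Pool.Agent.T2h17.GH
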