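import Pool.Agent.T2h17.GH.Stm

/-!
# GROW: the monomials in algebraic functions generate a small space
-/

set_option autoImplicit false

namespace Pool.Agent.T2h17.GH

open Pool.Agent.Y916.Af (mons)

variable {K Ω : Type} [Field K] [Field Ω] [Algebra K Ω] {r : ℕ}

/-- the spanning family -/
noncomputable def gw (z : Fin r → Ω) (J : Finset (Fin r)) (β : J → ℕ) (i : Fin r → ℕ) : Ω :=
  (∏ j : J, z j ^ β j) * ∏ s, z s ^ i s

/-- the space `M_u` -/
noncomputable def gM (K : Type) {Ω : Type} [Field K] [Field Ω] [Algebra K Ω] {r : ℕ} (z : Fin r → Ω)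
    (J : Finset (Fin r)) (b u : ℕ) : Submodule K Ω :=
  Submodule.span K {w | ∃ (β : J → ℕ) (i : Fin r → ℕ), ∑ j, β j ≤ u ∧ (∀ s, i s ≤ b) ∧ w = gw z J β i}

theorem gM_of (z : Fin r → Ω) (J : Finset (Fin r)) (b u : ℕ) (β : J → ℕ) (i : Fin r → ℕ)
    (h1 : ∑ j, β j ≤ u) (h2 : ∀ s, i s ≤ b) : gw z J β i ∈ gM K z J b u :=
  Submodule.subset_span ⟨β, i, h1, h2, rfl⟩

theorem gM_mono (z : Fin r → Ω) (J : Finset (Fin r)) (b : ℕ) {u v : ℕ} (h : u ≤ v) :
    gM K z J b u ≤ gM K z J b v := by
  apply Submodule.span_mono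
  rintro w ⟨β, i, h1, h2, rfl⟩
  exact ⟨β, i, h1.trans h, h2, rfl⟩

/-- a multiplication which is good on generators is good on the space -/
theorem gM_mul (z : Fin r → Ω) (J : Finset (Fin r)) (b u v : ℕ) (a : Ω)
    (h : ∀ (β : J → ℕ) (i : Fin r → ℕ), ∑ j, β j ≤ u → (∀ s, i s ≤ b) → a * gw z J β i ∈ gM K z J b v) :
    ∀ w ∈ gM K z J b u, a * w ∈ gM K z J b v := by
  intro w hw
  refine Submodule.span_induction (p := fun w _ => a * w ∈ gM K z J b v) ?_ ?_ ?_ ?_ hw
  · rintro w ⟨β, i, h1, h2, rfl⟩
    exact h β i h1 h2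
  · simp
  · intro x y _ _ hx hy
    rw [mul_add]
    exact add_mem hx hy
  · intro c x _ hx
    rw [mul_smul_comm]
    exact Submodule.smul_mem _ _ hx

/-- multiplication by the value of a polynomial -/
theorem gM_pol (z : Fin r → Ω) (J : Finset (Fin r)) (b u d : ℕ) (P : MvPolynomial J K) (hP : P.totalDegree ≤ d) :
    ∀ w ∈ gM K z J b u, MvPolynomial.aeval (fun j : J => z j) P * w ∈ gM K z J b (u + d) := by
  refine gM_mul z J b u (u + d) _ ?_
  intro β i h1 h2
  have e : MvPolynomial.aeval (fun j : J => z j) P =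
      ∑ m ∈ P.support, P.coeff m • ∏ j : J, z j ^ m j := by
    rw [MvPolynomial.aeval_def, MvPolynomial.eval₂_eq']
    refine Finset.sum_congr rfl fun m _ => ?_
    rw [Algebra.smul_def]
  rw [e, Finset.sum_mul]
  refine sum_mem fun m hm => ?_
  rw [smul_mul_assoc]
  refine Submodule.smul_mem _ _ ?_
  have e2 : (∏ j : J, z j ^ m j) * gw z J β i = gw z J (fun j => m j + β j) i := by
    unfold gw
    rw [← mul_assoc, ← Finset.prod_mul_distrib]
    congr 1
    refine Finset.prod_congr rfl fun j _ => ?_
    rw [pow_add]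
  rw [e2]
  refine gM_of z J b _ _ _ ?_ h2
  rw [Finset.sum_add_distrib]
  have h3 : ∑ j : J, m j ≤ d := by
    have := MvPolynomial.le_totalDegree hm
    rw [Finsupp.sum_fintype _ _ (fun _ => rfl)] at this
    exact this.trans hP
  omega

theorem gM_root (z : Fin r → Ω) (J : Finset (Fin r)) (b u : ℕ) (G : Polynomial (MvPolynomial J K)) (s : Fin r)
    (h1 : G.natDegree ≤ b) (h2 : ∀ i, (G.coeff i).totalDegree ≤ b)
    (h3 : MvPolynomial.aeval (fun j : J => z j) G.leadingCoeff ≠ 0)
    (h4 : Polynomial.eval₂ (MvPolynomial.aeval (fun j : J => z j) : MvPolynomial J K →ₐ[K] Ω).toRingHom (z s) G = 0) :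
    ∀ w ∈ gM K z J b u, (MvPolynomial.aeval (fun j : J => z j) G.leadingCoeff * z s) * w ∈ gM K z J b (u + b) := by
  refine gM_mul z J b u (u + b) _ ?_
  intro β i hβ hi
  have hn : 1 ≤ G.natDegree := by
    by_contra hn
    have hn0 : G.natDegree = 0 := by omega
    rw [Polynomial.eval₂_eq_sum_range, hn0] at h4
    simp only [zero_add, Finset.range_one, Finset.sum_singleton, pow_zero, mul_one] at h4
    apply h3
    rw [Polynomial.leadingCoeff, hn0]
    exact h4
  have key : ∀ k : ℕ, (∏ t ∈ Finset.univ.erase s, z t ^ i t) * z s ^ k =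
      ∏ t, z t ^ (Function.update i s k) t := by
    intro k
    rw [← Finset.mul_prod_erase Finset.univ (fun t => z t ^ (Function.update i s k) t) (Finset.mem_univ s)]
    rw [Function.update_self, mul_comm]
    congr 1
    refine Finset.prod_congr rfl fun t ht => ?_
    rw [Function.update_of_ne (Finset.ne_of_mem_erase ht)]
  have e0 : gw z J β i = (∏ j : J, z j ^ β j) * ((∏ t ∈ Finset.univ.erase s, z t ^ i t) * z s ^ i s) := by
    rw [key, Function.update_eq_self]
    rfl
  by_cases hib : i s < b
  · have e1 : MvPolynomial.aeval (fun j : J => z j) G.leadingCoeff * z s * gw z J β i =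
        MvPolynomial.aeval (fun j : J => z j) G.leadingCoeff * gw z J β (Function.update i s (i s + 1)) := by
      have e2 : gw z J β (Function.update i s (i s + 1)) =
          (∏ j : J, z j ^ β j) * ((∏ t ∈ Finset.univ.erase s, z t ^ i t) * z s ^ (i s + 1)) := by
        rw [key]
        rfl
      rw [e0, e2]
      ring
    rw [e1]
    refine gM_pol z J b u b _ (h2 _) _ (gM_of z J b u _ _ hβ ?_)
    intro t
    by_cases ht : t = s
    · subst ht
      rw [Function.update_self]
      omega
    · rw [Function.update_of_ne ht]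
      exact hi t
  · have hib' : i s = b := le_antisymm (hi s) (not_lt.mp hib)
    have h5 : MvPolynomial.aeval (fun j : J => z j) G.leadingCoeff * z s ^ G.natDegree =
        - ∑ k ∈ Finset.range G.natDegree, MvPolynomial.aeval (fun j : J => z j) (G.coeff k) * z s ^ k := by
      rw [Polynomial.eval₂_eq_sum_range, Finset.sum_range_succ] at h4
      exact eq_neg_of_add_eq_zero_right h4
    have e1 : MvPolynomial.aeval (fun j : J => z j) G.leadingCoeff * z s * gw z J β i =
        - ∑ k ∈ Finset.range G.natDegree, MvPolynomial.aeval (fun j : J => z j) (G.coeff k) *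
          gw z J β (Function.update i s (b + 1 - G.natDegree + k)) := by
      have e2 : ∀ k, gw z J β (Function.update i s (b + 1 - G.natDegree + k)) =
          (∏ j : J, z j ^ β j) * ((∏ t ∈ Finset.univ.erase s, z t ^ i t) * z s ^ (b + 1 - G.natDegree + k)) := by
        intro k
        rw [key]
        rfl
      have e3 : z s ^ (b + 1) = z s ^ G.natDegree * z s ^ (b + 1 - G.natDegree) := by
        rw [← pow_add]
        congr 1
        omega
      rw [e0, hib']
      have e4 : MvPolynomial.aeval (fun j : J => z j) G.leadingCoeff * z s *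
          ((∏ j : J, z j ^ β j) * ((∏ t ∈ Finset.univ.erase s, z t ^ i t) * z s ^ b)) =
          (∏ j : J, z j ^ β j) * (∏ t ∈ Finset.univ.erase s, z t ^ i t) * z s ^ (b + 1 - G.natDegree) *
            (MvPolynomial.aeval (fun j : J => z j) G.leadingCoeff * z s ^ G.natDegree) := by
        have : z s * z s ^ b = z s ^ (b + 1) := by ring
        calc _ = MvPolynomial.aeval (fun j : J => z j) G.leadingCoeff *
              ((∏ j : J, z j ^ β j) * (∏ t ∈ Finset.univ.erase s, z t ^ i t)) * (z s * z s ^ b) := by ring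
          _ = _ := by rw [this, e3]; ring
      rw [e4, h5, mul_neg, Finset.mul_sum]
      congr 1
      refine Finset.sum_congr rfl fun k _ => ?_
      rw [e2, pow_add]
      ring
    rw [e1]
    refine neg_mem (sum_mem fun k hk => ?_)
    refine gM_pol z J b u b _ (h2 _) _ (gM_of z J b u _ _ hβ ?_)
    intro t
    have hk' := Finset.mem_range.mp hk
    by_cases ht : t = s
    · subst ht
      rw [Function.update_self]
      omega
    · rw [Function.update_of_ne ht]
      exact hi t

theorem gM_prod (z : Fin r → Ω) (J : Finset (Fin r)) (b : ℕ) (P : Fin r → MvPolynomial J K)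
    (hP : ∀ s, (P s).totalDegree ≤ b) (S : Finset (Fin r)) :
    ∀ u, ∀ w ∈ gM K z J b u, (∏ s ∈ S, MvPolynomial.aeval (fun j : J => z j) (P s)) * w ∈ gM K z J b (u + S.card * b) := by
  classical
  refine Finset.induction_on S ?_ ?_
  · intro u w hw
    simpa using hw
  · intro s S hs ih u w hw
    rw [Finset.prod_insert hs, mul_assoc, Finset.card_insert_of_notMem hs]
    have := gM_pol z J b _ b (P s) (hP s) _ (ih u w hw)
    have e : u + (S.card + 1) * b = u + S.card * b + b := by ring
    rw [e]
    exact this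

theorem gM_fin (z : Fin r → Ω) (J : Finset (Fin r)) (b u : ℕ) :
    Module.Finite K (gM K z J b u) ∧ Module.finrank K (gM K z J b u) ≤ (u + 1) ^ J.card * (b + 1) ^ r := by
  classical
  let f : (J → Fin (u + 1)) × (Fin r → Fin (b + 1)) → Ω := fun p => gw z J (fun j => (p.1 j : ℕ)) fun s => (p.2 s : ℕ)
  have hle : gM K z J b u ≤ Submodule.span K (Set.range f) := by
    apply Submodule.span_mono
    rintro w ⟨β, i, h1, h2, rfl⟩
    refine ⟨⟨fun j => ⟨β j, ?_⟩, fun s => ⟨i s, Nat.lt_succ_of_le (h2 s)⟩⟩, rfl⟩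
    exact Nat.lt_succ_of_le ((Finset.single_le_sum (f := β) (fun _ _ => Nat.zero_le _) (Finset.mem_univ j)).trans h1)
  have hfin : Module.Finite K (Submodule.span K (Set.range f)) := Module.Finite.span_of_finite K (Set.finite_range f)
  refine ⟨Submodule.finiteDimensional_of_le hle, (Submodule.finrank_mono hle).trans ?_⟩
  refine (finrank_range_le_card (R := K) f).trans ?_
  simp

theorem grow_gen (b : ℕ) (z : Fin r → Ω) (J : Finset (Fin r))
    (G : Fin r → Polynomial (MvPolynomial J K)) (h1 : ∀ s, (G s).natDegree ≤ b)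
    (h2 : ∀ s i, ((G s).coeff i).totalDegree ≤ b)
    (h3 : ∀ s, MvPolynomial.aeval (fun j : J => z j) (G s).leadingCoeff ≠ 0)
    (h4 : ∀ s, Polynomial.eval₂ (MvPolynomial.aeval (fun j : J => z j) : MvPolynomial J K →ₐ[K] Ω).toRingHom (z s) (G s) = 0)
    (Δ : ℕ) : Module.finrank K (Submodule.span K (mons z Δ)) ≤ ((b + 1) ^ r * (r * b + 1) ^ r) * (Δ + 1) ^ J.card := by
  classical
  set g : Ω := ∏ s, MvPolynomial.aeval (fun j : J => z j) (G s).leadingCoeff with hg
  have hg0 : g ≠ 0 := Finset.prod_ne_zero_iff.mpr fun s _ => h3 s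
  have hA : ∀ u, ∀ w ∈ gM K z J b u, g * w ∈ gM K z J b (u + r * b) := by
    intro u w hw
    have := gM_prod z J b (fun s => (G s).leadingCoeff) (fun s => h2 s _) Finset.univ u w hw
    simpa using this
  have hB : ∀ (s : Fin r) u, ∀ w ∈ gM K z J b u, g * (z s * w) ∈ gM K z J b (u + r * b) := by
    intro s u w hw
    have a1 := gM_root z J b u (G s) s (h1 s) (h2 s) (h3 s) (h4 s) w hw
    have a2 := gM_prod z J b (fun s => (G s).leadingCoeff) (fun s => h2 s _) (Finset.univ.erase s) _ _ a1
    have e1 : g * (z s * w) = (∏ t ∈ Finset.univ.erase s, MvPolynomial.aeval (fun j : J => z j) (G t).leadingCoeff) *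
        (MvPolynomial.aeval (fun j : J => z j) (G s).leadingCoeff * z s * w) := by
      rw [hg, ← Finset.mul_prod_erase Finset.univ _ (Finset.mem_univ s)]
      ring
    rw [e1]
    refine gM_mono z J b ?_ a2
    rw [Finset.card_erase_of_mem (Finset.mem_univ s), Finset.card_univ, Fintype.card_fin]
    have hr : 1 ≤ r := Nat.one_le_iff_ne_zero.mpr (by rintro rfl; exact s.elim0)
    have : r * b = (r - 1) * b + b := by
      obtain ⟨r', rfl⟩ : ∃ r', r = r' + 1 := ⟨r - 1, by omega⟩
      simp [Nat.succ_mul]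
    omega
  have hC : ∀ (Δ : ℕ) (α : Fin r → ℕ), ∑ s, α s ≤ Δ → g ^ Δ * ∏ s, z s ^ α s ∈ gM K z J b (Δ * (r * b)) := by
    intro Δ
    induction Δ with
    | zero =>
      intro α hα
      have h0 : ∀ s, α s = 0 := fun s => by
        have := Finset.single_le_sum (f := α) (fun _ _ => Nat.zero_le _) (Finset.mem_univ s)
        omega
      have e1 : g ^ 0 * ∏ s, z s ^ α s = gw z J (fun _ => 0) (fun _ => 0) := by
        simp [gw, h0]
      rw [e1]
      exact gM_of z J b _ _ _ (by simp) (by simp)
    | succ Δ ih =>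
      intro α hα
      have e0 : (Δ + 1) * (r * b) = Δ * (r * b) + r * b := by ring
      rw [e0]
      by_cases hle : ∑ s, α s ≤ Δ
      · have := hA _ _ (ih α hle)
        rw [pow_succ, mul_comm (g ^ Δ) g, mul_assoc]
        exact this
      · obtain ⟨s, hs⟩ : ∃ s, α s ≠ 0 := by
          by_contra hcon
          push Not at hcon
          apply hle
          simp [hcon]
        have hα' : ∑ t, (Function.update α s (α s - 1)) t ≤ Δ := by
          have a1 := Finset.add_sum_erase Finset.univ α (Finset.mem_univ s)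
          have a2 := Finset.add_sum_erase Finset.univ (Function.update α s (α s - 1)) (Finset.mem_univ s)
          rw [Function.update_self] at a2
          have a3 : ∑ t ∈ Finset.univ.erase s, (Function.update α s (α s - 1)) t = ∑ t ∈ Finset.univ.erase s, α t :=
            Finset.sum_congr rfl fun t ht => by rw [Function.update_of_ne (Finset.ne_of_mem_erase ht)]
          omega
        have e1 : z s * ∏ t, z t ^ (Function.update α s (α s - 1)) t = ∏ t, z t ^ α t := by
          rw [← Finset.mul_prod_erase Finset.univ (fun t => z t ^ (Function.update α s (α s - 1)) t) (Finset.mem_univ s),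
            ← Finset.mul_prod_erase Finset.univ (fun t => z t ^ α t) (Finset.mem_univ s), Function.update_self, ← mul_assoc,
            ← pow_succ', Nat.sub_add_cancel (Nat.one_le_iff_ne_zero.mpr hs)]
          congr 1
          refine Finset.prod_congr rfl fun t ht => ?_
          rw [Function.update_of_ne (Finset.ne_of_mem_erase ht)]
        have := hB s _ _ (ih _ hα')
        rw [← e1]
        have e2 : g ^ (Δ + 1) * (z s * ∏ t, z t ^ (Function.update α s (α s - 1)) t) =
            g * (z s * (g ^ Δ * ∏ t, z t ^ (Function.update α s (α s - 1)) t)) := by ring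
        rw [e2]
        exact this
  obtain ⟨hF, hfr⟩ := gM_fin (K := K) z J b (Δ * (r * b))
  have hmap : ∀ w ∈ Submodule.span K (mons z Δ), (LinearMap.mulLeft K (g ^ Δ)) w ∈ gM K z J b (Δ * (r * b)) := by
    intro w hw
    have hle : Submodule.span K (mons z Δ) ≤ (gM K z J b (Δ * (r * b))).comap (LinearMap.mulLeft K (g ^ Δ)) := by
      rw [Submodule.span_le]
      rintro w ⟨n, hn, rfl⟩
      simp only [Submodule.comap_coe, Set.mem_preimage, LinearMap.mulLeft_apply, SetLike.mem_coe]
      exact hC Δ n hn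
    exact hle hw
  let L : Submodule.span K (mons z Δ) →ₗ[K] gM K z J b (Δ * (r * b)) := (LinearMap.mulLeft K (g ^ Δ)).restrict hmap
  have hL : Function.Injective L := by
    intro x y hxy
    have : g ^ Δ * (x : Ω) = g ^ Δ * (y : Ω) := congrArg Subtype.val hxy
    exact Subtype.ext (mul_left_cancel₀ (pow_ne_zero _ hg0) this)
  refine (LinearMap.finrank_le_finrank_of_injective hL).trans (hfr.trans ?_)
  have hJ : J.card ≤ r := by
    have := Finset.card_le_univ J
    simpa using this
  calc (Δ * (r * b) + 1) ^ J.card * (b + 1) ^ r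
      ≤ ((r * b + 1) * (Δ + 1)) ^ J.card * (b + 1) ^ r := by
        refine Nat.mul_le_mul_right _ (Nat.pow_le_pow_left ?_ _)
        nlinarith [Nat.zero_le Δ, Nat.zero_le (r * b)]
    _ = (r * b + 1) ^ J.card * (Δ + 1) ^ J.card * (b + 1) ^ r := by rw [mul_pow]
    _ ≤ (r * b + 1) ^ r * (Δ + 1) ^ J.card * (b + 1) ^ r := by
        refine Nat.mul_le_mul_right _ (Nat.mul_le_mul_right _ (Nat.pow_le_pow_right (by omega) hJ))
    _ = _ := by ring

theorem t_grow : S_grow := by
  intro r b
  refine ⟨(b + 1) ^ r * (r * b + 1) ^ r, ?_⟩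
  intro K z J G h1 h2 h3 h4 Δ
  exact grow_gen b z J G h1 h2 h3 h4 Δ

end Pool.Agent.T2h17.GH
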