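import Pool.Agent.T2h17.GH.Stm

/-!
# (LOWB) the monomials in the values generate a large space
-/

set_option autoImplicit false

open PowerSeries

namespace Pool.Agent.T2h17.GH

open Pool.Agent.Y113 (GSys ps hd)
open Pool.Agent.Y916 (Mn mo)
open Pool.Agent.Y916.Al (Pt evc Cvc ev_coe ev_one)
open Pool.Agent.Y916.Af (mons)
open Pool.Agent.R351.GD (PB)

namespace Lowb

theorem card_Mn_le (r Δ : ℕ) : Fintype.card (Mn r Δ) ≤ (Δ + 1) ^ r := by
  have h1 : Fintype.card (Mn r Δ) ≤ Fintype.card (Fin r → Fin (Δ + 1)) :=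
    Fintype.card_le_of_injective (fun e : Mn r Δ => e.1) Subtype.val_injective
  simpa using h1

/-- the nonzero zeros of a polynomial are not small -/
theorem nz (T : Polynomial ℤ) (hT : T ≠ 0) : ∃ c : ℕ, ∀ z : ℂ, z ≠ 0 → ‖z‖ * 2 ^ c ≤ 1 →
    Polynomial.aeval z T ≠ 0 := by
  classical
  set P : Polynomial ℂ := T.map (Int.castRingHom ℂ) with hP
  have hP0 : P ≠ 0 := by
    rw [hP]
    exact (Polynomial.map_ne_zero_iff (Int.castRingHom ℂ).injective_int).2 hT
  have h1 : ∀ ρ : ℂ, ∃ c : ℕ, ρ ≠ 0 → 1 < ‖ρ‖ * 2 ^ c := by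
    intro ρ
    by_cases hρ : ρ = 0
    · exact ⟨0, fun h => absurd hρ h⟩
    · obtain ⟨c, hc⟩ := pow_unbounded_of_one_lt (‖ρ‖⁻¹) (by norm_num : (1 : ℝ) < 2)
      refine ⟨c, fun _ => ?_⟩
      have h2 : 0 < ‖ρ‖ := norm_pos_iff.2 hρ
      calc 1 = ‖ρ‖ * ‖ρ‖⁻¹ := (mul_inv_cancel₀ h2.ne').symm
        _ < ‖ρ‖ * 2 ^ c := mul_lt_mul_of_pos_left hc h2
  choose c hc using h1
  refine ⟨∑ ρ ∈ P.roots.toFinset, c ρ, fun z hz hzc h0 => ?_⟩
  have h2 : z ∈ P.roots.toFinset := by
    rw [Multiset.mem_toFinset, Polynomial.mem_roots hP0, Polynomial.IsRoot.def, hP,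
      Polynomial.eval_map]
    exact h0
  have h3 := hc z hz
  have h4 : c z ≤ ∑ ρ ∈ P.roots.toFinset, c ρ :=
    Finset.single_le_sum (f := c) (fun _ _ => Nat.zero_le _) h2
  have h5 : ‖z‖ * 2 ^ c z ≤ ‖z‖ * 2 ^ (∑ ρ ∈ P.roots.toFinset, c ρ) :=
    mul_le_mul_of_nonneg_left (pow_le_pow_right₀ (by norm_num) h4) (norm_nonneg _)
  linarith

section

variable {r : ℕ}

/-- the monomials as a finite family -/
theorem mons_eq {v : Fin r → ℂ} {Δ : ℕ} :
    mons v Δ = Set.range (fun e : Mn r Δ => ∏ s, v s ^ (e.1 s : ℕ)) := by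
  ext z
  constructor
  · rintro ⟨n, hn, rfl⟩
    have hi : ∀ i, n i < Δ + 1 := fun i => by
      have := Finset.single_le_sum (f := n) (fun _ _ => Nat.zero_le _) (Finset.mem_univ i)
      omega
    exact ⟨⟨fun i => ⟨n i, hi i⟩, hn⟩, rfl⟩
  · rintro ⟨e, rfl⟩
    exact ⟨fun s => (e.1 s : ℕ), e.2, rfl⟩

theorem choose_le (k Δ : ℕ) : (Δ + 1) ^ k ≤ k.factorial * (Δ + k).choose k := by
  rw [← Nat.ascFactorial_eq_factorial_mul_choose]
  exact Nat.pow_succ_le_ascFactorial _ _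

/-- the number of the independent monomials -/
theorem count (h : Fin r → ℚ⟦X⟧) (Δ : ℕ) (I : Finset (Fin r))
    (hI : AlgebraicIndependent (Polynomial ℚ) (fun i : I => h i)) (N : ℕ) (y : Fin N → ℚ⟦X⟧)
    (hy : ∀ e : Mn r Δ, mo h Δ e ∈ Submodule.span (Polynomial ℚ) (Set.range y)) :
    (Δ + I.card).choose I.card ≤ N := by
  classical
  let J := (Finset.univ : Finset (Option I)).finsuppAntidiag Δ
  have hJcard : Fintype.card J = (Δ + I.card).choose I.card := by
    rw [Fintype.card_coe, Finset.card_finsuppAntidiag_nat_eq_choose]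
    have h1 : (Finset.univ : Finset (Option I)).card = I.card + 1 := by
      rw [Finset.card_univ, Fintype.card_option, Fintype.card_coe]
    rw [h1]
    have h2 : I.card + 1 + Δ - 1 = Δ + I.card := by omega
    rw [h2]
    rw [← Nat.choose_symm (show Δ ≤ Δ + I.card by omega)]
    congr 1
    omega
  let g : J → (I →₀ ℕ) := fun e => Finsupp.equivFunOnFinite.symm fun i => e.1 (some i)
  have hsum : ∀ e : J, e.1 none + ∑ i, g e i = Δ := by
    intro e
    have h1 := (Finset.mem_finsuppAntidiag.1 e.2).1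
    rw [Fintype.sum_option] at h1
    exact h1
  have hginj : Function.Injective g := by
    intro e e' he
    have h1 : ∀ i, e.1 (some i) = e'.1 (some i) := fun i => DFunLike.congr_fun he i
    apply Subtype.ext
    ext o
    cases o with
    | none =>
      have h2 := hsum e
      have h3 := hsum e'
      rw [he] at h2
      omega
    | some i => exact h1 i
  -- independence
  have hinj : Function.Injective (MvPolynomial.aeval (R := Polynomial ℚ) (fun i : I => h i)) := hI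
  have hli : LinearIndependent (Polynomial ℚ) (fun e : I →₀ ℕ =>
      MvPolynomial.aeval (R := Polynomial ℚ) (fun i : I => h i) (MvPolynomial.monomial e 1)) := by
    have h1 := (MvPolynomial.basisMonomials I (Polynomial ℚ)).linearIndependent
    have h2 := h1.map' (MvPolynomial.aeval (R := Polynomial ℚ) (fun i : I => h i)).toLinearMap
      (LinearMap.ker_eq_bot.2 hinj)
    have h3 : (fun e : I →₀ ℕ => MvPolynomial.aeval (R := Polynomial ℚ) (fun i : I => h i)
        (MvPolynomial.monomial e 1)) =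
        (MvPolynomial.aeval (R := Polynomial ℚ) (fun i : I => h i)).toLinearMap ∘
          (MvPolynomial.basisMonomials I (Polynomial ℚ)) := by
      funext e
      simp
    rw [h3]
    exact h2
  have hli' := hli.comp g hginj
  have hmem : Set.range ((fun e : I →₀ ℕ =>
      MvPolynomial.aeval (R := Polynomial ℚ) (fun i : I => h i) (MvPolynomial.monomial e 1)) ∘ g) ≤
      (Submodule.span (Polynomial ℚ) (Set.range y) : Set ℚ⟦X⟧) := by
    rintro _ ⟨e, rfl⟩
    show MvPolynomial.aeval (R := Polynomial ℚ) (fun i : I => h i) (MvPolynomial.monomial (g e) 1) ∈ _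
    rw [MvPolynomial.aeval_monomial, map_one, one_mul, Finsupp.prod_fintype _ _ (fun _ => pow_zero _)]
    have hle : ∀ i, g e i ≤ Δ := by
      intro i
      have h1 := hsum e
      have h2 := Finset.single_le_sum (f := fun i => g e i) (fun _ _ => Nat.zero_le _)
        (Finset.mem_univ i)
      have h3 : g e i ≤ ∑ i, g e i := h2
      omega
    let e' : Fin r → Fin (Δ + 1) := fun s => if hs : s ∈ I then ⟨g e ⟨s, hs⟩, by
      have := hle ⟨s, hs⟩
      omega⟩ else 0
    have he'1 : ∀ i : I, (e' i : ℕ) = g e i := by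
      intro i
      show ((if hs : (i : Fin r) ∈ I then (⟨g e ⟨i, hs⟩, _⟩ : Fin (Δ + 1)) else 0 : Fin (Δ + 1)) : ℕ) = _
      rw [dif_pos i.2]
    have he'0 : ∀ s ∉ I, (e' s : ℕ) = 0 := by
      intro s hs
      show ((if hs : s ∈ I then (⟨g e ⟨s, hs⟩, _⟩ : Fin (Δ + 1)) else 0 : Fin (Δ + 1)) : ℕ) = _
      rw [dif_neg hs]
      rfl
    have hsum' : ∑ s, (e' s : ℕ) ≤ Δ := by
      have h1 : ∑ s, (e' s : ℕ) = ∑ s ∈ I, (e' s : ℕ) := by
        symm
        apply Finset.sum_subset (Finset.subset_univ _)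
        intro s _ hs
        exact he'0 s hs
      have h3 : ∑ s ∈ I, (e' s : ℕ) = ∑ i, g e i := by
        rw [← Finset.sum_coe_sort]
        exact Finset.sum_congr rfl fun i _ => he'1 i
      have h2 := hsum e
      rw [h1, h3]
      omega
    have h1 := hy ⟨e', hsum'⟩
    have h2 : mo h Δ ⟨e', hsum'⟩ = ∏ i : I, h i ^ (g e i) := by
      show ∏ s : Fin r, h s ^ (e' s : ℕ) = _
      have h3 : ∏ s : Fin r, h s ^ (e' s : ℕ) = ∏ s ∈ I, h s ^ (e' s : ℕ) := by
        symm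
        apply Finset.prod_subset (Finset.subset_univ _)
        intro s _ hs
        rw [he'0 s hs, pow_zero]
      rw [h3, ← Finset.prod_coe_sort]
      exact Finset.prod_congr rfl fun i _ => by rw [he'1 i]
    rw [h2] at h1
    exact h1
  have h5 := linearIndependent_le_span_aux' _ hli' (Set.range y) hmem
  rw [← hJcard]
  refine h5.trans ?_
  rw [← Set.toFinset_card]
  have h6 : (Set.range y).toFinset = Finset.univ.image y := by
    ext z
    simp
  rw [h6]
  refine Finset.card_image_le.trans ?_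
  rw [Finset.card_univ, Fintype.card_fin]

end

end Lowb

open Lowb in
theorem t_lowb (hgk : S_gkk) (hbas : S_basis) : S_low := by
  classical
  intro r q C T h hT hG
  obtain ⟨E, ⟨c₂, hc₂⟩, hE⟩ := hgk q
  have hC := hG.one_le
  have hC0 : 0 < C := by linarith
  obtain ⟨cC, hcC⟩ : ∃ cC : ℕ, 2 * C < 2 ^ cC := pow_unbounded_of_one_lt (2 * C) (by norm_num)
  obtain ⟨cT, hcT⟩ := nz T hT
  have hPB : PB fun δ => (2 + cC * ((q + r + 3) * (δ + 1))) * (((δ + 1) ^ r + 2) ^ c₂ * (δ + 1)) +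
      (cT + (cC + 1)) :=
    (((PB.const 2).add ((PB.const cC).mul ((PB.const (q + r + 3)).mul (PB.id.add (PB.const 1))))).mul
      (((((PB.id.add (PB.const 1)).pow r).add (PB.const 2)).pow c₂).mul (PB.id.add (PB.const 1)))).add
      (PB.const _)
  obtain ⟨c₀, hc₀⟩ := hPB
  refine ⟨c₀, fun Δ m A K x X hfd hrk hx0 hPt hxE hXA I hI => ?_⟩
  have hxE' : ∀ k, k ≤ (2 + cC * ((q + r + 3) * (Δ + m + 1))) * (((Δ + m + 1) ^ r + 2) ^ c₂ * (Δ + m + 1)) +
      (cT + (cC + 1)) → ‖(x : ℂ)‖ * 2 ^ k ≤ 1 := fun k hk =>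
    (mul_le_mul_of_nonneg_left (pow_le_pow_right₀ (by norm_num) (hk.trans (hc₀ (Δ + m)))) (norm_nonneg _)).trans hxE
  have hx0' : (x : ℂ) ≠ 0 := by exact_mod_cast hx0
  have hxp : 0 < ‖(x : ℂ)‖ := norm_pos_iff.2 hx0'
  have hxT : Polynomial.aeval (x : ℂ) T ≠ 0 := hcT _ hx0' (hxE' cT (by omega))
  have hxC : C * ‖(x : ℂ)‖ < 1 := by
    have h1 := hxE' cC (by omega)
    have h2 : 2 * C * ‖(x : ℂ)‖ < 2 ^ cC * ‖(x : ℂ)‖ := mul_lt_mul_of_pos_right hcC hxp
    nlinarith
  -- the basis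
  have hGm := Pool.Agent.R351.GD.mon_exp q r Δ hG
  obtain ⟨N, y, K₀, b, hN, hGy, hLI, hyw, hwy⟩ := hbas (Mn r Δ) q _ T (mo h Δ) hGm
  have hN' : N ≤ (Δ + 1) ^ r := hN.trans (card_Mn_le r Δ)
  -- convergence
  have hcv : ∀ s, Cvc (x : ℂ) (h s) := by
    intro s
    refine Cvc.of_bound (A := C) (B := C) hC0.le hxC fun k => ?_
    have h1 := hG.size (some s) k
    rw [pow_succ'] at h1
    rw [Complex.norm_ratCast]
    exact h1
  have hcm : ∀ e : Mn r Δ, Cvc (x : ℂ) (mo h Δ e) := fun e =>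
    Cvc.prod _ _ fun s _ => (hcv s).pow _
  have hem : ∀ e : Mn r Δ, evc (x : ℂ) (mo h Δ e) = ∏ s, evc (x : ℂ) (h s) ^ (e.1 s : ℕ) := by
    intro e
    unfold mo
    rw [Cvc.ev_prod _ _ fun s _ => (hcv s).pow _]
    exact Finset.prod_congr rfl fun s _ => (hcv s).ev_pow _
  have hcy : ∀ i, Cvc (x : ℂ) (y i) := by
    intro i
    obtain ⟨c, hc⟩ := hyw i
    rw [hc]
    exact Cvc.sum _ _ fun j _ => (Cvc.coe (c j)).mul (hcm j)
  -- a nonzero value
  obtain ⟨i₀, hi₀⟩ : ∃ i₀, evc (x : ℂ) (y i₀) ≠ 0 := by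
    by_contra hcon
    push Not at hcon
    let e₀ : Mn r Δ := ⟨fun _ => 0, by simp⟩
    obtain ⟨c, hc⟩ := hwy e₀
    have h1 : mo h Δ e₀ = 1 := by
      unfold mo
      exact Finset.prod_eq_one fun s _ => by simp [e₀]
    have h2 : evc (x : ℂ) (mo h Δ e₀) = 0 := by
      rw [hc, Cvc.ev_sum _ _ fun i _ => (Cvc.coe (c i)).mul (hcy i)]
      refine Finset.sum_eq_zero fun i _ => ?_
      rw [(Cvc.coe (c i)).ev_mul (hcy i), hcon i, mul_zero]
    rw [h1, ev_one] at h2
    exact one_ne_zero h2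
  -- the relations
  set Λ : (Fin N → K) →ₗ[K] ℂ := Fintype.linearCombination K (fun i => evc (x : ℂ) (y i)) with hΛ
  have hΛa : ∀ a, Λ a = ∑ i, (a i : ℂ) * evc (x : ℂ) (y i) := by
    intro a
    rw [hΛ, Fintype.linearCombination_apply]
    refine Finset.sum_congr rfl fun i _ => ?_
    rw [Algebra.smul_def]
    rfl
  have hfr : Module.Finite K (Submodule.span K (mons (fun s => evc (x : ℂ) (h s)) Δ)) := by
    rw [mons_eq]
    exact Module.Finite.span_of_finite K (Set.finite_range _)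
  have hrange : LinearMap.range Λ ≤ Submodule.span K (mons (fun s => evc (x : ℂ) (h s)) Δ) := by
    rintro _ ⟨a, rfl⟩
    rw [hΛ, Fintype.linearCombination_apply]
    refine Submodule.sum_mem _ fun i _ => Submodule.smul_mem _ _ ?_
    obtain ⟨c, hc⟩ := hyw i
    rw [hc, Cvc.ev_sum _ _ fun j _ => (Cvc.coe (c j)).mul (hcm j)]
    refine Submodule.sum_mem _ fun j _ => ?_
    rw [(Cvc.coe (c j)).ev_mul (hcm j), ev_coe]
    have h1 : Polynomial.aeval (x : ℂ) (c j) = algebraMap K ℂ (Polynomial.aeval x (c j)) := by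
      exact Polynomial.aeval_algebraMap_apply ℂ x (c j)
    rw [h1, ← Algebra.smul_def]
    refine Submodule.smul_mem _ _ (Submodule.subset_span ?_)
    rw [mons_eq]
    exact ⟨j, (hem j).symm⟩
  have hdim := LinearMap.finrank_range_add_finrank_ker Λ
  rw [Module.finrank_fin_fun] at hdim
  have hD : Module.finrank K (LinearMap.range Λ) ≤
      Module.finrank K (Submodule.span K (mons (fun s => evc (x : ℂ) (h s)) Δ)) :=
    Submodule.finrank_mono hrange
  obtain ⟨R, hR⟩ : ∃ R, R = Module.finrank K (LinearMap.ker Λ) := ⟨_, rfl⟩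
  let bK : Module.Basis (Fin R) K (LinearMap.ker Λ) := (Module.finBasis K (LinearMap.ker Λ)).reindex
    (finCongr hR.symm)
  have haLI : LinearIndependent K (fun ρ : Fin R => ((bK ρ : LinearMap.ker Λ) : Fin N → K)) :=
    bK.linearIndependent.map' (LinearMap.ker Λ).subtype (Submodule.ker_subtype _)
  have ha0 : ∀ ρ : Fin R, ∑ i, ((((bK ρ : LinearMap.ker Λ) : Fin N → K) i : K) : ℂ) *
      evc (x : ℂ) (y i) = 0 := by
    intro ρ
    rw [← hΛa]
    exact LinearMap.mem_ker.1 (bK ρ).2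
  -- the bound for the point
  have hbd : ‖(x : ℂ)‖ * (2 * (2 * (2 * C) ^ ((q + r + 3) * (Δ + 1)))) ^ (E N * (m + 1)) ≤ 1 := by
    have h1 : 2 * (2 * (2 * C) ^ ((q + r + 3) * (Δ + 1))) ≤ 2 ^ (2 + cC * ((q + r + 3) * (Δ + 1))) := by
      have h2 : (2 * C) ^ ((q + r + 3) * (Δ + 1)) ≤ ((2 : ℝ) ^ cC) ^ ((q + r + 3) * (Δ + 1)) :=
        pow_le_pow_left₀ (by positivity) hcC.le _
      have h4 : (2 : ℝ) ^ (2 + cC * ((q + r + 3) * (Δ + 1))) =
          4 * ((2 : ℝ) ^ cC) ^ ((q + r + 3) * (Δ + 1)) := by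
        rw [pow_add, pow_mul (2 : ℝ) cC]
        norm_num
      rw [h4]
      linarith
    have h3 : (2 * (2 * (2 * C) ^ ((q + r + 3) * (Δ + 1)))) ^ (E N * (m + 1)) ≤
        2 ^ ((2 + cC * ((q + r + 3) * (Δ + 1))) * (E N * (m + 1))) := by
      rw [pow_mul (2 : ℝ) (2 + cC * ((q + r + 3) * (Δ + 1)))]
      exact pow_le_pow_left₀ (by positivity) h1 _
    refine (mul_le_mul_of_nonneg_left h3 (norm_nonneg _)).trans (hxE' _ ?_)
    refine le_trans (Nat.mul_le_mul ?_ (Nat.mul_le_mul ?_ ?_)) (Nat.le_add_right _ _)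
    · refine Nat.add_le_add_left (Nat.mul_le_mul_left _ (Nat.mul_le_mul_left _ ?_)) _
      omega
    · refine (hc₂ N).trans (Nat.pow_le_pow_left (Nat.add_le_add_right (hN'.trans ?_) _) _)
      exact Nat.pow_le_pow_left (by omega) _
    · omega
  have hmain : N < 2 * A * m * (N - R) := by
    by_contra hcon
    rw [not_lt] at hcon
    exact hE m A N _ K₀ b T y i₀ K x X hfd hrk hx0 hPt hGy hi₀ hLI hbd hXA hxT R _ haLI ha0 hcon
  have hcount := count h Δ I hI N y fun e => by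
    obtain ⟨c, hc⟩ := hwy e
    rw [hc]
    refine Submodule.sum_mem _ fun i _ => ?_
    have h1 : ((c i : Polynomial ℚ) : ℚ⟦X⟧) * y i = c i • y i := rfl
    rw [h1]
    exact Submodule.smul_mem _ _ (Submodule.subset_span ⟨i, rfl⟩)
  calc (Δ + 1) ^ I.card ≤ I.card.factorial * (Δ + I.card).choose I.card := choose_le _ _
    _ ≤ I.card.factorial * N := Nat.mul_le_mul_left _ hcount
    _ ≤ I.card.factorial * (2 * A * m * (N - R)) := Nat.mul_le_mul_left _ hmain.le
    _ ≤ _ := by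
      refine Nat.mul_le_mul_left _ (Nat.mul_le_mul_left _ ?_)
      omega

end Pool.Agent.T2h17.GH
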