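import Pool.Agent.T2h17.GH.Rankk
import Pool.Agent.T2h17.GH.Corek
import Pool.Agent.T2h17.GH.Asyk
import Pool.Agent.T2h17.GH.Basis
import Pool.Agent.T2h17.GH.Lowb
import Pool.Agent.T2h17.GH.Grow
import Pool.Agent.T2h17.GH.Depf
import Pool.Agent.Y120.H.GS1

/-!
# The engine for points of growing degree, without hypotheses
-/

set_option autoImplicit false

open PowerSeries

namespace Pool.Agent.T2h17.GH

open Pool.Agent.Y113 (GSys ps)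

/-- lower bounds for the dimensions of the spaces of monomials -/
theorem t_low : S_low := t_lowb (t_asyk t_rankk t_corek) t_basis

/-- the G-systems of the families -/
theorem gsys_one {r : ℕ} {T : Polynomial ℤ} {A : Fin r → Fin r → Polynomial ℤ} {y : Fin r → ℚ⟦X⟧}
    (hode : ∀ i, ps T * d⁄dX ℚ (y i) = ∑ j, ps (A i j) * y j)
    (hsize : ∃ C : ℝ, ∀ i m, |((coeff m (y i) : ℚ) : ℝ)| ≤ C ^ (m + 1))
    (hden : ∃ C : ℝ, ∀ m, ∃ d : ℕ, 0 < d ∧ (d : ℝ) ≤ C ^ (m + 1) ∧ ∀ i, ∀ j ≤ m, ∃ a : ℤ, (d : ℚ) * coeff j (y i) = a)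
    (hgal : ∃ C : ℝ, ∀ m, ∃ d : ℕ, 0 < d ∧ (d : ℝ) ≤ C ^ (m + 1) ∧ ∀ s ≤ m, ∀ i j, ∃ H : Polynomial ℤ,
      (d : Polynomial ℤ) * Pool.Agent.Y120.GH.itm T A s i j = (s.factorial : Polynomial ℤ) * H) :
    ∃ (q : ℕ) (C : ℝ), GSys q C T (fun i : Option (Fin r) => i.elim (1 : ℚ⟦X⟧) y) := by
  obtain ⟨q, C, h⟩ := Pool.Agent.Y120.GH.gsys_of hode hsize hden hgal
  exact ⟨q, C, Pool.Agent.Y120.GH.gsys_opt h⟩

end Pool.Agent.T2h17.GH
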