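import Pool.Agent.R351.GD.H.CntI
import Pool.Agent.R351.GD.PB
import Pool.Agent.Y916.Al.WinP

/-!
# Counting with a polynomial height bound
-/

set_option autoImplicit false

open Pool.Agent.Y916.Al (Ht)
open Pool.Agent.R351.GD.H (RB rb_cnt)
open Pool.Agent.R351.GD (PB)

namespace Pool.Agent.T2h17.GH

/-- coefficients in terms of the roots -/
theorem coeff_root {p : Polynomial ℤ} (hp0 : p ≠ 0) {B : ℝ} (hB : 1 ≤ B)
    (h : ∀ z : ℂ, Polynomial.aeval z p = 0 → ‖z‖ ≤ B) (j : ℕ) :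
    |(p.coeff j : ℝ)| ≤ |(p.leadingCoeff : ℝ)| * (B ^ p.natDegree * 2 ^ p.natDegree) := by
  set P : Polynomial ℂ := p.map (Int.castRingHom ℂ) with hP
  have hinj : Function.Injective (Int.castRingHom ℂ) := Int.cast_injective
  have hP0 : P ≠ 0 := (Polynomial.map_ne_zero_iff hinj).2 hp0
  have ha0 : P.leadingCoeff ≠ 0 := Polynomial.leadingCoeff_ne_zero.2 hP0
  have hlc : P.leadingCoeff = (p.leadingCoeff : ℂ) := by
    rw [hP, Polynomial.leadingCoeff_map_of_injective hinj]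
    rfl
  have hnd : P.natDegree = p.natDegree := Polynomial.natDegree_map_eq_of_injective hinj p
  set q : Polynomial ℂ := P * Polynomial.C P.leadingCoeff⁻¹ with hq
  have hqm : q.Monic := Polynomial.monic_mul_leadingCoeff_inv hP0
  have hqd : q.natDegree = p.natDegree := by
    rw [hq, Polynomial.natDegree_mul_C (inv_ne_zero ha0), hnd]
  have hroot : ∀ z ∈ (q.map (RingHom.id ℂ)).roots, ‖z‖ ≤ B := by
    intro z hz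
    rw [Polynomial.map_id] at hz
    have h1 := (Polynomial.mem_roots'.1 hz).2
    rw [Polynomial.IsRoot.def, hq, Polynomial.eval_mul, Polynomial.eval_C] at h1
    have h2 := (mul_eq_zero.1 h1).resolve_right (inv_ne_zero ha0)
    refine h z ?_
    rw [hP, Polynomial.eval_map] at h2
    exact h2
  have h5 := Polynomial.coeff_le_of_roots_le (f := RingHom.id ℂ) (B := B) j hqm (IsAlgClosed.splits _) hroot
  rw [Polynomial.map_id, hqd] at h5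
  have h6 : (p.coeff j : ℂ) = (p.leadingCoeff : ℂ) * q.coeff j := by
    have h7 : P.coeff j = (p.coeff j : ℂ) := by
      rw [hP, Polynomial.coeff_map]
      rfl
    rw [hq, Polynomial.coeff_mul_C, h7, ← hlc]
    field_simp
  have h8 : |(p.coeff j : ℝ)| = |(p.leadingCoeff : ℝ)| * ‖q.coeff j‖ := by
    have h9 := congrArg (fun z : ℂ => ‖z‖) h6
    simp only [norm_mul, Complex.norm_intCast] at h9
    exact h9
  rw [h8]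
  refine mul_le_mul_of_nonneg_left ?_ (abs_nonneg _)
  refine h5.trans (mul_le_mul (pow_le_pow_right₀ hB (Nat.sub_le _ _)) ?_ (Nat.cast_nonneg _) (by positivity))
  exact_mod_cast Nat.choose_le_two_pow _ _

/-- the largest root has small height -/
theorem ht_max {D : ℕ} {p : Polynomial ℤ} (hp0 : p ≠ 0) (hpd : p.natDegree ≤ D) (hlc : |p.leadingCoeff| ≤ 2 ^ D)
    {ξ : ℂ} (hξ : Polynomial.aeval ξ p = 0) (hmax : ∀ z : ℂ, Polynomial.aeval z p = 0 → ‖z‖ ≤ ‖ξ‖) (h2 : 2 ≤ ‖ξ‖) :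
    Ht (3 * D) (3 * D) ξ := by
  refine ⟨p, hp0, hpd.trans (by omega), fun j => ?_, hξ⟩
  have h1 : (1 : ℝ) ≤ ‖ξ‖ := by linarith
  have h3 : |(p.leadingCoeff : ℝ)| ≤ 2 ^ D := by exact_mod_cast hlc
  calc |(p.coeff j : ℝ)| ≤ |(p.leadingCoeff : ℝ)| * (‖ξ‖ ^ p.natDegree * 2 ^ p.natDegree) := coeff_root hp0 h1 hmax j
    _ ≤ ‖ξ‖ ^ D * (‖ξ‖ ^ D * ‖ξ‖ ^ D) := by
      refine mul_le_mul (h3.trans (pow_le_pow_left₀ (by norm_num) h2 _)) (mul_le_mul (pow_le_pow_right₀ h1 hpd) ?_ (by positivity)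
        (by positivity)) (by positivity) (by positivity)
      exact (pow_le_pow_left₀ (by norm_num) h2 _).trans (pow_le_pow_right₀ h1 hpd)
    _ = ‖ξ‖ ^ (3 * D) := by rw [← pow_add, ← pow_add]; congr 1; ring

/-- roots of polynomials with small roots and leading coefficient -/
theorem mem_RB {D h : ℕ} {p : Polynomial ℤ} (hp0 : p ≠ 0) (hpd : p.natDegree ≤ D) (hlc : |p.leadingCoeff| ≤ 2 ^ D)
    (hr : ∀ z : ℂ, Polynomial.aeval z p = 0 → ‖z‖ ≤ 2 ^ h) {ξ : ℂ} (hξ : Polynomial.aeval ξ p = 0) :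
    ξ ∈ RB D (2 ^ (D + (h * D + D))) := by
  refine ⟨p, hp0, hpd, fun j => ?_, hξ⟩
  have h1 : (1 : ℝ) ≤ 2 ^ h := one_le_pow₀ (by norm_num)
  have h3 : |(p.leadingCoeff : ℝ)| ≤ 2 ^ D := by exact_mod_cast hlc
  have h4 : |(p.coeff j : ℝ)| ≤ 2 ^ (D + (h * D + D)) := by
    calc |(p.coeff j : ℝ)| ≤ |(p.leadingCoeff : ℝ)| * ((2 ^ h) ^ p.natDegree * 2 ^ p.natDegree) := coeff_root hp0 h1 hr j
      _ ≤ 2 ^ D * ((2 ^ h) ^ D * 2 ^ D) := by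
        refine mul_le_mul h3 (mul_le_mul (pow_le_pow_right₀ h1 hpd) (pow_le_pow_right₀ (by norm_num) hpd) (by positivity)
          (by positivity)) (by positivity) (by positivity)
      _ = 2 ^ (D + (h * D + D)) := by rw [← pow_mul, ← pow_add, ← pow_add]
  have h9 : ((|p.coeff j| : ℤ) : ℝ) ≤ (((2 ^ (D + (h * D + D)) : ℕ) : ℤ) : ℝ) := by
    push_cast
    exact h4
  exact_mod_cast h9

/-- points of small height -/
theorem mem_RB' {D h : ℕ} {ξ : ℂ} (hht : Ht D D ξ) (hξ : ‖ξ‖ ≤ 2 ^ h) : ξ ∈ RB D (2 ^ (D + (h * D + D))) := by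
  obtain ⟨p, hp0, hpd, hpc, hp⟩ := hht
  refine ⟨p, hp0, hpd, fun j => ?_, hp⟩
  have h4 : |(p.coeff j : ℝ)| ≤ 2 ^ (D + (h * D + D)) := by
    calc |(p.coeff j : ℝ)| ≤ ‖ξ‖ ^ D := hpc j
      _ ≤ (2 ^ h) ^ D := pow_le_pow_left₀ (norm_nonneg _) hξ _
      _ = 2 ^ (h * D) := by rw [← pow_mul]
      _ ≤ 2 ^ (D + (h * D + D)) := pow_le_pow_right₀ (by norm_num) (by omega)
  have h9 : ((|p.coeff j| : ℤ) : ℝ) ≤ (((2 ^ (D + (h * D + D)) : ℕ) : ℤ) : ℝ) := by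
    push_cast
    exact h4
  exact_mod_cast h9

/-- the number of these points -/
theorem card_RB (D h : ℕ) (S : Set ℂ) (hS : S ⊆ RB D (2 ^ (D + (h * D + D)))) :
    S.Finite ∧ S.ncard ≤ 2 ^ ((D + (h * D + D) + 2) * (D + 1) + D) := by
  obtain ⟨h1, h2⟩ := rb_cnt D (2 ^ (D + (h * D + D)))
  refine ⟨h1.subset hS, ((Set.ncard_le_ncard hS h1).trans h2).trans ?_⟩
  rw [pow_add 2 ((D + (h * D + D) + 2) * (D + 1)) D, pow_mul 2 (D + (h * D + D) + 2) (D + 1)]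
  refine Nat.mul_le_mul (Nat.pow_le_pow_left ?_ _) (Nat.lt_two_pow_self).le
  have h4 : 1 ≤ 2 ^ (D + (h * D + D)) := Nat.one_le_two_pow
  have h5 : 2 ^ (D + (h * D + D) + 2) = 2 ^ (D + (h * D + D)) * 4 := by rw [pow_add]; norm_num
  omega

/-- `2^((D+2)^t)` is greater than any constant -/
theorem exists_big (R : ℝ) : ∃ r₀ : ℕ, 1 ≤ r₀ ∧ ∀ D t : ℕ, r₀ ≤ t → R < (2 : ℝ) ^ ((D + 2) ^ t) := by
  obtain ⟨n₀, hn₀⟩ := exists_nat_gt R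
  refine ⟨n₀ + 1, by omega, fun D t ht => hn₀.trans ?_⟩
  have h1 : n₀ < 2 ^ n₀ := Nat.lt_two_pow_self
  have h2 : 2 ^ n₀ ≤ 2 ^ ((D + 2) ^ t) := by
    refine Nat.pow_le_pow_right (by norm_num) ?_
    calc n₀ ≤ 2 ^ n₀ := Nat.lt_two_pow_self.le
      _ ≤ (D + 2) ^ n₀ := Nat.pow_le_pow_left (by omega) _
      _ ≤ (D + 2) ^ t := Nat.pow_le_pow_right (by omega) (by omega)
  exact_mod_cast h1.trans_le h2

/-- roots of nonzero integral polynomials of degree `≤ D` with leading coefficient `≤ 2^D` all of whose roots outside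
of the disc of radius `R` are in `Sp` -/
def RS (Sp : Set ℂ) (R : ℝ) (D : ℕ) : Set ℂ :=
  {ξ : ℂ | ∃ p : Polynomial ℤ, p ≠ 0 ∧ p.natDegree ≤ D ∧ |p.leadingCoeff| ≤ 2 ^ D ∧ Polynomial.aeval ξ p = 0 ∧
    ∀ ξ' : ℂ, Polynomial.aeval ξ' p = 0 → R < ‖ξ'‖ → ξ' ∈ Sp}

/-- **counting** -/
theorem cntf {Sp : ℕ → Set ℂ} (hmono : ∀ D D' : ℕ, D ≤ D' → Sp D ⊆ Sp D')
    (h : ∃ t₀ : ℕ, ∀ (D : ℕ) (ξ : ℂ), (2 : ℝ) ^ ((D + 2) ^ t₀) ≤ ‖ξ‖ → Ht D D ξ → ξ ∉ Sp D)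
    (R : ℝ) : ∃ c : ℕ, ∀ D : ℕ, (∀ ξ ∈ Sp D, Ht D D ξ → ‖ξ‖ < 2 ^ ((D + 2) ^ c)) ∧
      {ξ : ℂ | ξ ∈ Sp D ∧ Ht D D ξ}.Finite ∧ {ξ : ℂ | ξ ∈ Sp D ∧ Ht D D ξ}.ncard ≤ 2 ^ ((D + 2) ^ c) ∧
      (∀ ξ ∈ RS (Sp D) R D, ‖ξ‖ < 2 ^ ((D + 2) ^ c)) ∧ (RS (Sp D) R D).Finite ∧
      (RS (Sp D) R D).ncard ≤ 2 ^ ((D + 2) ^ c) ∧
      ∀ ξ : ℂ, IsIntegral ℤ ξ → (minpoly ℚ ξ).natDegree ≤ D →
        (∀ ξ' : ℂ, Polynomial.aeval ξ' (minpoly ℚ ξ) = 0 → R < ‖ξ'‖ → ξ' ∈ Sp D) → ξ ∈ RS (Sp D) R D := by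
  obtain ⟨t0, ht0⟩ := h
  obtain ⟨r₀, hr₀1, hr₀⟩ := exists_big (max R 2)
  -- constants
  obtain ⟨c₀, hc₀⟩ : PB fun D => (3 * D + 2) ^ t0 := (((PB.const 3).mul PB.id).add (PB.const 2)).pow t0
  set c₁ : ℕ := c₀ + r₀ with hc₁def
  have hc₁ : ∀ D : ℕ, (3 * D + 2) ^ t0 ≤ (D + 2) ^ c₁ := fun D =>
    (hc₀ D).trans (Nat.pow_le_pow_right (by omega) (by omega))
  obtain ⟨c₂, hc₂⟩ : PB fun D => (D + ((D + 2) ^ c₁ * D + D) + 2) * (D + 1) + D := by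
    have h1 := (PB.id.add (PB.const 2)).pow c₁
    exact (((PB.id.add ((h1.mul PB.id).add PB.id)).add (PB.const 2)).mul (PB.id.add (PB.const 1))).add PB.id
  have hup : ∀ {D a b : ℕ}, a ≤ b → (D + 2) ^ a ≤ (D + 2) ^ b := fun h => Nat.pow_le_pow_right (by omega) h
  have h2up : ∀ {a b : ℕ}, a ≤ b → (2 : ℝ) ^ a ≤ 2 ^ b := fun h => pow_le_pow_right₀ (by norm_num) h
  -- points
  have hpt : ∀ (D : ℕ) (ξ : ℂ), Ht D D ξ → ξ ∈ Sp D → ‖ξ‖ < 2 ^ ((D + 2) ^ c₁) := by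
    intro D ξ hht hsp
    by_contra hcon
    push Not at hcon
    refine ht0 D ξ ((h2up ?_).trans hcon) hht hsp
    exact (Nat.pow_le_pow_left (by omega) _).trans (hc₁ D)
  -- roots
  have hrt : ∀ (D : ℕ) (p : Polynomial ℤ), p ≠ 0 → p.natDegree ≤ D → |p.leadingCoeff| ≤ 2 ^ D →
      (∀ ξ' : ℂ, Polynomial.aeval ξ' p = 0 → R < ‖ξ'‖ → ξ' ∈ Sp D) → ∀ z : ℂ, Polynomial.aeval z p = 0 →
      ‖z‖ < 2 ^ ((D + 2) ^ c₁) := by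
    intro D p hp0 hpd hlc hall z hz
    by_contra hcon
    push Not at hcon
    have hfin : {z : ℂ | Polynomial.aeval z p = 0}.Finite := by
      refine (Finset.finite_toSet (p.map (Int.castRingHom ℂ)).roots.toFinset).subset fun w hw => ?_
      rw [Finset.mem_coe, Multiset.mem_toFinset, Polynomial.mem_roots
        ((Polynomial.map_ne_zero_iff Int.cast_injective).2 hp0), Polynomial.IsRoot.def, Polynomial.eval_map]
      exact hw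
    obtain ⟨ξ', hξ', hmax⟩ := Set.exists_max_image _ (fun w : ℂ => ‖w‖) hfin ⟨z, hz⟩
    have h1 : (2 : ℝ) ^ ((D + 2) ^ c₁) ≤ ‖ξ'‖ := hcon.trans (hmax z hz)
    have h2 : max R 2 < ‖ξ'‖ := (hr₀ D c₁ (by omega)).trans_le h1
    exact ht0 (3 * D) ξ' ((h2up (hc₁ D)).trans h1)
      (ht_max hp0 hpd hlc hξ' (fun w hw => hmax w hw) ((le_max_right _ _).trans h2.le))
      (hmono D (3 * D) (by omega) (hall ξ' hξ' ((le_max_left _ _).trans_lt h2)))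
  refine ⟨c₁ + c₂, fun D => ?_⟩
  have hB : ∀ ξ ∈ RS (Sp D) R D, ‖ξ‖ < 2 ^ ((D + 2) ^ c₁) := by
    rintro ξ ⟨p, hp0, hpd, hlc, hξ, hall⟩
    exact hrt D p hp0 hpd hlc hall ξ hξ
  obtain ⟨f1, f2⟩ := card_RB D ((D + 2) ^ c₁) {ξ : ℂ | ξ ∈ Sp D ∧ Ht D D ξ}
    fun ξ hξ => mem_RB' hξ.2 (hpt D ξ hξ.2 hξ.1).le
  obtain ⟨f3, f4⟩ := card_RB D ((D + 2) ^ c₁) (RS (Sp D) R D) (by
    rintro ξ ⟨p, hp0, hpd, hlc, hξ, hall⟩
    exact mem_RB hp0 hpd hlc (fun z hz => (hrt D p hp0 hpd hlc hall z hz).le) hξ)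
  have hcc : 2 ^ ((D + ((D + 2) ^ c₁ * D + D) + 2) * (D + 1) + D) ≤ 2 ^ ((D + 2) ^ (c₁ + c₂)) :=
    Nat.pow_le_pow_right (by norm_num) ((hc₂ D).trans (hup (by omega)))
  refine ⟨fun ξ h1 h2 => lt_of_lt_of_le (hpt D ξ h2 h1) (h2up (hup (by omega))), f1, f2.trans hcc,
    fun ξ hξ => lt_of_lt_of_le (hB ξ hξ) (h2up (hup (by omega))), f3, f4.trans hcc, ?_⟩
  intro ξ hint hdeg hall
  have hmin : minpoly ℚ ξ = (minpoly ℤ ξ).map (algebraMap ℤ ℚ) := minpoly.isIntegrallyClosed_eq_field_fractions' ℚ hint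
  have hmon : (minpoly ℤ ξ).Monic := minpoly.monic hint
  have hd : (minpoly ℤ ξ).natDegree = (minpoly ℚ ξ).natDegree := by
    rw [hmin, hmon.natDegree_map]
  have hev : ∀ z : ℂ, Polynomial.aeval z (minpoly ℚ ξ) = Polynomial.aeval z (minpoly ℤ ξ) := fun z => by
    rw [hmin, Polynomial.aeval_map_algebraMap]
  refine ⟨minpoly ℤ ξ, hmon.ne_zero, by rw [hd]; exact hdeg, ?_, minpoly.aeval ℤ ξ, fun ξ' hξ' h1 => hall ξ' ?_ h1⟩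
  · rw [hmon.leadingCoeff, abs_one]
    exact one_le_pow₀ (by norm_num)
  · rw [hev]
    exact hξ'

theorem cnt {Sp : Set ℂ} (h : ∃ t₀ : ℕ, ∀ (D : ℕ) (ξ : ℂ), (2 : ℝ) ^ ((D + 2) ^ t₀) ≤ ‖ξ‖ → Ht D D ξ → ξ ∉ Sp)
    (R : ℝ) : ∃ c : ℕ, ∀ D : ℕ, (∀ ξ ∈ Sp, Ht D D ξ → ‖ξ‖ < 2 ^ ((D + 2) ^ c)) ∧
      {ξ : ℂ | ξ ∈ Sp ∧ Ht D D ξ}.Finite ∧ {ξ : ℂ | ξ ∈ Sp ∧ Ht D D ξ}.ncard ≤ 2 ^ ((D + 2) ^ c) ∧
      (∀ ξ ∈ RS Sp R D, ‖ξ‖ < 2 ^ ((D + 2) ^ c)) ∧ (RS Sp R D).Finite ∧ (RS Sp R D).ncard ≤ 2 ^ ((D + 2) ^ c) ∧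
      ∀ ξ : ℂ, IsIntegral ℤ ξ → (minpoly ℚ ξ).natDegree ≤ D →
        (∀ ξ' : ℂ, Polynomial.aeval ξ' (minpoly ℚ ξ) = 0 → R < ‖ξ'‖ → ξ' ∈ Sp) → ξ ∈ RS Sp R D :=
  cntf (Sp := fun _ => Sp) (fun _ _ _ => subset_rfl) h R

end Pool.Agent.T2h17.GH
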