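import Pool.Agent.T2h17.GH.Gen
import Pool.Agent.T2h17.GH.Cnt
import Pool.Agent.T2h17.TV.Tr

/-!
# Transversality at single points of growing degree
-/

set_option autoImplicit false

open PowerSeries Matrix

namespace Pool.Agent.T2h17.GH

open Pool.Agent.T2h17.HW (Grp Gen InvR En tc)
open Pool.Agent.T2h17.CM (hh Hz)
open Pool.Agent.T2h17.TV (Trans)
open Pool.Agent.Y916.Al (Ht evc)
open Pool.Agent.Y113 (GSys)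

variable {n : ℕ}

/-- small points -/
theorem near_of_big {ρ : ℝ} (hρ : 0 < ρ) : ∃ r₀ : ℕ, ∀ (D t : ℕ) (ξ : ℂ), r₀ ≤ t → (2 : ℝ) ^ ((D + 2) ^ t) ≤ ‖ξ‖ →
    1 / ξ ≠ 0 ∧ ‖1 / ξ‖ < ρ := by
  obtain ⟨r₀, -, hr₀⟩ := exists_big (1 / ρ)
  refine ⟨r₀, fun D t ξ ht hξ => ?_⟩
  have h1 : 1 / ρ < ‖ξ‖ := (hr₀ D t ht).trans_le hξ
  have h2 : 0 < ‖ξ‖ := (one_div_pos.2 hρ).trans h1
  refine ⟨one_div_ne_zero (norm_pos_iff.1 h2), ?_⟩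
  rw [norm_div, norm_one, div_lt_comm₀ h2 hρ]
  exact h1

theorem big_mono {D t t' : ℕ} (h : t ≤ t') {ξ : ℂ} (hξ : (2 : ℝ) ^ ((D + 2) ^ t') ≤ ‖ξ‖) :
    (2 : ℝ) ^ ((D + 2) ^ t) ≤ ‖ξ‖ :=
  (pow_le_pow_right₀ (by norm_num) (Nat.pow_le_pow_right (by omega) h)).trans hξ

/-- **transversality at single points** -/
theorem pt_trans (hlow : S_low) (hgrow : S_grow) (hdep : S_depf) {H : Matrix (Fin n) (Fin n) ℚ⟦X⟧} {q : ℕ} {C : ℝ}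
    {T : Polynomial ℤ} (hT : T ≠ 0) (hG : GSys q C T (fun i : Option (Fin (n * n)) => i.elim (1 : ℚ⟦X⟧) (hh H)))
    (hsz : ∃ C : ℝ, ∀ i j m, |((coeff m (H i j) : ℚ) : ℝ)| ≤ C ^ (m + 1)) (hdet : H.det ≠ 0)
    {N : Matrix (Fin n) (Fin n) ℚ} (hN : N ^ n = 0) {𝒩 : Set (Matrix (Fin n) (Fin n) ℂ)} (hn : ∀ X ∈ 𝒩, X ^ n = 0)
    (hconj : ∀ X ∈ 𝒩, ∀ s, En (tc N) s * X * En (tc N) (-s) ∈ Submodule.span ℂ 𝒩)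
    {ρ : ℝ} (hρ : 0 < ρ) (hinv : InvR H 𝒩 ρ) (lev : Fin n → ℤ) (d : ℕ) :
    ∃ t₀ : ℕ, ∀ (D : ℕ) (ξ : ℂ), (2 : ℝ) ^ ((D + 2) ^ t₀) ≤ ‖ξ‖ → Ht D D ξ →
      ∀ (B : Matrix (Fin n) (Fin n) ℂ) (l : ℂ), B.det ≠ 0 →
      Trans (k := 1) N 𝒩 lev d B (fun _ => Hz H (1 / ξ)) l (fun _ => 0) := by
  obtain ⟨ρ₂, hρ₂, hd⟩ := Pool.Agent.T2h17.HW.det_near hsz hdet
  obtain ⟨e, he⟩ := Pool.Agent.T2h17.TV.trans 1 hN hn hconj lev d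
  obtain ⟨t₀, ht₀⟩ := pt_gen hlow hgrow hdep hT hG hρ hinv e
  obtain ⟨r₀, hr₀⟩ := near_of_big hρ₂
  refine ⟨t₀ + r₀, fun D ξ hξ hht B l hB => ?_⟩
  obtain ⟨t, ht⟩ := ht₀ D ξ (big_mono (by omega) hξ) hht
  obtain ⟨h1, h2⟩ := hr₀ D (t₀ + r₀) ξ (by omega) hξ
  have h3 := he B (fun _ => Hz H (1 / ξ)) (l - t) (fun _ => t) hB (fun _ => hd _ h1 h2) ht
  intro Φ hΦ 𝔪 hbr hmem Y hY
  have h4 := h3 Φ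
  have h5 : l - t + t = l + 0 := by ring
  simp only [h5] at h4
  exact h4 hΦ 𝔪 hbr hmem Y hY

end Pool.Agent.T2h17.GH
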