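import Pool.Agent.T2h17.GH.Fder
import Pool.Agent.T2h17.GH.Pt
import Pool.Agent.T2h17.AH.Abs

/-!
# Transversality for algebraic tensors over number fields of polynomially bounded degree at single points
-/

set_option autoImplicit false
set_option maxHeartbeats 800000

open Matrix Filter PowerSeries

namespace Pool.Agent.T2h17.GH

open Pool.Agent.Y118.UL (U mk mk_eq mk_eq_zero mk_surj ev_ge qc_mk algebraMap_eq)
open Pool.Agent.T2h17.HW (gm gm_apply gm_mul gm_sub gm_add gm_smul gm_one gm_sum gm_ext der_rat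
  En Grp tc tc_mul gm_En der_En En_comm)
open Pool.Agent.T2h17.TV (Tg ev_Tg)
open Pool.Agent.T2h17.AH
open Pool.Agent.Y916.Al (Ht evc)
open Pool.Agent.Y113 (GSys)

theorem no_bad4 {n r : ℕ} {β : Fin n × Fin n → Fin r → ℂ} (hβ : ∀ a s, IsAlgebraic ℚ (β a s))
    {N : Matrix (Fin n) (Fin n) ℚ} (hN : N ^ n = 0) {𝒩 : Set (Dir r n)}
    (hn : ∀ X ∈ 𝒩, X.1 ^ r = 0) (heq : ∀ X ∈ 𝒩, ∀ y, bt β (y ᵥ* X.1) = bt β y * X.2)
    (hconj : ∀ X ∈ Submodule.span ℂ (Prod.snd '' 𝒩), ∀ s,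
      En (tc N) s * X * En (tc N) (-s) ∈ Submodule.span ℂ (Prod.snd '' 𝒩))
    (hE : ∀ s, En (tc N) s * En (tc N) (-s) = 1)
    {d0 a0 c0 : ℕ} (D : ℕ → ℕ) (C : ℕ → Matrix (Fin n) (Fin n) ℂ) (v : ℕ → Fin r → ℂ) (l : ℕ → ℂ)
    (W : ℕ → Matrix (Fin n) (Fin n) ℂ) (μ : ℕ → ℂ) (hC : ∀ d, (C d).det ≠ 0)
    (hh : ∀ d, (bt β (v d)).det ≠ 0)
    (hG : ∀ d, ∀ K : IntermediateField ℚ ℂ, FiniteDimensional ℚ K → Module.finrank ℚ K ≤ (D d + 2) ^ d →
      ∀ P : MvPolynomial (Fin r) ℂ, P.totalDegree ≤ d → (∀ m, P.coeff m ∈ K) →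
      MvPolynomial.eval (v d) P = 0 → ∀ g ∈ Grp (Prod.fst '' 𝒩), MvPolynomial.eval (v d ᵥ* g) P = 0)
    (hW : ∀ d, W d ∈ Submodule.span ℂ (Prod.snd '' 𝒩))
    (hnot : ∀ d, ∀ Z ∈ Tg d0 (C d), ∀ c : ℂ,
      (blockDiagonal fun _ : Fin 1 => (C d)⁻¹ * (W d + μ d • tc N + Z + c • tc N) * C d) ∉
        LieT ((D d + 2) ^ c0) a0 (blockDiagonal fun _ : Fin 1 => bt β (v d) * En (tc N) (-l d) * C d)) :
    False := by
  classical
  -- the logarithms and the period matrices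
  set P : ℕ → Matrix (Fin n) (Fin n) ℂ := fun d => bt β (v d) * En (tc N) (-l d) * C d with hPdef
  have hdetE : ∀ s, (En (tc N) s).det ≠ 0 := by
    intro s h0
    have h1 := congrArg Matrix.det (hE s)
    rw [Matrix.det_mul, h0, zero_mul, Matrix.det_one] at h1
    exact zero_ne_one h1
  have hdetP : ∀ d, IsUnit (P d).det := by
    intro d
    rw [isUnit_iff_ne_zero]
    simp only [hPdef, Matrix.det_mul]
    exact mul_ne_zero (mul_ne_zero (hh d) (hdetE _)) (hC d)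
  -- the derivation
  set W' : ℕ → Matrix (Fin n) (Fin n) ℂ := fun d =>
    En (tc N) (-l d) * W d * En (tc N) (l d) with hW'
  have hWm : ∀ d, W' d ∈ Submodule.span ℂ (Prod.snd '' 𝒩) := by
    intro d
    have h1 := hconj _ (hW d) (-l d)
    rwa [neg_neg] at h1
  choose V hV hVW using fun d => lift_span heq (hWm d)
  have hn' : ∀ X ∈ Prod.fst '' 𝒩, X ^ r = 0 := by
    rintro _ ⟨X, hX, rfl⟩
    exact hn X hX
  obtain ⟨δ, hδF, hδ⟩ := exists_derF D v (fun d => v d ᵥ* V d)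
    (fun d K hK hKD Q hQ hQK hQ0 => tan_c hn' (hG d K hK hKD Q hQ hQK hQ0) (hV d))
  -- the unknown derivatives
  obtain ⟨e, he⟩ := mk_surj (δ (mk ℂ l))
  have hCu : ∀ d, IsUnit (C d).det := fun d => isUnit_iff_ne_zero.2 (hC d)
  have hC'C : (gm fun d => (C d)⁻¹) * (gm C) = 1 := by
    rw [← gm_mul, ← gm_one]
    congr 1
    funext d
    exact Matrix.nonsing_inv_mul _ (hCu d)
  obtain ⟨Z, hZ⟩ : ∃ Z : ℕ → Matrix (Fin n) (Fin n) ℂ,
      gm Z = (gm C).map δ * gm fun d => (C d)⁻¹ := by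
    choose z hz using fun a : Fin n × Fin n =>
      mk_surj (((gm C).map δ * gm fun d => (C d)⁻¹) a.1 a.2)
    refine ⟨fun d => Matrix.of fun i j => z (i, j) d, ?_⟩
    ext i j
    rw [gm_apply]
    exact hz (i, j)
  have hDC : (gm C).map δ = gm Z * gm C := by
    rw [hZ, Matrix.mul_assoc, hC'C, Matrix.mul_one]
  have hZT := ev_Tg δ d0 C Z hDC
  have hDl : δ (mk ℂ fun d => -l d) = mk ℂ fun d => -e d := by
    have h2 : mk ℂ (fun d => -l d) = -(mk ℂ l) := (map_neg (mk ℂ) l)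
    have h3 : mk ℂ (fun d => -e d) = -(mk ℂ e) := (map_neg (mk ℂ) e)
    rw [h2, map_neg, ← he, h3]
  have hDh : (gm fun d => bt β (v d)).map δ = gm fun d => bt β (v d) * W' d := by
    ext a c
    rw [Matrix.map_apply, gm_apply, gm_apply]
    have h1 : (fun d => bt β (v d) a c) = ∑ s, (fun _ : ℕ => β (a, c) s) * fun d => v d s := by
      funext d
      rw [Finset.sum_apply]
      rfl
    have h2 : (fun d => (bt β (v d) * W' d) a c) =
        ∑ s, (fun _ : ℕ => β (a, c) s) * fun d => (v d ᵥ* V d) s := by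
      funext d
      rw [← hVW, Finset.sum_apply]
      rfl
    rw [h1, h2, map_sum, map_sum, map_sum]
    refine Finset.sum_congr rfl fun s _ => ?_
    rw [map_mul (mk ℂ), map_mul (mk ℂ), Derivation.leibniz, hδF _ (const_mem_FF D (hβ (a, c) s)), smul_zero,
      add_zero, hδ, smul_eq_mul]
  set Y : ℕ → Matrix (Fin n) (Fin n) ℂ := fun d =>
    (C d)⁻¹ * (W d + Z d + (-e d) • tc N) * C d with hY
  have hDP : (gm P).map δ = gm fun d => P d * Y d := by
    have h1 : gm P = gm (fun d => bt β (v d)) *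
        En (gm fun _ => tc N) (mk ℂ fun d => -l d) * gm C := by
      rw [← gm_En, ← gm_mul, ← gm_mul]
    rw [h1, Pool.Agent.T2h17.HW.map_D_mul, Pool.Agent.T2h17.HW.map_D_mul, hDC, hDh, der_En hN, hDl,
      ← gm_En]
    have e1 : (gm fun _ => tc N) * gm (fun d => En (tc N) (-l d)) =
        gm fun d => tc N * En (tc N) (-l d) := (gm_mul _ _).symm
    rw [e1, ← gm_smul (fun d => -e d), ← gm_mul, ← gm_mul, ← gm_add, ← gm_mul, ← gm_mul,
      ← gm_mul, ← gm_mul, ← gm_add]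
    congr 1
    funext d
    have h3 : P d * Y d = bt β (v d) * (En (tc N) (-l d) *
        (W d + Z d + (-e d) • tc N) * C d) := by
      have h4 : C d * (C d)⁻¹ = 1 := Matrix.mul_nonsing_inv _ (hCu d)
      simp only [hPdef, hY]
      calc bt β (v d) * En (tc N) (-l d) * C d * ((C d)⁻¹ *
            (W d + Z d + (-e d) • tc N) * C d) =
          bt β (v d) * En (tc N) (-l d) * (C d * (C d)⁻¹) *
            (W d + Z d + (-e d) • tc N) * C d := by
            simp only [Matrix.mul_assoc]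
        _ = _ := by
            rw [h4, Matrix.mul_one]
            simp only [Matrix.mul_assoc]
    rw [h3]
    have h4 : bt β (v d) * W' d * En (tc N) (-l d) =
        bt β (v d) * (En (tc N) (-l d) * W d) := by
      simp only [hW']
      rw [Matrix.mul_assoc, Matrix.mul_assoc, hE (l d), Matrix.mul_one]
    rw [h4, Matrix.mul_smul, En_comm]
    simp only [Matrix.mul_add, Matrix.add_mul, Matrix.mul_smul, Matrix.smul_mul, Matrix.mul_assoc]
    module
  -- the matrices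
  set BP : ℕ → Matrix (Fin n × Fin 1) (Fin n × Fin 1) ℂ := fun d => blockDiagonal fun _ => P d with hBP
  set BY : ℕ → Matrix (Fin n × Fin 1) (Fin n × Fin 1) ℂ := fun d => blockDiagonal fun _ => Y d with hBY
  have hBPu : ∀ d, IsUnit (BP d).det := by
    intro d
    rw [hBP, det_blockDiagonal, isUnit_iff_ne_zero, Finset.prod_ne_zero_iff]
    exact fun j _ => (hdetP d).ne_zero
  have hDBP : (gm BP).map δ = gm BP * gm BY := by
    rw [← gm_mul]
    ext ⟨a, j⟩ ⟨c, j'⟩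
    have h0 : ∀ d, BP d * BY d = blockDiagonal fun _ => P d * Y d := fun d =>
      (blockDiagonal_mul _ _).symm
    simp only [h0]
    rw [Matrix.map_apply, gm_apply, gm_apply]
    simp only [hBP, blockDiagonal_apply]
    by_cases hj : j = j'
    · simp only [if_pos hj]
      have h1 := congrFun (congrFun hDP a) c
      rw [Matrix.map_apply, gm_apply, gm_apply] at h1
      exact h1
    · simp only [if_neg hj]
      have h1 : mk ℂ (fun _ => (0 : ℂ)) = 0 := map_zero (mk ℂ)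
      rw [h1, map_zero]
  have hPP' : gm BP * gm (fun d => (BP d)⁻¹) = 1 := by
    rw [← gm_mul, ← gm_one]
    congr 1
    funext d
    exact Matrix.mul_nonsing_inv _ (hBPu d)
  have hP'P : gm (fun d => (BP d)⁻¹) * gm BP = 1 := by
    rw [← gm_mul, ← gm_one]
    congr 1
    funext d
    exact Matrix.nonsing_inv_mul _ (hBPu d)
  -- the bad tensors
  set Q : Fin (a0 + 1) × Fin (a0 + 1) → ℕ → Prop := fun q d =>
    ∃ T : Matrix (Fin (q.1 : ℕ) → Fin n × Fin 1) (Fin (q.2 : ℕ) → Fin n × Fin 1) ℚ,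
      AlgT ((D d + 2) ^ c0) (BP d) T ∧ ¬ Pres T (BY d) with hQ
  have hex : ∀ᶠ d in (hyperfilter ℕ : Filter ℕ), ∃ q, Q q d := by
    refine hZT.mono fun d hd => ?_
    have h1 : BY d ∉ LieT ((D d + 2) ^ c0) a0 (BP d) := by
      have h3 := hnot d (Z d) hd (-e d - μ d)
      have h4 : W d + μ d • tc N + Z d + (-e d - μ d) • tc N = W d + Z d + (-e d) • tc N := by module
      rw [h4] at h3
      exact h3
    have h2 : ¬ ∀ a ≤ a0, ∀ b ≤ a0, ∀ T : Matrix (Fin a → Fin n × Fin 1) (Fin b → Fin n × Fin 1) ℚ,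
      AlgT ((D d + 2) ^ c0) (BP d) T → Pres T (BY d) := h1
    push Not at h2
    obtain ⟨a, ha, c, hc, T, hT, hp⟩ := h2
    exact ⟨(⟨a, Nat.lt_succ_of_le ha⟩, ⟨c, Nat.lt_succ_of_le hc⟩), T, hT, hp⟩
  obtain ⟨q, hq⟩ : ∃ q, ∀ᶠ d in (hyperfilter ℕ : Filter ℕ), Q q d := by
    by_contra hcon
    push Not at hcon
    have h2 := eventually_all.2 hcon
    obtain ⟨d, hd1, q, hd2⟩ := (h2.and hex).exists
    exact hd1 q hd2
  obtain ⟨a, c⟩ := q
  -- the choice of the tensors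
  have hD0 : ∀ d, 1 ≤ (D d + 2) ^ c0 := fun d => Nat.one_le_pow _ _ (by omega)
  have hch : ∀ d, ∃ (T : Matrix (Fin (a : ℕ) → Fin n × Fin 1) (Fin (c : ℕ) → Fin n × Fin 1) ℚ)
      (K : IntermediateField ℚ ℂ) (κ : ℂ)
      (w : Matrix (Fin (a : ℕ) → Fin n × Fin 1) (Fin (c : ℕ) → Fin n × Fin 1) ℂ),
      FiniteDimensional ℚ K ∧ Module.finrank ℚ K ≤ (D d + 2) ^ c0 ∧ κ ≠ 0 ∧ (∀ i m, w i m ∈ K) ∧
      pw a (BP d) * tc T * pw c (BP d)⁻¹ = κ • w ∧ (Q (a, c) d → ¬ Pres T (BY d)) := by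
    intro d
    by_cases hd : Q (a, c) d
    · obtain ⟨T, ⟨K, κ, h1, h2, h3, h4⟩, h5⟩ := hd
      choose w hw hw' using h4
      refine ⟨T, K, κ, Matrix.of w, h1, h2, h3, hw, ?_, fun _ => h5⟩
      ext i m
      rw [Matrix.smul_apply, smul_eq_mul]
      exact hw' i m
    · refine ⟨0, ⊥, 1, 0, inferInstance, ?_, one_ne_zero, fun i m => ?_, ?_, fun h => absurd h hd⟩
      · rw [IntermediateField.finrank_bot]
        exact hD0 d
      · rw [Matrix.zero_apply]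
        exact zero_mem _
      · have h1 : tc (0 : Matrix (Fin (a : ℕ) → Fin n × Fin 1) (Fin (c : ℕ) → Fin n × Fin 1) ℚ) = 0 := by
          ext i j
          simp [tc]
        rw [h1, Matrix.mul_zero, Matrix.zero_mul, smul_zero]
  choose T K κ w hK1 hK2 hκ hw hT hTn using hch
  have hκ0 : mk ℂ κ ≠ 0 := by
    intro h0
    rw [mk_eq_zero] at h0
    obtain ⟨d, hd⟩ := h0.exists
    exact hκ d hd
  have h1 := ten_der δ hPP' hP'P hDBP (T := gm fun d => tc (T d)) (by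
      ext i m
      rw [Matrix.map_apply, Matrix.zero_apply]
      exact der_rat δ fun d => T d i m) hκ0 (w := gm w) (by
      ext i m
      rw [Matrix.map_apply, Matrix.zero_apply]
      exact hδF _ (mk_mem_FF ⟨c0, K, fun d => ⟨hK1 d, hK2 d⟩, fun d => hw d i m⟩)) (by
      rw [← gm_pw, ← gm_pw, ← gm_mul, ← gm_mul, ← gm_smul]
      congr 1
      funext d
      exact hT d)
  obtain ⟨ν, hν⟩ := mk_surj (δ (mk ℂ κ) / mk ℂ κ)
  rw [← hν, ← gm_dpw, ← gm_dpw, ← gm_mul, ← gm_mul, ← gm_sub, ← gm_smul, gm_ext] at h1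
  obtain ⟨d, hd1, hd2⟩ := (h1.and hq).exists
  exact hTn d hd2 ⟨ν d, hd1⟩

/-- **transversality at single points** -/
theorem trans4 (hlow : S_low) (hgrow : S_grow) (hdep : S_depf) {n r q : ℕ} {Cg : ℝ} {T : Polynomial ℤ}
    {h : Fin r → ℚ⟦X⟧} (hT : T ≠ 0) (hG : GSys q Cg T (fun i : Option (Fin r) => i.elim (1 : ℚ⟦X⟧) h))
    {β : Fin n × Fin n → Fin r → ℂ} (hβ : ∀ a s, IsAlgebraic ℚ (β a s))
    {N : Matrix (Fin n) (Fin n) ℚ} (hN : N ^ n = 0) {𝒩 : Set (Dir r n)}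
    (hn : ∀ X ∈ 𝒩, X.1 ^ r = 0) (heq : ∀ X ∈ 𝒩, ∀ y, bt β (y ᵥ* X.1) = bt β y * X.2)
    (hconj : ∀ X ∈ Prod.snd '' 𝒩, ∀ s,
      En (tc N) s * X * En (tc N) (-s) ∈ Submodule.span ℂ (Prod.snd '' 𝒩))
    {ρ : ℝ} (hρ : 0 < ρ) (hinv : InvV h (Prod.fst '' 𝒩) ρ)
    (hdet : ∀ z : ℂ, z ≠ 0 → ‖z‖ < ρ → (bt β (hv h z)).det ≠ 0) (d0 a0 c0 : ℕ) :
    ∃ t₀ : ℕ, ∀ (D : ℕ) (ξ : ℂ), (2 : ℝ) ^ ((D + 2) ^ t₀) ≤ ‖ξ‖ → Ht D D ξ →
      ∀ (C : Matrix (Fin n) (Fin n) ℂ) (l : ℂ), C.det ≠ 0 → (bt β (hv h (1 / ξ))).det ≠ 0 ∧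
      Trans3 (k := 1) β N 𝒩 d0 a0 ((D + 2) ^ c0) C (fun _ => hv h (1 / ξ)) l (fun _ => 0) := by
  classical
  have hconj' : ∀ X ∈ Submodule.span ℂ (Prod.snd '' 𝒩), ∀ s,
      En (tc N) s * X * En (tc N) (-s) ∈ Submodule.span ℂ (Prod.snd '' 𝒩) := by
    intro X hX s
    induction hX using Submodule.span_induction with
    | mem X h => exact hconj X h s
    | zero =>
      rw [Matrix.mul_zero, Matrix.zero_mul]
      exact Submodule.zero_mem _
    | add A B _ _ hA hB =>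
      rw [Matrix.mul_add, Matrix.add_mul]
      exact Submodule.add_mem _ hA hB
    | smul c A _ hA =>
      rw [Matrix.mul_smul, Matrix.smul_mul]
      exact Submodule.smul_mem _ _ hA
  obtain ⟨r₀, hr₀⟩ := near_of_big hρ
  choose t ht using fun m : ℕ => eng_grp hlow hgrow hdep hT hG hρ hinv m m
  by_contra hcon
  push Not at hcon
  choose D ξ hξ hht C l hC hnot using fun m : ℕ => hcon (t m + r₀)
  have hd : ∀ m, (bt β (hv h (1 / ξ m))).det ≠ 0 := fun m =>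
    hdet _ (hr₀ (D m) _ (ξ m) (by omega) (hξ m)).1 (hr₀ (D m) _ (ξ m) (by omega) (hξ m)).2
  have hnot' := fun m => hnot m (hd m)
  unfold Trans3 at hnot'
  push Not at hnot'
  choose Y hY hnot'' using hnot'
  have h2 : ∀ m, ∃ (Z : Matrix (Fin n) (Fin n) ℂ) (μ : ℂ), Z ∈ Submodule.span ℂ (Prod.snd '' 𝒩) ∧
      Y m 0 = Z + μ • tc N := by
    intro m
    have h3 := hY m 0
    rw [Submodule.span_union, Submodule.mem_sup] at h3
    obtain ⟨Z, hZ, W, hW, h4⟩ := h3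
    obtain ⟨μ, rfl⟩ := Submodule.mem_span_singleton.1 hW
    exact ⟨Z, μ, hZ, h4.symm⟩
  choose W μ hW hWY using h2
  refine no_bad4 (c0 := c0) (d0 := d0) (a0 := a0) hβ hN hn heq hconj' (En_inv hN) D C
    (fun m => hv h (1 / ξ m)) l W μ hC hd
    (fun m K hK hKD P hP hPK hP0 => ht m (D m) (ξ m) (big_mono (by omega) (hξ m)) (hht m) K hK hKD P hP hPK hP0)
    hW fun m Z hZ c hmem => ?_
  refine hnot'' m (Z + c • tc N) (Submodule.add_mem_sup hZ
    (Submodule.smul_mem _ _ (Submodule.subset_span rfl))) ?_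
  simp only [add_zero]
  have h3 : (blockDiagonal fun j : Fin 1 => (C m)⁻¹ * (Y m j + (Z + c • tc N)) * C m) =
      blockDiagonal fun _ : Fin 1 => (C m)⁻¹ * (W m + μ m • tc N + Z + c • tc N) * C m := by
    congr 1
    funext j
    rw [Subsingleton.elim j 0, hWY m]
    congr 2
    abel
  rw [h3]
  exact hmem

end Pool.Agent.T2h17.GH
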