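import Pool.Agent.T2h17.GH.Pt
import Pool.Agent.T2h17.TV.Sum

/-!
# Transversality and codimensions at one point, in plain form
-/

set_option autoImplicit false

open Matrix Module

namespace Pool.Agent.T2h17.GH

open Pool.Agent.T2h17.HW (Fil En tc)
open Pool.Agent.T2h17.TV (Trans Tg Stb cj dsum cplx_dsum dsum_cplx finrank_cj)

variable {n : ℕ}

/-- transversality at one point -/
def TrP (N : Matrix (Fin n) (Fin n) ℚ) (𝒩 : Set (Matrix (Fin n) (Fin n) ℂ))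
    (lev : Fin n → ℤ) (d0 : ℕ) (C h : Matrix (Fin n) (Fin n) ℂ) (l : ℂ) : Prop :=
  ∀ Φ : Matrix (Fin n) (Fin n) ℂ,
    (∀ p, ∀ v ∈ Fil lev (h * En (tc N) (-l) * C) p, v ᵥ* Φ - (p : ℂ) • v ∈ Fil lev (h * En (tc N) (-l) * C) (p + 1)) →
    ∀ 𝔪 : Submodule ℚ (Matrix (Fin n) (Fin n) ℚ), (∀ X ∈ 𝔪, ∀ Y ∈ 𝔪, X * Y - Y * X ∈ 𝔪) →
    Φ ∈ Submodule.span ℂ (tc '' (𝔪 : Set (Matrix (Fin n) (Fin n) ℚ))) →
    ∀ Y ∈ Submodule.span ℂ (𝒩 ∪ {tc N}), ∃ Z ∈ Tg d0 C ⊔ Submodule.span ℂ {tc N},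
      C⁻¹ * (Y + Z) * C ∈ Submodule.span ℂ (tc '' (𝔪 : Set (Matrix (Fin n) (Fin n) ℚ))) ⊔
        Stb (Fil lev (h * En (tc N) (-l) * C))

theorem trP {N : Matrix (Fin n) (Fin n) ℚ} {𝒩 : Set (Matrix (Fin n) (Fin n) ℂ)} {lev : Fin n → ℤ} {d0 : ℕ}
    {C h : Matrix (Fin n) (Fin n) ℂ} {l : ℂ}
    (hT : Trans (k := 1) N 𝒩 lev d0 C (fun _ => h) l (fun _ => 0)) : TrP N 𝒩 lev d0 C h l := by
  intro Φ hΦ 𝔪 hbr hmem Y hY
  unfold Pool.Agent.T2h17.TV.Trans at hT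
  simp only [add_zero] at hT
  obtain ⟨Z, hZ, hmemZ⟩ := hT (fun _ => Φ) (fun _ => hΦ) (dsum fun _ : Fin 1 => 𝔪) (by
    rintro _ ⟨M, hM, rfl⟩ _ ⟨M', hM', rfl⟩
    refine ⟨fun j => M j * M' j - M' j * M j, fun j => hbr _ (hM j) _ (hM' j), ?_⟩
    rw [← blockDiagonal_mul, ← blockDiagonal_mul, ← blockDiagonal_sub]
    rfl) (cplx_dsum fun _ => hmem) (fun _ => Y) (fun _ => hY)
  refine ⟨Z, hZ, ?_⟩
  obtain ⟨V, hV, B, hB, hVB⟩ := Submodule.mem_sup.1 hmemZ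
  obtain ⟨X, hX, rfl⟩ := dsum_cplx hV
  have hBb : B = blockDiagonal fun j => C⁻¹ * (Y + Z) * C - X j := by
    have h1 : B = (blockDiagonal fun j => C⁻¹ * (Y + Z) * C) - blockDiagonal X := by
      rw [← hVB]
      abel
    rw [h1, ← blockDiagonal_sub]
    rfl
  have h2 : C⁻¹ * (Y + Z) * C - X 0 ∈ Stb (Fil lev (h * En (tc N) (-l) * C)) := by
    intro p v hv
    have h3 := hB p (fun a => if a.2 = 0 then v a.1 else 0) (by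
      intro j'
      have hj : j' = 0 := Subsingleton.elim _ _
      simp only [hj, if_true]
      exact hv) 0
    rw [hBb, Pool.Agent.T2h17.TV.vecMul_bd] at h3
    simpa using h3
  have h4 : C⁻¹ * (Y + Z) * C = X 0 + (C⁻¹ * (Y + Z) * C - X 0) := by abel
  rw [h4]
  exact Submodule.add_mem_sup (hX 0) h2

/-- dimensions -/
theorem dim_one (G T S : Submodule ℂ (Matrix (Fin n) (Fin n) ℂ)) (h : ∀ Y ∈ G, ∃ Z ∈ T, Y + Z ∈ S) :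
    finrank ℂ G - finrank ℂ (G ⊓ S : Submodule ℂ _) + finrank ℂ (T ⊓ S : Submodule ℂ _) ≤ finrank ℂ T := by
  have h1 : G ⊔ S ≤ T ⊔ S := by
    refine sup_le (fun Y hY => ?_) le_sup_right
    obtain ⟨Z, hZ, hS⟩ := h Y hY
    have h2 : Y = -Z + (Y + Z) := by abel
    rw [h2]
    exact Submodule.add_mem_sup (T.neg_mem hZ) hS
  have h2 := Submodule.finrank_mono h1
  have h3 := Submodule.finrank_sup_add_finrank_inf_eq G S
  have h4 := Submodule.finrank_sup_add_finrank_inf_eq T S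
  have h5 : finrank ℂ (G ⊓ S : Submodule ℂ _) ≤ finrank ℂ G := Submodule.finrank_mono inf_le_left
  have h6 : finrank ℂ (T ⊓ S : Submodule ℂ _) ≤ finrank ℂ T := Submodule.finrank_mono inf_le_left
  omega

/-- the codimension -/
theorem codim_one {N : Matrix (Fin n) (Fin n) ℚ} {𝒩 : Set (Matrix (Fin n) (Fin n) ℂ)} {lev : Fin n → ℤ} {d0 : ℕ}
    {C h : Matrix (Fin n) (Fin n) ℂ} {l : ℂ} (hT : TrP N 𝒩 lev d0 C h l)
    {T : Submodule ℂ (Matrix (Fin n) (Fin n) ℂ)} (hTT : Tg d0 C ⊔ Submodule.span ℂ {tc N} ≤ T)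
    {Φ : Matrix (Fin n) (Fin n) ℂ}
    (hΦ : ∀ p, ∀ v ∈ Fil lev (h * En (tc N) (-l) * C) p, v ᵥ* Φ - (p : ℂ) • v ∈ Fil lev (h * En (tc N) (-l) * C) (p + 1))
    {𝔪 : Submodule ℚ (Matrix (Fin n) (Fin n) ℚ)} (hbr : ∀ X ∈ 𝔪, ∀ Y ∈ 𝔪, X * Y - Y * X ∈ 𝔪)
    (hmem : Φ ∈ Submodule.span ℂ (tc '' (𝔪 : Set (Matrix (Fin n) (Fin n) ℚ)))) :
    (finrank ℂ ((Submodule.span ℂ (𝒩 ∪ {tc N})).map (cj C)) -
        finrank ℂ ((Submodule.span ℂ (𝒩 ∪ {tc N})).map (cj C) ⊓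
          (Submodule.span ℂ (tc '' (𝔪 : Set (Matrix (Fin n) (Fin n) ℚ))) ⊔
            Stb (Fil lev (h * En (tc N) (-l) * C))) : Submodule ℂ _)) +
      finrank ℂ (T.map (cj C) ⊓
        (Submodule.span ℂ (tc '' (𝔪 : Set (Matrix (Fin n) (Fin n) ℚ))) ⊔
            Stb (Fil lev (h * En (tc N) (-l) * C))) : Submodule ℂ _) ≤ finrank ℂ T := by
  refine (dim_one _ _ _ fun Y hY => ?_).trans (finrank_cj C T)
  obtain ⟨Y', hY', rfl⟩ := hY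
  obtain ⟨Z, hZ, hS⟩ := hT Φ hΦ 𝔪 hbr hmem Y' hY'
  refine ⟨cj C Z, Submodule.mem_map_of_mem (hTT hZ), ?_⟩
  have h1 : cj C Y' + cj C Z = C⁻¹ * (Y' + Z) * C := by
    rw [← map_add]
    rfl
  rw [h1]
  exact hS

theorem one_mem_one [NeZero n] {C : Matrix (Fin n) (Fin n) ℂ} (hC : C.det ≠ 0)
    {T : Submodule ℂ (Matrix (Fin n) (Fin n) ℂ)} (hT : (1 : Matrix (Fin n) (Fin n) ℂ) ∈ T)
    (M : Submodule ℂ (Matrix (Fin n) (Fin n) ℂ)) (F : ℤ → Submodule ℂ (Fin n → ℂ)) :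
    1 ≤ finrank ℂ (T.map (cj C) ⊓ (M ⊔ Stb F) : Submodule ℂ _) := by
  have h1 := Pool.Agent.T2h17.TV.one_mem_inf (k := 1) hC hT (fun _ => M) (fun _ => F)
  rw [iInf_const] at h1
  exact h1

end Pool.Agent.T2h17.GH
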