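import Pool.Agent.T2h17.GH.Ind

/-!
# Relations over number fields of growing degree at single points hold on the orbits
-/

set_option autoImplicit false

open Filter PowerSeries AlgebraicIndependent Matrix

namespace Pool.Agent.T2h17.GH

open Pool.Agent.Y118.UL (U mk mk_eq mk_eq_zero mk_ne_zero mk_surj ev_ge exists_free)
open Pool.Agent.Y916.Al (Ht evc Pt)
open Pool.Agent.Y916.Af (mons Free Vc exists_Rn irrD_of_irr IrrD)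
open Pool.Agent.Y113 (GSys)
open Pool.Agent.T2h17.HW (Grp Orb orb_irr)
open Pool.Agent.T2h17.AH (row row_mul hv InvV e0 orb_row)

variable {r : ℕ}

theorem mem_orb {𝒩 : Set (Matrix (Fin r) (Fin r) ℂ)} {v y : Fin r → ℂ} :
    y ∈ Orb 𝒩 (row v) e0 ↔ ∃ g ∈ Grp 𝒩, y = v ᵥ* g := by
  constructor
  · rintro ⟨g, hg, rfl⟩
    exact ⟨g, hg, orb_row v g⟩
  · rintro ⟨g, hg, rfl⟩
    exact ⟨g, hg, (orb_row v g).symm⟩

/-- **the engine for sequences** -/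
theorem eng_seq (hlow : S_low) (hgrow : S_grow) (hdep : S_depf) {q : ℕ} {C : ℝ} {T : Polynomial ℤ}
    {h : Fin r → ℚ⟦X⟧} (hT : T ≠ 0) (hG : GSys q C T (fun i : Option (Fin r) => i.elim (1 : ℚ⟦X⟧) h))
    {D : ℕ → ℕ} {ξ : ℕ → ℂ} (hht : ∀ n, Ht (D n) (D n) (ξ n)) (hξ : ∀ n, (2 : ℝ) ^ ((D n + 2) ^ n) ≤ ‖ξ n‖)
    {Y : ℕ → Set (Fin r → ℂ)} (hirr : ∀ n, IrrD n (Y n)) (hzY : ∀ n, hv h (1 / ξ n) ∈ Y n)
    (hYV : ∀ n, ∀ y ∈ Y n, y ∈ Vc h (1 / ξ n)) (d : ℕ) (P : ℕ → MvPolynomial (Fin r) ℂ)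
    (hd : ∀ n, (P n).totalDegree ≤ d) (hP : ∀ m : Fin r →₀ ℕ, mk ℂ (fun n => (P n).coeff m) ∈ FF D)
    (hP0 : ∀ n, MvPolynomial.eval (hv h (1 / ξ n)) (P n) = 0) :
    ∀ᶠ n in (hyperfilter ℕ : Filter ℕ), ∀ y ∈ Y n, MvPolynomial.eval y (P n) = 0 := by
  classical
  obtain ⟨I, hI1, hI2⟩ := exists_free h
  obtain ⟨R, hR0, hR⟩ := exists_Rn hI2
  have hξ2 : ∀ n, (2 : ℝ) ≤ ‖ξ n‖ := by
    intro n
    refine le_trans ?_ (hξ n)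
    calc (2 : ℝ) = 2 ^ 1 := (pow_one _).symm
      _ ≤ _ := pow_le_pow_right₀ (by norm_num) (Nat.one_le_pow _ _ (by omega))
  have hx : mk ℂ (fun n => 1 / ξ n) ∈ FF D := by
    choose K₀ hK1 hK2 hK3 hK4 using fun n => exists_fld (hht n) (hξ2 n)
    refine mk_mem_FF ⟨1, K₀, fun n => ⟨hK1 n, by rw [pow_one]; exact hK2 n⟩, fun n => ?_⟩
    show 1 / ξ n ∈ K₀ n
    rw [one_div]
    exact (K₀ n).inv_mem (hK3 n)
  have hind := ind hlow hgrow hT hG hht hξ hx (fun n => hYV n _ (hzY n)) (I := I) ⟨hI1, hI2⟩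
  exact hdep (FF D) (Fin r) I (Subtype.val : I → Fin r) R hR0 (fun n => 1 / ξ n) hx
    (fun c hc => ev_ne hξ hc) Y hirr (fun n => hv h (1 / ξ n)) hzY (fun n y hy s => hR _ _ (hYV n y hy) s)
    hind d P hd hP hP0

/-- **the engine for single points** -/
theorem eng (hlow : S_low) (hgrow : S_grow) (hdep : S_depf) {q : ℕ} {C : ℝ} {T : Polynomial ℤ}
    {h : Fin r → ℚ⟦X⟧} (hT : T ≠ 0) (hG : GSys q C T (fun i : Option (Fin r) => i.elim (1 : ℚ⟦X⟧) h))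
    {Y : ℂ → Set (Fin r → ℂ)} (hirr : ∀ z d, IrrD d (Y z)) (hzY : ∀ z, hv h z ∈ Y z) {ρ : ℝ} (hρ : 0 < ρ)
    (hYV : ∀ z, z ≠ 0 → ‖z‖ < ρ → ∀ y ∈ Y z, y ∈ Vc h z) (d c : ℕ) :
    ∃ t₀ : ℕ, ∀ (D : ℕ) (ξ : ℂ), (2 : ℝ) ^ ((D + 2) ^ t₀) ≤ ‖ξ‖ → Ht D D ξ →
      ∀ K : IntermediateField ℚ ℂ, FiniteDimensional ℚ K → Module.finrank ℚ K ≤ (D + 2) ^ c →
      ∀ P : MvPolynomial (Fin r) ℂ, P.totalDegree ≤ d → (∀ m, P.coeff m ∈ K) →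
      MvPolynomial.eval (hv h (1 / ξ)) P = 0 → ∀ y ∈ Y (1 / ξ), MvPolynomial.eval y P = 0 := by
  classical
  obtain ⟨n₀, hn₀⟩ := exists_nat_gt (1 / ρ)
  by_contra hcon
  push Not at hcon
  choose D ξ hξ hht K hfd hfr P hPd hPK hP0 y hy hne using fun n => hcon (n + n₀)
  have hξ' : ∀ n, (2 : ℝ) ^ ((D n + 2) ^ n) ≤ ‖ξ n‖ := fun n =>
    (pow_le_pow_right₀ (by norm_num) (Nat.pow_le_pow_right (by omega) (by omega))).trans (hξ n)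
  have hξρ : ∀ n, 1 / ξ n ≠ 0 ∧ ‖1 / ξ n‖ < ρ := by
    intro n
    have h1 : (n : ℝ) + n₀ + 1 ≤ ‖ξ n‖ := by
      refine le_trans ?_ (hξ n)
      have h1 : n + n₀ + 1 ≤ 2 ^ (n + n₀) := Nat.lt_two_pow_self
      have h2 : 2 ^ (n + n₀) ≤ 2 ^ ((D n + 2) ^ (n + n₀)) := Nat.pow_le_pow_right (by norm_num)
        (Nat.lt_two_pow_self.le.trans (Nat.pow_le_pow_left (by omega) (n + n₀)))
      exact_mod_cast h1.trans h2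
    have h3 : (0 : ℝ) ≤ n := Nat.cast_nonneg n
    have h4 : (0 : ℝ) < n₀ := (one_div_pos.2 hρ).trans hn₀
    have h5 : 0 < ‖ξ n‖ := by linarith
    refine ⟨one_div_ne_zero (norm_pos_iff.1 h5), ?_⟩
    rw [norm_div, norm_one, div_lt_comm₀ h5 hρ]
    linarith
  have h1 := eng_seq hlow hgrow hdep hT hG hht hξ' (Y := fun n => Y (1 / ξ n)) (fun n => hirr _ n)
    (fun n => hzY _) (fun n => hYV _ (hξρ n).1 (hξρ n).2) d P hPd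
    (fun m => mk_mem_FF ⟨c, K, fun n => ⟨hfd n, hfr n⟩, fun n => hPK n m⟩) hP0
  obtain ⟨n, hn⟩ := h1.exists
  exact hne n (hn _ (hy n))

/-- the engine for the orbits of a group -/
theorem eng_grp (hlow : S_low) (hgrow : S_grow) (hdep : S_depf) {q : ℕ} {C : ℝ} {T : Polynomial ℤ}
    {h : Fin r → ℚ⟦X⟧} (hT : T ≠ 0) (hG : GSys q C T (fun i : Option (Fin r) => i.elim (1 : ℚ⟦X⟧) h))
    {𝒩 : Set (Matrix (Fin r) (Fin r) ℂ)} {ρ : ℝ} (hρ : 0 < ρ) (hinv : InvV h 𝒩 ρ) (d c : ℕ) :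
    ∃ t₀ : ℕ, ∀ (D : ℕ) (ξ : ℂ), (2 : ℝ) ^ ((D + 2) ^ t₀) ≤ ‖ξ‖ → Ht D D ξ →
      ∀ K : IntermediateField ℚ ℂ, FiniteDimensional ℚ K → Module.finrank ℚ K ≤ (D + 2) ^ c →
      ∀ P : MvPolynomial (Fin r) ℂ, P.totalDegree ≤ d → (∀ m, P.coeff m ∈ K) →
      MvPolynomial.eval (hv h (1 / ξ)) P = 0 → ∀ g ∈ Grp 𝒩, MvPolynomial.eval (hv h (1 / ξ) ᵥ* g) P = 0 := by
  obtain ⟨t₀, ht₀⟩ := eng hlow hgrow hdep hT hG (Y := fun z => Orb 𝒩 (row (hv h z)) e0)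
    (fun z d => irrD_of_irr (orb_irr 𝒩 _ _) d) (fun z => mem_orb.2 ⟨1, (Grp 𝒩).one_mem, by rw [vecMul_one]⟩) hρ
    (fun z _ hz y hy R hR => by
      obtain ⟨g, hg, rfl⟩ := mem_orb.1 hy
      exact hinv R hR z hz g hg) d c
  exact ⟨t₀, fun D ξ hξ hht K hfd hfr P hPd hPK hP0 g hg =>
    ht₀ D ξ hξ hht K hfd hfr P hPd hPK hP0 _ (mem_orb.2 ⟨g, hg, rfl⟩)⟩

end Pool.Agent.T2h17.GH
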