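import Pool.Agent.T2h17.GH.Fld
import Pool.Agent.T2h17.AH.Core
import Pool.Agent.Y421.HG.Der

/-!
# Derivations of the ultrapower which annihilate the algebraic numbers of polynomially bounded degree
-/

set_option autoImplicit false
set_option maxHeartbeats 400000

open Matrix Filter

namespace Pool.Agent.T2h17.GH

open Pool.Agent.Y118.UL (U mk mk_eq mk_eq_zero mk_ne_zero mk_surj ev_ge qc_mk algebraMap_eq eval_mk tdm)
open Pool.Agent.T2h17.HW (En Grp En_zero En_deriv)
open Pool.Agent.T2h17.AH (row row_mul)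

/-- the chain rule -/
theorem chainC {τ : Type} [Fintype τ] (P : MvPolynomial τ ℂ) {x : ℂ → τ → ℂ} {x' : τ → ℂ} {s : ℂ}
    (hx : ∀ i, HasDerivAt (fun s => x s i) (x' i) s) :
    HasDerivAt (fun s => MvPolynomial.eval (x s) P)
      (∑ i, MvPolynomial.eval (x s) (MvPolynomial.pderiv i P) * x' i) s := by
  classical
  induction P using MvPolynomial.induction_on with
  | C a =>
    simp only [MvPolynomial.eval_C, MvPolynomial.pderiv_C, map_zero, zero_mul,
      Finset.sum_const_zero]
    exact hasDerivAt_const _ _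
  | add p q hp hq =>
    simp only [map_add, add_mul, Finset.sum_add_distrib]
    exact hp.add hq
  | mul_X p i hp =>
    simp only [map_mul, MvPolynomial.eval_X]
    have h1 := hp.mul (hx i)
    refine h1.congr_deriv ?_
    simp only [MvPolynomial.pderiv_mul, map_add, map_mul, MvPolynomial.eval_X, add_mul,
      Finset.sum_add_distrib, MvPolynomial.pderiv_X]
    congr 1
    · rw [Finset.sum_mul]
      exact Finset.sum_congr rfl fun j _ => by ring
    · rw [Finset.sum_eq_single i]
      · simp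
      · intro j _ hj
        rw [Pi.single_eq_of_ne (Ne.symm hj)]
        simp
      · intro h
        exact absurd (Finset.mem_univ _) h

/-- **tangent directions of the orbits** -/
theorem tan_c {r : ℕ} {𝒩 : Set (Matrix (Fin r) (Fin r) ℂ)} (hn : ∀ X ∈ 𝒩, X ^ r = 0) {v : Fin r → ℂ}
    {P : MvPolynomial (Fin r) ℂ} (hP : ∀ g ∈ Grp 𝒩, MvPolynomial.eval (v ᵥ* g) P = 0)
    {V : Matrix (Fin r) (Fin r) ℂ} (hV : V ∈ Submodule.span ℂ 𝒩) :
    ∑ i, MvPolynomial.eval v (MvPolynomial.pderiv i P) * (v ᵥ* V) i = 0 := by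
  induction hV using Submodule.span_induction with
  | mem X hX =>
    have hx : ∀ i, HasDerivAt (fun s : ℂ => (v ᵥ* En X s) i) ((v ᵥ* X) i) 0 := by
      intro i
      have h1 := En_deriv (hn X hX) (row v) ⟨0, i.pos⟩ i
      have h2 : ∀ g : Matrix (Fin r) (Fin r) ℂ, (row v * g) ⟨0, i.pos⟩ i = (v ᵥ* g) i := by
        intro g
        rw [row_mul]
        show (if ((⟨0, i.pos⟩ : Fin r) : ℕ) = 0 then (v ᵥ* g) i else 0) = _
        rw [if_pos rfl]
      simp only [h2] at h1
      exact h1
    have h1 := chainC P hx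
    have h2 : (fun s : ℂ => MvPolynomial.eval (v ᵥ* En X s) P) = fun _ => 0 := by
      funext s
      exact hP _ (Submonoid.subset_closure ⟨X, hX, s, rfl⟩)
    have h3 : (v ᵥ* En X (0 : ℂ)) = v := by rw [En_zero, vecMul_one]
    rw [h2, h3] at h1
    exact h1.unique (hasDerivAt_const _ _)
  | zero =>
    refine Finset.sum_eq_zero fun i _ => ?_
    rw [vecMul_zero, Pi.zero_apply, mul_zero]
  | add A B _ _ hA hB =>
    simp only [vecMul_add, Pi.add_apply, mul_add, Finset.sum_add_distrib]
    rw [hA, hB, add_zero]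
  | smul c A _ hA =>
    have h1 : ∑ i, MvPolynomial.eval v (MvPolynomial.pderiv i P) * (v ᵥ* (c • A)) i =
        c * ∑ i, MvPolynomial.eval v (MvPolynomial.pderiv i P) * (v ᵥ* A) i := by
      rw [Finset.mul_sum]
      refine Finset.sum_congr rfl fun i _ => ?_
      rw [vecMul_smul, Pi.smul_apply, smul_eq_mul]
      ring
    rw [h1, hA, mul_zero]

/-- rational germs -/
theorem algebraMap_mem_FF (D : ℕ → ℕ) (a : U ℚ) : algebraMap (U ℚ) (U ℂ) a ∈ FF D := by
  obtain ⟨q, rfl⟩ := mk_surj a
  rw [algebraMap_eq, qc_mk]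
  exact mk_mem_FF ⟨0, _, BF.bot D, fun n => (⊥ : IntermediateField ℚ ℂ).algebraMap_mem (q n)⟩

/-- algebraic constants -/
theorem const_mem_FF (D : ℕ → ℕ) {c : ℂ} (hc : IsAlgebraic ℚ c) : mk ℂ (fun _ => c) ∈ FF D := by
  have := IntermediateField.adjoin.finiteDimensional hc.isIntegral
  refine mk_mem_FF ⟨Module.finrank ℚ (IntermediateField.adjoin ℚ {c}), fun _ => IntermediateField.adjoin ℚ {c},
    fun n => ⟨this, ?_⟩, fun _ => IntermediateField.mem_adjoin_simple_self ℚ c⟩
  exact Nat.lt_two_pow_self.le.trans (Nat.pow_le_pow_left (by omega) _)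

/-- **derivations** -/
theorem exists_derF {τ : Type} [Fintype τ] (D : ℕ → ℕ) (x v : ℕ → τ → ℂ)
    (h : ∀ n, ∀ K : IntermediateField ℚ ℂ, FiniteDimensional ℚ K → Module.finrank ℚ K ≤ (D n + 2) ^ n →
      ∀ P : MvPolynomial τ ℂ, P.totalDegree ≤ n → (∀ m, P.coeff m ∈ K) → MvPolynomial.eval (x n) P = 0 →
      ∑ i, MvPolynomial.eval (x n) (MvPolynomial.pderiv i P) * v n i = 0) :
    ∃ δ : Derivation (U ℚ) (U ℂ) (U ℂ), (∀ a ∈ FF D, δ a = 0) ∧
      ∀ i, δ (mk ℂ fun n => x n i) = mk ℂ fun n => v n i := by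
  classical
  obtain ⟨δ, hδ⟩ := Pool.Agent.Y421.HG.t_DER (FF D) (U ℂ) τ (fun i => mk ℂ fun n => x n i)
    (fun i => mk ℂ fun n => v n i) (by
    intro P hP
    obtain ⟨c, K, y, hK, hy0, hy⟩ := FF_common D (P.support.image fun m => P.coeff m)
    set Q : MvPolynomial τ (ℕ → ℂ) := ∑ m ∈ P.support, MvPolynomial.monomial m (y (P.coeff m)) with hQ
    have hQm : MvPolynomial.map (mk ℂ) Q = MvPolynomial.map (algebraMap (FF D) (U ℂ)) P := by
      conv_rhs => rw [MvPolynomial.as_sum P]
      rw [hQ, map_sum, map_sum]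
      refine Finset.sum_congr rfl fun m hm => ?_
      rw [MvPolynomial.map_monomial, MvPolynomial.map_monomial]
      congr 1
      exact (hy _ (Finset.mem_image_of_mem _ hm)).1
    have hQc : ∀ n m, (MvPolynomial.map (Pi.evalRingHom (fun _ => ℂ) n) Q).coeff m ∈ K n := by
      intro n m
      rw [MvPolynomial.coeff_map, hQ, MvPolynomial.coeff_sum, map_sum]
      refine sum_mem fun m' hm' => ?_
      rw [MvPolynomial.coeff_monomial]
      split_ifs
      · exact (hy _ (Finset.mem_image_of_mem _ hm')).2 n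
      · rw [map_zero]
        exact zero_mem _
    have hev : ∀ R : MvPolynomial τ (FF D), ∀ R' : MvPolynomial τ (ℕ → ℂ),
        MvPolynomial.map (mk ℂ) R' = MvPolynomial.map (algebraMap (FF D) (U ℂ)) R →
        MvPolynomial.aeval (fun i => mk ℂ fun n => x n i) R =
          mk ℂ fun n => MvPolynomial.eval (x n) (MvPolynomial.map (Pi.evalRingHom (fun _ => ℂ) n) R') := by
      intro R R' hR
      rw [← eval_mk R' (fun i n => x n i), hR, MvPolynomial.eval_map]
      rfl
    have hP' := hP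
    rw [hev P Q hQm, mk_eq_zero] at hP'
    have h1 : ∀ i, MvPolynomial.aeval (fun i => mk ℂ fun n => x n i) (MvPolynomial.pderiv i P) *
        mk ℂ (fun n => v n i) = mk ℂ (fun n => MvPolynomial.eval (x n) (MvPolynomial.pderiv i
          (MvPolynomial.map (Pi.evalRingHom (fun _ => ℂ) n) Q)) * v n i) := by
      intro i
      rw [hev (MvPolynomial.pderiv i P) (MvPolynomial.pderiv i Q) (by
        rw [← MvPolynomial.pderiv_map, hQm, MvPolynomial.pderiv_map]), ← map_mul]
      congr 1
      funext n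
      rw [Pi.mul_apply, MvPolynomial.pderiv_map]
    simp only [h1]
    rw [← map_sum, mk_eq_zero]
    filter_upwards [hP', ev_ge (Q.totalDegree + c)] with n hn1 hn2
    rw [Finset.sum_apply]
    refine h n (K n) (hK n).1 ((hK n).2.trans (Nat.pow_le_pow_right (by omega) (by omega))) _
      ((tdm _ _).trans (by omega)) (hQc n) hn1)
  have h0 : ∀ a ∈ FF D, δ a = 0 := fun a ha => δ.map_algebraMap (⟨a, ha⟩ : FF D)
  refine ⟨Derivation.mk'
    { toFun := fun x => δ x
      map_add' := fun x y => map_add δ x y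
      map_smul' := fun a x => ?_ } fun a b => ?_, h0, hδ⟩
  · show δ (a • x) = a • δ x
    rw [Algebra.smul_def, Algebra.smul_def, δ.leibniz, h0 _ (algebraMap_mem_FF D a), smul_zero, add_zero,
      smul_eq_mul]
  · exact δ.leibniz a b

end Pool.Agent.T2h17.GH
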