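import Pool.Agent.T2h17.GH.Stm

/-!
# The field of the germs of the sequences of algebraic numbers of polynomially bounded degree
-/

set_option autoImplicit false

open Filter

namespace Pool.Agent.T2h17.GH

open Pool.Agent.Y118.UL (U mk mk_eq mk_eq_zero mk_ne_zero mk_surj)

/-- number fields of polynomially bounded degree -/
def BF (D : ℕ → ℕ) (c : ℕ) (K : ℕ → IntermediateField ℚ ℂ) : Prop :=
  ∀ n, FiniteDimensional ℚ (K n) ∧ Module.finrank ℚ (K n) ≤ (D n + 2) ^ c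

theorem BF.sup {D : ℕ → ℕ} {c c' : ℕ} {K K' : ℕ → IntermediateField ℚ ℂ} (h : BF D c K) (h' : BF D c' K') :
    BF D (c + c') fun n => K n ⊔ K' n := by
  intro n
  obtain ⟨h1, h2⟩ := h n
  obtain ⟨h3, h4⟩ := h' n
  refine ⟨IntermediateField.finiteDimensional_sup _ _, (IntermediateField.finrank_sup_le _ _).trans ?_⟩
  rw [pow_add]
  exact Nat.mul_le_mul h2 h4

theorem BF.bot (D : ℕ → ℕ) : BF D 0 fun _ => ⊥ := fun n => ⟨inferInstance, by
  rw [IntermediateField.finrank_bot, pow_zero]⟩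

/-- sequences of algebraic numbers of polynomially bounded degree -/
def SF (D : ℕ → ℕ) (x : ℕ → ℂ) : Prop := ∃ (c : ℕ) (K : ℕ → IntermediateField ℚ ℂ), BF D c K ∧ ∀ n, x n ∈ K n

/-- the germs of these sequences -/
noncomputable def FF (D : ℕ → ℕ) : Subfield (U ℂ) where
  carrier := {a | ∃ x, SF D x ∧ mk ℂ x = a}
  mul_mem' := by
    rintro _ _ ⟨x, ⟨c, K, hK, hx⟩, rfl⟩ ⟨y, ⟨c', K', hK', hy⟩, rfl⟩
    refine ⟨x * y, ⟨c + c', _, hK.sup hK', fun n => ?_⟩, map_mul _ _ _⟩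
    exact (K n ⊔ K' n).mul_mem ((le_sup_left : K n ≤ _) (hx n)) ((le_sup_right : K' n ≤ _) (hy n))
  one_mem' := ⟨1, ⟨0, _, BF.bot D, fun n => one_mem _⟩, map_one _⟩
  add_mem' := by
    rintro _ _ ⟨x, ⟨c, K, hK, hx⟩, rfl⟩ ⟨y, ⟨c', K', hK', hy⟩, rfl⟩
    refine ⟨x + y, ⟨c + c', _, hK.sup hK', fun n => ?_⟩, map_add _ _ _⟩
    exact (K n ⊔ K' n).add_mem ((le_sup_left : K n ≤ _) (hx n)) ((le_sup_right : K' n ≤ _) (hy n))
  zero_mem' := ⟨0, ⟨0, _, BF.bot D, fun n => zero_mem _⟩, map_zero _⟩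
  neg_mem' := by
    rintro _ ⟨x, ⟨c, K, hK, hx⟩, rfl⟩
    exact ⟨-x, ⟨c, K, hK, fun n => (K n).neg_mem (hx n)⟩, map_neg _ _⟩
  inv_mem' := by
    rintro _ ⟨x, ⟨c, K, hK, hx⟩, rfl⟩
    refine ⟨fun n => (x n)⁻¹, ⟨c, K, hK, fun n => (K n).inv_mem (hx n)⟩, ?_⟩
    by_cases h0 : mk ℂ x = 0
    · rw [h0, inv_zero, mk_eq_zero]
      rw [mk_eq_zero] at h0
      exact h0.mono fun n hn => by rw [hn, inv_zero]
    · refine (mul_left_cancel₀ h0 ?_)
      rw [mul_inv_cancel₀ h0, ← map_mul, ← map_one (mk ℂ), mk_eq]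
      exact (mk_ne_zero.1 h0).mono fun n hn => mul_inv_cancel₀ hn

theorem mem_FF {D : ℕ → ℕ} {a : U ℂ} : a ∈ FF D ↔ ∃ x, SF D x ∧ mk ℂ x = a := Iff.rfl

theorem mk_mem_FF {D : ℕ → ℕ} {x : ℕ → ℂ} (h : SF D x) : mk ℂ x ∈ FF D := ⟨x, h, rfl⟩

/-- common representatives of finitely many germs -/
theorem FF_common (D : ℕ → ℕ) (S : Finset (FF D)) : ∃ (c : ℕ) (K : ℕ → IntermediateField ℚ ℂ)
    (x : FF D → ℕ → ℂ), BF D c K ∧ x 0 = 0 ∧ ∀ a ∈ S, mk ℂ (x a) = (a : U ℂ) ∧ ∀ n, x a n ∈ K n := by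
  classical
  have h1 : ∀ a : FF D, ∃ x, SF D x ∧ mk ℂ x = (a : U ℂ) := fun a => a.2
  choose y hy hy' using h1
  have h2 : ∃ (c : ℕ) (K : ℕ → IntermediateField ℚ ℂ), BF D c K ∧ ∀ a ∈ S, ∀ n, y a n ∈ K n := by
    induction S using Finset.induction_on with
    | empty => exact ⟨0, _, BF.bot D, fun a ha => absurd ha (Finset.notMem_empty _)⟩
    | insert b S hb ih =>
      obtain ⟨c, K, hK, h3⟩ := ih
      obtain ⟨c', K', hK', h4⟩ := hy b
      refine ⟨c + c', _, hK.sup hK', fun a ha n => ?_⟩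
      rcases Finset.mem_insert.1 ha with rfl | ha
      · exact (le_sup_right : K' n ≤ _) (h4 n)
      · exact (le_sup_left : K n ≤ _) (h3 a ha n)
  obtain ⟨c, K, hK, h3⟩ := h2
  refine ⟨c, K, fun a => if a = 0 then 0 else y a, hK, if_pos rfl, fun a ha => ?_⟩
  by_cases h0 : a = 0
  · simp only [if_pos h0]
    refine ⟨?_, fun n => zero_mem _⟩
    rw [h0, map_zero]
    rfl
  · simp only [if_neg h0]
    exact ⟨hy' a, h3 a ha⟩

end Pool.Agent.T2h17.GH
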