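import Pool.Agent.T2h17.GH.Eng
import Pool.Agent.T2h17.TV.Eng

/-!
# Generic logarithms: relations without logarithms are enough at single points
-/

set_option autoImplicit false

open PowerSeries Matrix

namespace Pool.Agent.T2h17.GH

open Pool.Agent.T2h17.HW (Grp Gen Ix pt Orb orb_irr InvR inv_vc)
open Pool.Agent.T2h17.CM (hh Hz)
open Pool.Agent.T2h17.TV (deg_aeval)
open Pool.Agent.Y916.Al (Ht evc)
open Pool.Agent.Y916.Af (irrD_of_irr)
open Pool.Agent.Y113 (GSys)

variable {n : ℕ}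

/-- the ring of the polynomials in the numbers `h` -/
noncomputable abbrev Rg {ι : Type} (h : ι → ℂ) : Subalgebra ℚ ℂ :=
  (MvPolynomial.aeval h : MvPolynomial ι ℚ →ₐ[ℚ] ℂ).range

/-- a transcendental number -/
theorem exists_tr {ι : Type} [Finite ι] (h : ι → ℂ) : ∃ t : ℂ, Transcendental (Rg h) t := by
  have hc : Countable (MvPolynomial ι ℚ) := by
    have := Cardinal.mk_le_aleph0_iff.1 (MvPolynomial.cardinalMk_le_max (σ := ι) (R := ℚ) |>.trans (by simp))
    exact this
  have h1 : Countable (Rg h) := by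
    have h2 : (Set.range (MvPolynomial.aeval h : MvPolynomial ι ℚ →ₐ[ℚ] ℂ)).Countable := Set.countable_range _
    exact h2.to_subtype
  have h2 : {x : ℂ | IsAlgebraic (Rg h) x}.Countable := Algebraic.countable (Rg h) ℂ
  by_contra hcon
  push Not at hcon
  have h3 : {x : ℂ | IsAlgebraic (Rg h) x} = Set.univ := by
    ext x
    exact ⟨fun _ => trivial, fun _ => not_not.1 (hcon x)⟩
  rw [h3] at h2
  exact not_countable_complex h2

/-- the coordinates of a point with one logarithm, in an algebra -/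
noncomputable def co {A : Type} [CommRing A] [Algebra ℚ A] (h : Matrix (Fin n) (Fin n) A) (l : A) : Ix n 1 → A :=
  Sum.elim (fun a => algebraMap ℚ A ((1 : Matrix (Fin n) (Fin n) ℚ) a.1 a.2)) fun b => b.2.elim l fun a => h a.1 a.2

theorem co_map {A B : Type} [CommRing A] [Algebra ℚ A] [CommRing B] [Algebra ℚ B] (f : A →ₐ[ℚ] B)
    (h : Matrix (Fin n) (Fin n) A) (l : A) (P : MvPolynomial (Ix n 1) ℚ) :
    f (MvPolynomial.aeval (co h l) P) = MvPolynomial.aeval (co (h.map f) (f l)) P := by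
  have h1 : f.comp (MvPolynomial.aeval (co h l)) = MvPolynomial.aeval (co (h.map f) (f l)) := by
    refine MvPolynomial.algHom_ext fun i => ?_
    rw [AlgHom.comp_apply, MvPolynomial.aeval_X, MvPolynomial.aeval_X]
    rcases i with a | ⟨j, _ | a⟩
    · exact f.commutes _
    · rfl
    · rfl
  exact DFunLike.congr_fun h1 P

theorem co_pt (h : Matrix (Fin n) (Fin n) ℂ) (l : ℂ) (P : MvPolynomial (Ix n 1) ℚ) :
    MvPolynomial.aeval (co h l) P = MvPolynomial.aeval (pt 1 (fun _ => h) (fun _ => l)) P := by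
  have h1 : co h l = pt 1 (fun _ => h) (fun _ => l) := by
    funext i
    rcases i with a | ⟨j, _ | a⟩
    · show algebraMap ℚ ℂ ((1 : Matrix (Fin n) (Fin n) ℚ) a.1 a.2) = (1 : Matrix (Fin n) (Fin n) ℂ) a.1 a.2
      rw [Matrix.one_apply, Matrix.one_apply]
      split_ifs <;> simp
    · rfl
    · rfl
  rw [h1]

/-- **relations with a generic logarithm** -/
theorem gen_of_rel {𝒩 : Set (Matrix (Fin n) (Fin n) ℂ)} {h : Matrix (Fin n) (Fin n) ℂ} {d : ℕ}
    (hrel : ∀ P : MvPolynomial (Fin n × Fin n) ℚ, P.totalDegree ≤ d →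
      MvPolynomial.aeval (fun a => h a.1 a.2) P = 0 → ∀ g ∈ Grp 𝒩,
      MvPolynomial.aeval (fun a => (h * g) a.1 a.2) P = 0) {t : ℂ}
    (ht : Transcendental (Rg fun a : Fin n × Fin n => h a.1 a.2) t) :
    Gen 𝒩 d 1 (fun _ : Fin 1 => h) (fun _ => t) := by
  intro P hPd hP0 g hg t'
  set Rh := Rg fun a : Fin n × Fin n => h a.1 a.2 with hRh
  have hmem : ∀ a : Fin n × Fin n, h a.1 a.2 ∈ Rh := fun a => ⟨MvPolynomial.X a, MvPolynomial.aeval_X _ _⟩
  set hR : Matrix (Fin n) (Fin n) Rh := Matrix.of fun i j => ⟨h i j, hmem (i, j)⟩ with hhR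
  -- the polynomial in the logarithm
  set Q : Polynomial Rh := MvPolynomial.aeval (co (hR.map Polynomial.C) Polynomial.X) P with hQ
  have hQe : ∀ s : ℂ, Polynomial.aeval s Q = MvPolynomial.aeval (pt 1 (fun _ => h) (fun _ => s)) P := by
    intro s
    have h1 := co_map ((Polynomial.aeval s : Polynomial Rh →ₐ[Rh] ℂ).restrictScalars ℚ) (hR.map Polynomial.C)
      Polynomial.X P
    rw [← co_pt]
    refine h1.trans ?_
    congr 2
    congr 1
    · ext i j
      show Polynomial.aeval s (Polynomial.C (hR i j)) = h i j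
      rw [Polynomial.aeval_C]
      rfl
    · show Polynomial.aeval s Polynomial.X = s
      rw [Polynomial.aeval_X]
  have hQ0 : Q = 0 := by
    by_contra hne
    exact ht ⟨Q, hne, by rw [hQe]; exact hP0⟩
  -- rational values of the logarithm
  have hrat : ∀ s : ℚ, MvPolynomial.aeval (pt 1 (fun _ => h * g 0) (fun _ => (s : ℂ))) P = 0 := by
    intro s
    set Ps : MvPolynomial (Fin n × Fin n) ℚ := MvPolynomial.aeval
      (co (Matrix.of fun i j => MvPolynomial.X (i, j)) (MvPolynomial.C s)) P with hPs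
    have hval : ∀ y : Matrix (Fin n) (Fin n) ℂ, MvPolynomial.aeval (fun a : Fin n × Fin n => y a.1 a.2) Ps =
        MvPolynomial.aeval (pt 1 (fun _ => y) (fun _ => (s : ℂ))) P := by
      intro y
      rw [hPs, co_map, ← co_pt]
      congr 2
      congr 1
      · ext i j
        show MvPolynomial.aeval (fun a : Fin n × Fin n => y a.1 a.2) (MvPolynomial.X (i, j)) = y i j
        rw [MvPolynomial.aeval_X]
      · rw [MvPolynomial.aeval_C]
        rfl
    have hdeg : Ps.totalDegree ≤ d := by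
      refine (deg_aeval _ (fun i => ?_) P).trans hPd
      rcases i with a | ⟨j, _ | a⟩
      · show (algebraMap ℚ (MvPolynomial (Fin n × Fin n) ℚ) ((1 : Matrix (Fin n) (Fin n) ℚ) a.1 a.2)).totalDegree ≤ 1
        rw [MvPolynomial.algebraMap_eq, MvPolynomial.totalDegree_C]
        omega
      · show (MvPolynomial.C s : MvPolynomial (Fin n × Fin n) ℚ).totalDegree ≤ 1
        rw [MvPolynomial.totalDegree_C]
        omega
      · exact (MvPolynomial.totalDegree_X _).le
    have h1 := hrel Ps hdeg (by rw [hval, ← hQe, hQ0, map_zero]) (g 0) (hg 0)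
    rw [hval] at h1
    exact h1
  -- all values of the logarithm
  set Q' : Polynomial ℂ := MvPolynomial.aeval (co ((h * g 0).map Polynomial.C) Polynomial.X) P with hQ'
  have hQ'e : ∀ s : ℂ, Polynomial.eval s Q' = MvPolynomial.aeval (pt 1 (fun _ => h * g 0) (fun _ => s)) P := by
    intro s
    have h1 := co_map ((Polynomial.aeval s : Polynomial ℂ →ₐ[ℂ] ℂ).restrictScalars ℚ) ((h * g 0).map Polynomial.C)
      Polynomial.X P
    rw [← co_pt]
    refine Eq.trans (b := Polynomial.aeval s Q') (by rw [Polynomial.coe_aeval_eq_eval]) (h1.trans ?_)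
    congr 2
    congr 1
    · ext i j
      show Polynomial.aeval s (Polynomial.C ((h * g 0) i j)) = (h * g 0) i j
      rw [Polynomial.aeval_C]
      rfl
    · show Polynomial.aeval s Polynomial.X = s
      rw [Polynomial.aeval_X]
  have hQ'0 : Q' = 0 := by
    refine Polynomial.eq_zero_of_infinite_isRoot Q' (Set.infinite_of_injective_forall_mem
      (f := fun s : ℚ => (s : ℂ)) Rat.cast_injective fun s => ?_)
    show Polynomial.eval ((s : ℚ) : ℂ) Q' = 0
    rw [hQ'e]
    exact hrat s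
  have h1 := hQ'e (t' 0)
  rw [hQ'0, Polynomial.eval_zero] at h1
  have h2 : (fun j => h * g j) = fun _ : Fin 1 => h * g 0 := by
    funext j
    rw [Subsingleton.elim j 0]
  have h3 : t' = fun _ : Fin 1 => t' 0 := by
    funext j
    rw [Subsingleton.elim j 0]
  rw [h2, h3]
  exact h1.symm

/-- **generic relations at single points of growing degree** -/
theorem pt_gen (hlow : S_low) (hgrow : S_grow) (hdep : S_depf) {H : Matrix (Fin n) (Fin n) ℚ⟦X⟧} {q : ℕ} {C : ℝ}
    {T : Polynomial ℤ} (hT : T ≠ 0) (hG : GSys q C T (fun i : Option (Fin (n * n)) => i.elim (1 : ℚ⟦X⟧) (hh H)))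
    {𝒩 : Set (Matrix (Fin n) (Fin n) ℂ)} {ρ : ℝ} (hρ : 0 < ρ) (hinv : InvR H 𝒩 ρ) (d : ℕ) :
    ∃ t₀ : ℕ, ∀ (D : ℕ) (ξ : ℂ), (2 : ℝ) ^ ((D + 2) ^ t₀) ≤ ‖ξ‖ → Ht D D ξ →
      ∃ t : ℂ, Gen 𝒩 d 1 (fun _ : Fin 1 => Hz H (1 / ξ)) (fun _ => t) := by
  obtain ⟨t₀, ht₀⟩ := eng hlow hgrow hdep hT hG
    (Y := fun z => Orb 𝒩 (Hz H z) (finProdFinEquiv.symm : Fin (n * n) → Fin n × Fin n))
    (fun z d => irrD_of_irr (orb_irr 𝒩 _ _) d)
    (fun z => ⟨1, (Grp 𝒩).one_mem, by rw [Matrix.mul_one]; rfl⟩) hρ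
    (fun z _ hz y hy => by
      obtain ⟨g, hg, rfl⟩ := hy
      exact inv_vc hinv hz hg) d 0
  refine ⟨t₀, fun D ξ hξ hht => ?_⟩
  obtain ⟨t, ht⟩ := exists_tr fun a : Fin n × Fin n => (Hz H (1 / ξ)) a.1 a.2
  refine ⟨t, gen_of_rel (fun P hPd hP0 g hg => ?_) ht⟩
  have hfr : Module.finrank ℚ (⊥ : IntermediateField ℚ ℂ) ≤ (D + 2) ^ 0 := by
    rw [IntermediateField.finrank_bot, pow_zero]
  set P' : MvPolynomial (Fin (n * n)) ℂ := MvPolynomial.rename finProdFinEquiv (MvPolynomial.map (algebraMap ℚ ℂ) P)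
    with hP'
  have hval : ∀ y : Matrix (Fin n) (Fin n) ℂ, MvPolynomial.eval (fun i : Fin (n * n) =>
      y (finProdFinEquiv.symm i).1 (finProdFinEquiv.symm i).2) P' =
      MvPolynomial.aeval (fun a : Fin n × Fin n => y a.1 a.2) P := by
    intro y
    rw [hP', MvPolynomial.eval_rename, MvPolynomial.eval_map]
    have h1 : ((fun i : Fin (n * n) => y (finProdFinEquiv.symm i).1 (finProdFinEquiv.symm i).2) ∘ finProdFinEquiv) =
        fun a : Fin n × Fin n => y a.1 a.2 := by
      funext a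
      show y (finProdFinEquiv.symm (finProdFinEquiv a)).1 (finProdFinEquiv.symm (finProdFinEquiv a)).2 = _
      rw [Equiv.symm_apply_apply]
    rw [h1]
    rfl
  have h1 := ht₀ D ξ hξ hht ⊥ inferInstance hfr P' (by
      refine (MvPolynomial.totalDegree_rename_le _ _).trans ?_
      exact (Pool.Agent.Y118.UL.tdm _ _).trans hPd) (fun m => ?_) (by
      have := hval (Hz H (1 / ξ))
      rw [hP0] at this
      exact this) _ ⟨g, hg, rfl⟩
  · rw [← hval]
    exact h1
  · by_cases hm : ∃ u, Finsupp.mapDomain finProdFinEquiv u = m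
    · obtain ⟨u, rfl⟩ := hm
      rw [hP', MvPolynomial.coeff_rename_mapDomain _ finProdFinEquiv.injective, MvPolynomial.coeff_map]
      exact (⊥ : IntermediateField ℚ ℂ).algebraMap_mem _
    · push Not at hm
      rw [hP', MvPolynomial.coeff_rename_eq_zero _ _ _ fun u hu => absurd hu (hm u)]
      exact zero_mem _

end Pool.Agent.T2h17.GH
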