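import Pool.Agent.T2h17.GH.Tr
import Pool.Agent.T2h17.AH.Eng
import Pool.Agent.Y916.Af.Nolog

/-!
# The values of the free functions are independent over the field of germs
-/

set_option autoImplicit false

open Filter PowerSeries AlgebraicIndependent

namespace Pool.Agent.T2h17.GH

open Pool.Agent.Y118.UL (U mk mk_eq mk_eq_zero mk_ne_zero mk_surj ev_ge)
open Pool.Agent.Y916.Al (Ht evc Pt)
open Pool.Agent.Y916.Af (mons Free Vc)
open Pool.Agent.Y113 (GSys)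

theorem min_norm (S : Finset ℂ) (hS0 : ∀ z ∈ S, 0 < ‖z‖) : ∃ ρ : ℝ, 0 < ρ ∧ ∀ z ∈ S, ρ ≤ ‖z‖ := by
  classical
  induction S using Finset.induction_on with
  | empty => exact ⟨1, one_pos, fun z hz => absurd hz (Finset.notMem_empty _)⟩
  | insert a S ha ih =>
    obtain ⟨ρ, hρ, h2⟩ := ih fun z hz => hS0 z (Finset.mem_insert_of_mem hz)
    refine ⟨min ρ ‖a‖, lt_min hρ (hS0 a (Finset.mem_insert_self _ _)), fun z hz => ?_⟩
    rcases Finset.mem_insert.1 hz with rfl | hz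
    · exact min_le_right _ _
    · exact (min_le_left _ _).trans (h2 z hz)

/-- nonzero polynomials do not vanish at small nonzero numbers -/
theorem poly_near {c : Polynomial ℚ} (hc : c ≠ 0) : ∃ ρ : ℝ, 0 < ρ ∧ ∀ z : ℂ, z ≠ 0 → ‖z‖ < ρ →
    Polynomial.aeval z c ≠ 0 := by
  classical
  set c' : Polynomial ℂ := c.map (algebraMap ℚ ℂ) with hc'
  have hc'0 : c' ≠ 0 := (Polynomial.map_ne_zero_iff (algebraMap ℚ ℂ).injective).2 hc
  set S : Finset ℂ := c'.roots.toFinset.erase 0 with hS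
  obtain ⟨ρ, hρ, h1⟩ := min_norm S fun z hz => norm_pos_iff.2 (Finset.ne_of_mem_erase hz)
  refine ⟨ρ, hρ, fun z hz hzρ h0 => ?_⟩
  have h2 : z ∈ S := by
    rw [hS, Finset.mem_erase, Multiset.mem_toFinset, Polynomial.mem_roots hc'0, Polynomial.IsRoot.def, hc',
      Polynomial.eval_map_algebraMap]
    exact ⟨hz, h0⟩
  exact absurd (h1 z h2) (not_le.2 hzρ)

/-- the points are large -/
theorem big {D : ℕ → ℕ} {ξ : ℕ → ℂ} (hξ : ∀ n, (2 : ℝ) ^ ((D n + 2) ^ n) ≤ ‖ξ n‖) (n : ℕ) : (n : ℝ) + 1 ≤ ‖ξ n‖ := by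
  refine le_trans ?_ (hξ n)
  have h1 : n + 1 ≤ 2 ^ n := Nat.lt_two_pow_self
  have h2 : 2 ^ n ≤ 2 ^ ((D n + 2) ^ n) := Nat.pow_le_pow_right (by norm_num)
    (Nat.lt_two_pow_self.le.trans (Nat.pow_le_pow_left (by omega) n))
  exact_mod_cast h1.trans h2

theorem ev_small {D : ℕ → ℕ} {ξ : ℕ → ℂ} (hξ : ∀ n, (2 : ℝ) ^ ((D n + 2) ^ n) ≤ ‖ξ n‖) {ρ : ℝ} (hρ : 0 < ρ) :
    ∀ᶠ n in (hyperfilter ℕ : Filter ℕ), 1 / ξ n ≠ 0 ∧ ‖1 / ξ n‖ < ρ := by
  obtain ⟨B, hB⟩ := exists_nat_gt (1 / ρ)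
  filter_upwards [ev_ge B] with n hn
  have h1 := big hξ n
  have h2 : (B : ℝ) ≤ n := by exact_mod_cast hn
  have h3 : (0 : ℝ) ≤ n := Nat.cast_nonneg n
  have h4 : 0 < ‖ξ n‖ := by linarith
  refine ⟨one_div_ne_zero (norm_pos_iff.1 h4), ?_⟩
  rw [norm_div, norm_one, div_lt_comm₀ h4 hρ]
  linarith

theorem ev_ne {D : ℕ → ℕ} {ξ : ℕ → ℂ} (hξ : ∀ n, (2 : ℝ) ^ ((D n + 2) ^ n) ≤ ‖ξ n‖) {c : Polynomial ℚ} (hc : c ≠ 0) :
    ∀ᶠ n in (hyperfilter ℕ : Filter ℕ), Polynomial.aeval (1 / ξ n) c ≠ 0 := by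
  obtain ⟨ρ, hρ, h1⟩ := poly_near hc
  exact (ev_small hξ hρ).mono fun n hn => h1 _ hn.1 hn.2

/-- **independence** -/
theorem ind (hlow : S_low) (hgrow : S_grow) {r q : ℕ} {C : ℝ} {T : Polynomial ℤ} {h : Fin r → ℚ⟦X⟧} (hT : T ≠ 0)
    (hG : GSys q C T (fun i : Option (Fin r) => i.elim (1 : ℚ⟦X⟧) h)) {D : ℕ → ℕ} {ξ : ℕ → ℂ}
    (hht : ∀ n, Ht (D n) (D n) (ξ n)) (hξ : ∀ n, (2 : ℝ) ^ ((D n + 2) ^ n) ≤ ‖ξ n‖)
    (hx : mk ℂ (fun n => 1 / ξ n) ∈ FF D)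
    (hV : ∀ n, (fun s => evc (1 / ξ n) (h s)) ∈ Vc h (1 / ξ n)) {I : Finset (Fin r)} (hI : Free h I) :
    AlgebraicIndependent (FF D) (fun i : I => mk ℂ fun n => evc (1 / ξ n) (h i)) := by
  classical
  set x : ℕ → ℂ := fun n => 1 / ξ n with hxdef
  set z : Fin r → ℕ → ℂ := fun s n => evc (1 / ξ n) (h s) with hz
  let ψ : Polynomial ℚ →+* (ℕ → ℂ) := (Polynomial.aeval x : Polynomial ℚ →ₐ[ℚ] (ℕ → ℂ)).toRingHom
  have hψ : ∀ (c : Polynomial ℚ) n, ψ c n = Polynomial.aeval (x n) c := by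
    intro c n
    show (Polynomial.aeval x c : ℕ → ℂ) n = _
    have h1 : (Pi.evalAlgHom ℚ (fun _ : ℕ => ℂ) n) (Polynomial.aeval x c) = Polynomial.aeval (x n) c :=
      (Polynomial.aeval_algHom_apply _ _ _).symm
    exact h1
  let _ : Algebra (Polynomial ℚ) (U ℂ) := ((mk ℂ).comp ψ).toAlgebra
  have hψ0 : ∀ c : Polynomial ℚ, c ≠ 0 → mk ℂ (ψ c) ≠ 0 := by
    intro c hc
    rw [mk_ne_zero]
    exact (ev_ne hξ hc).mono fun n hn => by
      rw [hψ]
      exact hn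
  have : FaithfulSMul (Polynomial ℚ) (U ℂ) := (faithfulSMul_iff_algebraMap_injective _ _).2
    ((injective_iff_map_eq_zero _).2 fun c hc => by_contra fun h0 => hψ0 c h0 hc)
  have : FaithfulSMul (Polynomial ℚ) (PowerSeries ℚ) :=
    (faithfulSMul_iff_algebraMap_injective _ _).2 (Polynomial.coe_injective ℚ)
  have hRF : ∀ c : Polynomial ℚ, IsAlgebraic (FF D) (algebraMap (Polynomial ℚ) (U ℂ) c) := by
    intro c
    have h1 : mk ℂ (ψ c) ∈ FF D := by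
      induction c using Polynomial.induction_on' with
      | add p q hp hq =>
        rw [map_add, map_add]
        exact (FF D).add_mem hp hq
      | monomial n a =>
        have h2 : ψ (Polynomial.monomial n a) = (fun _ => ((a : ℚ) : ℂ)) * x ^ n := by
          funext m
          rw [hψ, Polynomial.aeval_monomial]
          rfl
        rw [h2, map_mul, map_pow]
        refine (FF D).mul_mem (mk_mem_FF ⟨0, _, BF.bot D, fun m => ?_⟩) ((FF D).pow_mem hx n)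
        exact (⊥ : IntermediateField ℚ ℂ).algebraMap_mem a
    exact isAlgebraic_algebraMap (⟨_, h1⟩ : FF D)
  have hrel : ∀ P : MvPolynomial (Fin r) (Polynomial ℚ), MvPolynomial.aeval h P = 0 →
      MvPolynomial.aeval (fun s => mk ℂ (z s)) P = 0 := by
    intro P hP
    have h1 : MvPolynomial.aeval (fun s => mk ℂ (z s)) P = mk ℂ (MvPolynomial.eval₂ ψ z P) := by
      rw [MvPolynomial.aeval_def]
      exact (MvPolynomial.eval₂_comp_left (mk ℂ) ψ z P).symm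
    have h2 : MvPolynomial.eval₂ ψ z P = 0 := by
      funext n
      have h3 := MvPolynomial.eval₂_comp_left (Pi.evalRingHom (fun _ : ℕ => ℂ) n) ψ z P
      have h4 : (Pi.evalRingHom (fun _ : ℕ => ℂ) n) (MvPolynomial.eval₂ ψ z P) = MvPolynomial.eval₂ ψ z P n := rfl
      rw [h4] at h3
      rw [h3]
      have h5 : (Pi.evalRingHom (fun _ : ℕ => ℂ) n).comp ψ =
          (Polynomial.aeval (x n) : Polynomial ℚ →ₐ[ℚ] ℂ).toRingHom := by
        refine RingHom.ext fun c => ?_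
        exact hψ c n
      rw [h5]
      exact hV n P hP
    rw [h1, h2, map_zero]
  have key := Pool.Agent.Y356.AF.one_point (R := Polynomial ℚ) (A := PowerSeries ℚ) (F := FF D) hRF h I hI.1 hI.2 _ hrel
  have hle := tr hlow hgrow hT hG hht hξ I hI.1
  have heq : (matroid (FF D) (U ℂ)).eRk (Set.range fun s => mk ℂ (z s)) = I.card := le_antisymm key.1 hle
  have hcl := key.2 heq
  refine Pool.Agent.Y356.AF.ind_of_rank _ ?_
  have h1 : (Set.range fun s => mk ℂ (z s)) ⊆ (matroid (FF D) (U ℂ)).closure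
      (Set.range fun i : I => mk ℂ (z i)) := by
    rintro _ ⟨s, rfl⟩
    refine (matroid (FF D) (U ℂ)).closure_subset_closure ?_ (hcl s)
    rintro _ ⟨i, hi, rfl⟩
    exact ⟨⟨i, hi⟩, rfl⟩
  have h2 := (matroid (FF D) (U ℂ)).eRk_mono h1
  rw [Matroid.eRk_closure_eq, heq] at h2
  rw [Fintype.card_coe]
  exact h2

end Pool.Agent.T2h17.GH
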