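import Pool.Agent.T2h17.GH.Stm

/-!
# (RANKK) the derived vectors span at a point; no function has to be constant
-/

set_option autoImplicit false

open PowerSeries Finset.HasAntidiagonal

namespace Pool.Agent.T2h17.GH

open Pool.Agent.Y113 (nab T_shid T_loc)
open Pool.Agent.Y916.Al (hdF PdF)
open Pool.Agent.Y261.AL

variable {F : Type} [Field F] [CharZero F]

/-- the order of the determinant if all derived vectors are orthogonal to `w` -/
lemma det_order' {N : ℕ} {T : Polynomial F} {B : Fin N → Fin N → Polynomial F}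
    (φ : Polynomial F →+* F⟦X⟧) (hφ : ∀ p, d⁄dX F (φ p) = φ (Polynomial.derivative p))
    {w : Fin N → F⟦X⟧} (hw : ∀ i, φ T * d⁄dX F (w i) = ∑ j, φ (B i j) * w j)
    (P : Fin N → Polynomial F) (m : ℕ) (hm : ∀ l < m, coeff l (∑ i, φ (P i) * w i) = 0)
    (i₀ : Fin N) (v : ℕ) (u : F⟦X⟧) (hi : w i₀ = X ^ v * u) (hu : constantCoeff u ≠ 0) :
    ∀ l, l + (N + v) ≤ m → coeff l (φ (Matrix.of fun k j : Fin N => ((nab T B)^[(k : ℕ)] P) j).det) = 0 := by
  have hNpos : 0 < N := i₀.pos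
  set M : Matrix (Fin N) (Fin N) (Polynomial F) := Matrix.of fun k j : Fin N => ((nab T B)^[(k : ℕ)] P) j with hM
  set Mφ : Matrix (Fin N) (Fin N) F⟦X⟧ := M.map φ with hMφ
  have h1 : φ M.det = Mφ.det := by rw [hMφ]; exact RingHom.map_det φ M
  have h2 : Mφ.adjugate.mulVec (Mφ.mulVec w) = Mφ.det • w := by
    rw [Matrix.mulVec_mulVec, Matrix.adjugate_mul, Matrix.smul_mulVec, Matrix.one_mulVec]
  have h3 : ∀ k : Fin N, ∀ l, l + k < m → coeff l (Mφ.mulVec w k) = 0 := by
    intro k l hl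
    have h4 : Mφ.mulVec w k = ∑ j, φ ((nab T B)^[(k : ℕ)] P j) * w j := rfl
    rw [h4, nab_iter φ hφ hw]
    exact vanish_theta _ _ m k hm l hl
  -- divisibility by powers of X
  have h5 : ∀ k : Fin N, (X : F⟦X⟧) ^ (m + 1 - N) ∣ Mφ.mulVec w k := by
    intro k
    rw [PowerSeries.X_pow_dvd_iff]
    intro l hl
    exact h3 k l (by have := k.2; omega)
  have h6 : (X : F⟦X⟧) ^ (m + 1 - N) ∣ Mφ.det * w i₀ := by
    have := congrFun h2 i₀
    rw [Pi.smul_apply, smul_eq_mul] at this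
    rw [← this]
    show (X : F⟦X⟧) ^ (m + 1 - N) ∣ ∑ k, Mφ.adjugate i₀ k * Mφ.mulVec w k
    exact Finset.dvd_sum fun k _ => Dvd.dvd.mul_left (h5 k) _
  have hu' : IsUnit u := by
    rw [PowerSeries.isUnit_iff_constantCoeff]
    exact isUnit_iff_ne_zero.2 hu
  have h7 : (X : F⟦X⟧) ^ (m + 1 - N) ∣ Mφ.det * X ^ v := by
    rw [hi, ← mul_assoc] at h6
    exact (hu'.dvd_mul_right).1 h6
  rw [h1]
  intro l hl
  have h8 := (PowerSeries.X_pow_dvd_iff.1 h7) (l + v) (by omega)
  rwa [PowerSeries.coeff_mul_X_pow] at h8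

theorem t_rankk : S_rankk := by
  intro F _ _ N T B y hy hLI ξ hξ0 hξ
  rcases Nat.eq_zero_or_pos N with hN0 | hNpos
  · subst hN0
    refine ⟨0, ?_⟩
    intro n m K P hP0
    exact absurd (Subsingleton.elim P 0) hP0
  have i₀ : Fin N := ⟨0, hNpos⟩
  have hy0 : y i₀ ≠ 0 := hLI.ne_zero i₀
  obtain ⟨c, hc⟩ := Pool.Agent.Y141.GF.t_shid F N T B y ξ hξ hy hLI
  obtain ⟨b, hbT, hbB⟩ : ∃ b : ℕ, T.natDegree ≤ b ∧ ∀ i j, (B i j).natDegree ≤ b := by
    refine ⟨T.natDegree + ∑ i, ∑ j, (B i j).natDegree, by omega, fun i j => ?_⟩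
    have h2 : (B i j).natDegree ≤ ∑ j, (B i j).natDegree :=
      Finset.single_le_sum (f := fun j => (B i j).natDegree) (fun _ _ => Nat.zero_le _) (Finset.mem_univ j)
    have h3 : ∑ j, (B i j).natDegree ≤ ∑ i, ∑ j, (B i j).natDegree :=
      Finset.single_le_sum (f := fun i => ∑ j, (B i j).natDegree) (fun _ _ => Nat.zero_le _) (Finset.mem_univ i)
    omega
  -- the order of `y i₀`
  obtain ⟨v₀, u₀, hyu, hu0⟩ : ∃ (v : ℕ) (u : F⟦X⟧), y i₀ = X ^ v * u ∧ constantCoeff u ≠ 0 := by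
    refine ⟨(y i₀).order.toNat, PowerSeries.divXPowOrder (y i₀), PowerSeries.X_pow_order_mul_divXPowOrder.symm, ?_⟩
    rw [PowerSeries.constantCoeff_divXPowOrder]
    exact PowerSeries.coeff_order hy0
  refine ⟨c + N * N * b + 2 * N + v₀, ?_⟩
  intro n m K P hP0 hPn hm hm1 hm2 g G hg hG v hv
  by_contra hv0
  set Δ := (Matrix.of fun k j : Fin N => ((nab T B)^[(k : ℕ)] P) j).det with hΔ
  have hΔ0 : Δ ≠ 0 := hc n m P hP0 hPn hm (by omega)
  have hdeg : Δ.natDegree ≤ N * n + N * N * b := natDegree_det_nab hbT hbB hPn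
  -- order at 0
  have ho1 := det_order' Polynomial.coeToPowerSeries.ringHom coe_deriv' (T := T) (B := B) (w := y)
    (by simpa [Polynomial.coeToPowerSeries.ringHom_apply] using hy) P m
    (by simpa [Polynomial.coeToPowerSeries.ringHom_apply] using hm) i₀ v₀ u₀ hyu hu0
  have hd1 : (Polynomial.X : Polynomial F) ^ (m + 1 - N - v₀) ∣ Δ := by
    rw [Polynomial.X_pow_dvd_iff]
    intro l hl
    have := ho1 l (by omega)
    rw [Polynomial.coeToPowerSeries.ringHom_apply, Polynomial.coeff_coe] at this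
    exact this
  -- local solution
  have hT0 : (Polynomial.taylor ξ T).eval 0 ≠ 0 := by
    rw [Polynomial.taylor_eval]; simpa using hξ
  obtain ⟨w, hw0, hw⟩ := Pool.Agent.Y141.GF.t_loc F N (Polynomial.taylor ξ T) (fun i j => Polynomial.taylor ξ (B i j)) v hT0
  have hw' : ∀ i, tay ξ T * d⁄dX F (w i) = ∑ j, tay ξ (B i j) * w j := hw
  have hGw := G_transfer hy hLI hG (tay ξ) (tay_deriv ξ) (tay_C ξ) hw'
  have hTc : constantCoeff (tay ξ T) ≠ 0 := by
    rw [tay_apply, ← PowerSeries.coeff_zero_eq_constantCoeff_apply, Polynomial.coeff_coe, Polynomial.taylor_coeff_zero]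
    exact hξ
  have hf : ∀ l < K + 1, coeff l (∑ i, tay ξ (P i) * w i) = 0 := by
    intro l hl
    have h2 := Pd_eq (tay ξ) (tay_deriv ξ) hGw P l (by omega)
    have h3 := congrArg constantCoeff h2
    rw [map_sum] at h3
    have h4 : ∀ j, constantCoeff (tay ξ (PdF T G P l j) * w j) = (PdF T G P l j).eval ξ * v j := by
      intro j
      rw [map_mul, hw0, tay_apply, ← PowerSeries.coeff_zero_eq_constantCoeff_apply, Polynomial.coeff_coe,
        Polynomial.taylor_coeff_zero]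
    simp only [h4, hv l (by omega), map_mul, map_pow, constantCoeff_C] at h3
    have h5 : constantCoeff (hdF l (∑ i, tay ξ (P i) * w i)) = coeff l (∑ i, tay ξ (P i) * w i) := by
      rw [← PowerSeries.coeff_zero_eq_constantCoeff_apply, coeff_hd]
      simp
    rw [h5] at h3
    rcases mul_eq_zero.1 h3 with h6 | h6
    · exact absurd h6 hg
    · rcases mul_eq_zero.1 h6 with h7 | h7
      · exact absurd h7 (pow_ne_zero _ hTc)
      · exact h7
  obtain ⟨j₀, hj₀⟩ : ∃ j, v j ≠ 0 := by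
    by_contra hcon
    push Not at hcon
    exact hv0 (funext hcon)
  have ho2 := det_order (tay ξ) (tay_deriv ξ) hw' P (K + 1) hf j₀ (by rw [hw0]; exact hj₀)
  have hd2 : (Polynomial.X - Polynomial.C ξ) ^ (K + 2 - N) ∣ Δ := by
    have h2 : (Polynomial.X : Polynomial F) ^ (K + 2 - N) ∣ Polynomial.taylor ξ Δ := by
      rw [Polynomial.X_pow_dvd_iff]
      intro l hl
      have := ho2 l (by omega)
      rw [tay_apply, Polynomial.coeff_coe] at this
      exact this
    obtain ⟨Q, hQ⟩ := h2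
    refine ⟨Polynomial.taylor (-ξ) Q, ?_⟩
    have h3 := congrArg (Polynomial.taylor (-ξ)) hQ
    rw [Polynomial.taylor_taylor, neg_add_cancel, Polynomial.taylor_zero, Polynomial.taylor_mul] at h3
    rw [h3]
    congr 1
    rw [Polynomial.taylor_pow, Polynomial.taylor_X]
    simp [sub_eq_add_neg]
  have hcop : IsCoprime ((Polynomial.X : Polynomial F) ^ (m + 1 - N - v₀)) ((Polynomial.X - Polynomial.C ξ) ^ (K + 2 - N)) := by
    apply IsCoprime.pow
    have := Polynomial.isCoprime_X_sub_C_of_isUnit_sub (R := F) (a := 0) (b := ξ)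
      (isUnit_iff_ne_zero.2 (by simpa using hξ0))
    simpa using this
  have hdvd := hcop.mul_dvd hd1 hd2
  have hle := Polynomial.natDegree_le_of_dvd hdvd hΔ0
  rw [Polynomial.natDegree_mul (pow_ne_zero _ Polynomial.X_ne_zero) (pow_ne_zero _ (Polynomial.X_sub_C_ne_zero ξ)),
    Polynomial.natDegree_X_pow, Polynomial.natDegree_pow, Polynomial.natDegree_X_sub_C] at hle
  omega

end Pool.Agent.T2h17.GH
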