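import Pool.Agent.T2h17.GH.Trf
import Pool.Agent.Y916.Al.WinP

/-!
# Transcendence degree of the values over the field of germs of polynomially bounded degree
-/

set_option autoImplicit false

open Filter PowerSeries AlgebraicIndependent

namespace Pool.Agent.T2h17.GH

open Pool.Agent.Y118.UL (U mk mk_eq mk_eq_zero mk_ne_zero mk_surj ev_ge)
open Pool.Agent.Y916.Al (Ht evc Pt)
open Pool.Agent.Y916.Af (mons)
open Pool.Agent.Y113 (GSys)

/-- quotients of integers in a larger field -/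
theorem pt_mono {K L : IntermediateField ℚ ℂ} (h : K ≤ L) {ξ : K} {X : ℝ} (hp : Pt K ξ X) :
    Pt L (IntermediateField.inclusion h ξ) X := by
  obtain ⟨u, w, hu, hw, hw0, hx, hσ⟩ := hp
  refine ⟨IntermediateField.inclusion h u, IntermediateField.inclusion h w, ?_, ?_, ?_, ?_, fun σ => ?_⟩
  · exact hu.map ((IntermediateField.inclusion h).toRingHom.toIntAlgHom)
  · exact hw.map ((IntermediateField.inclusion h).toRingHom.toIntAlgHom)
  · rwa [map_ne_zero]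
  · rw [hx, map_div₀]
  · exact hσ (σ.comp (IntermediateField.inclusion h).toRingHom)

/-- a number field for a point of bounded degree and height -/
theorem exists_fld {D : ℕ} {ξ : ℂ} (h : Ht D D ξ) (hξ : (2 : ℝ) ≤ ‖ξ‖) : ∃ K₁ : IntermediateField ℚ ℂ,
    FiniteDimensional ℚ K₁ ∧ Module.finrank ℚ K₁ ≤ D + 2 ∧ ξ ∈ K₁ ∧ ∀ K : IntermediateField ℚ ℂ, K₁ ≤ K →
    ∃ x : K, x ≠ 0 ∧ (x : ℂ) = 1 / ξ ∧ ∃ X : ℝ, Pt K x X ∧ X * ‖(x : ℂ)‖ ^ (2 * D + 2) ≤ 1 := by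
  obtain ⟨p, hp0, hpd, hpc, hp⟩ := h
  obtain ⟨K₁, ξ₁, hfd₁, hK₁d, hξ₁, hPt₁⟩ := Pool.Agent.Y916.Al.pt_root hp0 hpd hpc hp
  refine ⟨K₁, hfd₁, hK₁d.trans (by omega), by rw [← hξ₁]; exact ξ₁.2, fun K hK => ?_⟩
  have hξ0 : (0 : ℝ) < ‖ξ‖ := by linarith
  set ξL : K := IntermediateField.inclusion hK ξ₁ with hξL
  have hξLc : (ξL : ℂ) = ξ := hξ₁
  have hξL0 : ξL ≠ 0 := by
    intro h
    have h1 : (ξL : ℂ) = 0 := by rw [h]; rfl
    rw [hξLc] at h1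
    rw [h1, norm_zero] at hξ0
    exact lt_irrefl _ hξ0
  have hY0 : (0 : ℝ) ≤ ‖ξ‖ ^ D * (‖ξ‖ ^ D + 2) := by positivity
  have hPtL := Pool.Agent.Y916.Al.Pt.inv hY0 hξL0 (pt_mono hK hPt₁) 1 le_rfl
  rw [Nat.cast_one, Nat.cast_one, one_mul, one_mul] at hPtL
  have hxc : ((1 / ξL : K) : ℂ) = 1 / ξ := by
    rw [← hξLc]
    push_cast
    rfl
  refine ⟨1 / ξL, one_div_ne_zero hξL0, hxc, _, hPtL, ?_⟩
  rw [hxc, norm_div, norm_one, one_div, inv_pow, ← div_eq_mul_inv, div_le_one (by positivity)]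
  have h1 : (1 : ℝ) ≤ ‖ξ‖ ^ D := one_le_pow₀ (by linarith)
  have h2 : (4 : ℝ) ≤ ‖ξ‖ ^ 2 := by nlinarith
  calc ‖ξ‖ ^ D * (‖ξ‖ ^ D + 2) ≤ ‖ξ‖ ^ D * (‖ξ‖ ^ D * ‖ξ‖ ^ 2) := by
        refine mul_le_mul_of_nonneg_left ?_ (by positivity)
        nlinarith
    _ = ‖ξ‖ ^ (2 * D + 2) := by ring

/-- the arithmetic of the exponents -/
theorem expo {D c k c₀ n : ℕ} (hn : (k + c + 3) * c₀ ≤ n) :
    (k * (2 * D + 2) * (D + 2) ^ c + (D + 2) ^ c + 2) ^ c₀ ≤ (D + 2) ^ n := by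
  refine le_trans ?_ (Nat.pow_le_pow_right (show 0 < D + 2 by omega) hn)
  rw [pow_mul]
  refine Nat.pow_le_pow_left ?_ _
  set y : ℕ := D + 2 with hy
  have hy2 : 2 ≤ y := by omega
  have h1 : k ≤ y ^ k := (Nat.lt_two_pow_self).le.trans (Nat.pow_le_pow_left hy2 k)
  have h2 : 2 * D + 2 ≤ y ^ 2 := by
    rw [pow_two]
    nlinarith
  have h3 : k * (2 * D + 2) * y ^ c ≤ y ^ (k + c + 2) := by
    calc k * (2 * D + 2) * y ^ c ≤ y ^ k * y ^ 2 * y ^ c :=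
          Nat.mul_le_mul_right _ (Nat.mul_le_mul h1 h2)
      _ = y ^ (k + c + 2) := by rw [← pow_add, ← pow_add]; congr 1; ring
  have h4 : y ^ c * 4 ≤ y ^ (k + c + 2) := by
    calc y ^ c * 4 ≤ y ^ c * y ^ (k + 2) := by
          refine Nat.mul_le_mul_left _ ?_
          calc 4 = 2 ^ 2 := by norm_num
            _ ≤ y ^ 2 := Nat.pow_le_pow_left hy2 2
            _ ≤ y ^ (k + 2) := Nat.pow_le_pow_right (by omega) (by omega)
      _ = y ^ (k + c + 2) := by rw [← pow_add]; congr 1; ring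
  have h5 : 1 ≤ y ^ c := Nat.one_le_pow _ _ (by omega)
  have h6 : y ^ (k + c + 2) * 2 ≤ y ^ (k + c + 3) := by
    rw [show k + c + 3 = (k + c + 2) + 1 by ring, pow_succ]
    exact Nat.mul_le_mul_left _ hy2
  omega

theorem tr (hlow : S_low) (hgrow : S_grow) {r q : ℕ} {C : ℝ} {T : Polynomial ℤ} {h : Fin r → ℚ⟦X⟧} (hT : T ≠ 0)
    (hG : GSys q C T (fun i : Option (Fin r) => i.elim (1 : ℚ⟦X⟧) h)) {D : ℕ → ℕ} {ξ : ℕ → ℂ}
    (hht : ∀ n, Ht (D n) (D n) (ξ n)) (hξ : ∀ n, (2 : ℝ) ^ ((D n + 2) ^ n) ≤ ‖ξ n‖) (I : Finset (Fin r))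
    (hI : AlgebraicIndependent (Polynomial ℚ) (fun i : I => h i)) :
    (I.card : ℕ∞) ≤ (matroid (FF D) (U ℂ)).eRk (Set.range fun s => mk ℂ fun n => evc (1 / ξ n) (h s)) := by
  classical
  set f : Fin r → U ℂ := fun s => mk ℂ fun n => evc (1 / ξ n) (h s) with hf
  obtain ⟨B, hB⟩ := (matroid (FF D) (U ℂ)).exists_isBasis (Set.range f) (Set.subset_univ _)
  rw [hB.eRk_eq_encard]
  have hBfin : B.Finite := (Set.finite_range _).subset hB.subset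
  lift B to Finset (U ℂ) using hBfin
  have hj : ∀ b : (B : Set (U ℂ)), ∃ j, f j = b := fun b => hB.subset b.2
  choose j hj using hj
  set J : Finset (Fin r) := Finset.univ.image j with hJ
  have hJB : J.card ≤ B.card := by
    refine Finset.card_image_le.trans ?_
    simp
  rw [Set.encard_coe_eq_coe_finsetCard]
  refine le_trans ?_ (Nat.cast_le.2 hJB)
  have hBJ : (B : Set (U ℂ)) ⊆ Set.range fun i : J => f i := by
    intro b hb
    exact ⟨⟨j ⟨b, hb⟩, Finset.mem_image.2 ⟨_, Finset.mem_univ _, rfl⟩⟩, hj ⟨b, hb⟩⟩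
  have hcl : ∀ s, IsAlgebraic (Algebra.adjoin (FF D) (Set.range fun i : J => f i)) (f s) := by
    intro s
    have h1 : f s ∈ (matroid (FF D) (U ℂ)).closure (B : Set (U ℂ)) := hB.subset_closure ⟨s, rfl⟩
    have h2 := (matroid (FF D) (U ℂ)).closure_subset_closure hBJ h1
    rw [matroid_closure_eq] at h2
    exact (Subalgebra.mem_algebraicClosure _ _).1 h2
  -- the fields of the points
  have hξ2 : ∀ n, (2 : ℝ) ≤ ‖ξ n‖ := by
    intro n
    refine le_trans ?_ (hξ n)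
    calc (2 : ℝ) = 2 ^ 1 := (pow_one _).symm
      _ ≤ _ := pow_le_pow_right₀ (by norm_num) (Nat.one_le_pow _ _ (by omega))
  choose K₀ hK1 hK2 hK3 hK4 using fun n => exists_fld (hht n) (hξ2 n)
  have hK₀ : BF D 1 K₀ := fun n => ⟨hK1 n, by rw [pow_one]; exact hK2 n⟩
  obtain ⟨c, b, K, hK, hK₀K, hev⟩ := trf D hK₀ (fun s n => evc (1 / ξ n) (h s)) J hcl
  obtain ⟨Cg, hCg⟩ := hgrow r b
  obtain ⟨c₀, hc₀⟩ := hlow r q C T h hT hG
  by_contra hcon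
  have hcard : J.card < I.card := by
    rw [Nat.cast_le, not_le] at hcon
    exact hcon
  obtain ⟨n, ⟨G, hG1, hG2, hG3, hG4⟩, hn⟩ := (hev.and (ev_ge ((I.card.factorial * 2 * Cg + c + 3) * c₀))).exists
  obtain ⟨hfd, hfr⟩ := hK n
  obtain ⟨x, hx0, hxc, X, hPt, hX⟩ := hK4 n (K n) (hK₀K n)
  set m : ℕ := (D n + 2) ^ c with hm
  set Δ : ℕ := I.card.factorial * 2 * Cg * (2 * D n + 2) * m with hΔ
  have hgr := hCg (K n) (fun s => evc (1 / ξ n) (h s)) J G hG1 hG2 hG3 hG4 Δ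
  have hlo := hc₀ Δ m (2 * D n + 2) (K n) x X hfd hfr hx0 hPt (by
    rw [hxc, norm_div, norm_one, one_div, inv_mul_le_iff₀ (by linarith [hξ2 n]), mul_one]
    refine le_trans (pow_le_pow_right₀ (by norm_num) ?_) (hξ n)
    exact expo hn) hX I hI
  rw [hxc] at hlo
  have h1 : (Δ + 1) ^ I.card ≤ Δ * (Δ + 1) ^ J.card := by
    refine hlo.trans ?_
    calc I.card.factorial * (2 * (2 * D n + 2) * m * _) ≤ I.card.factorial * (2 * (2 * D n + 2) * m *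
          (Cg * (Δ + 1) ^ J.card)) := Nat.mul_le_mul_left _ (Nat.mul_le_mul_left _ hgr)
      _ = Δ * (Δ + 1) ^ J.card := by rw [hΔ]; ring
  have h2 : (Δ + 1) ^ (J.card + 1) ≤ (Δ + 1) ^ I.card := Nat.pow_le_pow_right (by omega) hcard
  have h3 : 0 < (Δ + 1) ^ J.card := by positivity
  rw [pow_succ] at h2
  nlinarith

end Pool.Agent.T2h17.GH
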