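import Pool.Agent.T2h17.GH.Fld

/-!
# Algebraic equations over the field of germs give algebraic equations for the single points
-/

set_option autoImplicit false

open Filter

namespace Pool.Agent.T2h17.GH

open Pool.Agent.Y118.UL (U mk mk_eq mk_eq_zero mk_ne_zero mk_surj)

section lift
variable {F Ω : Type} [Field F] [Field Ω] [Algebra F Ω]

/-- algebraic elements are roots of polynomials with nonzero leading coefficients -/
theorem exists_eqn {ι : Type} (v : ι → Ω) (a : Ω) (ha : IsAlgebraic (Algebra.adjoin F (Set.range v)) a) :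
    ∃ g : Polynomial (MvPolynomial ι F), MvPolynomial.aeval v g.leadingCoeff ≠ 0 ∧
      Polynomial.eval₂ (MvPolynomial.aeval v : MvPolynomial ι F →ₐ[F] Ω).toRingHom a g = 0 := by
  obtain ⟨p, hp0, hp⟩ := ha
  set f : MvPolynomial ι F →+* Algebra.adjoin F (Set.range v) :=
    ((MvPolynomial.aeval v : MvPolynomial ι F →ₐ[F] Ω).codRestrict (Algebra.adjoin F (Set.range v)) (by
      intro x
      rw [Algebra.adjoin_range_eq_range_aeval]
      exact ⟨x, rfl⟩)).toRingHom with hf
  have hfc : ∀ x, ((f x : Algebra.adjoin F (Set.range v)) : Ω) = MvPolynomial.aeval v x := fun x => rfl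
  have hsurj : Function.Surjective f := by
    rintro ⟨x, hx⟩
    rw [Algebra.adjoin_range_eq_range_aeval] at hx
    obtain ⟨y, hy⟩ := hx
    exact ⟨y, Subtype.ext hy⟩
  have hl : p ∈ Polynomial.lifts f := by
    rw [Polynomial.mem_lifts]
    exact Polynomial.map_surjective f hsurj p
  obtain ⟨g, hg, hdeg⟩ := Polynomial.exists_degree_eq_of_mem_lifts hl
  have hnd : g.natDegree = p.natDegree := Polynomial.natDegree_eq_of_degree_eq hdeg
  refine ⟨g, ?_, ?_⟩
  · intro h0
    rw [← hfc] at h0
    have h1 : f g.leadingCoeff = p.leadingCoeff := by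
      rw [Polynomial.leadingCoeff, hnd, ← Polynomial.coeff_map, hg]
      rfl
    rw [h1] at h0
    exact hp0 (Polynomial.leadingCoeff_eq_zero.1 (Subtype.ext h0))
  · rw [← hg, Polynomial.aeval_def, Polynomial.eval₂_map] at hp
    exact hp

end lift

section mr
variable {D : ℕ → ℕ} {ι : Type} (x : FF D → ℕ → ℂ) (K : ℕ → IntermediateField ℚ ℂ)

open Classical in
/-- the representative in the number field -/
noncomputable def yv (n : ℕ) (a : FF D) : K n := if h : x a n ∈ K n then ⟨x a n, h⟩ else 0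

/-- the polynomial at `n` -/
noncomputable def mr (n : ℕ) (P : MvPolynomial ι (FF D)) : MvPolynomial ι (K n) :=
  ∑ m ∈ P.support, MvPolynomial.monomial m (yv x K n (P.coeff m))

theorem mr_deg (n : ℕ) (P : MvPolynomial ι (FF D)) : (mr x K n P).totalDegree ≤ P.totalDegree := by
  refine MvPolynomial.totalDegree_finsetSum_le fun m hm => ?_
  refine (MvPolynomial.totalDegree_monomial_le _ _).trans ?_
  exact MvPolynomial.le_totalDegree hm

/-- the values -/
noncomputable def me (n : ℕ) (z : ι → ℕ → ℂ) (P : MvPolynomial ι (FF D)) : ℂ :=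
  MvPolynomial.aeval (fun i => z i n) (mr x K n P)

theorem mk_me (z : ι → ℕ → ℂ) (P : MvPolynomial ι (FF D))
    (hP : ∀ m ∈ P.support, mk ℂ (x (P.coeff m)) = ((P.coeff m : FF D) : U ℂ) ∧ ∀ n, x (P.coeff m) n ∈ K n) :
    mk ℂ (fun n => me x K n z P) = MvPolynomial.aeval (fun i => mk ℂ (z i)) P := by
  have h1 : (fun n => me x K n z P) = ∑ m ∈ P.support, x (P.coeff m) * m.prod fun i e => z i ^ e := by
    funext n
    rw [me, mr, map_sum, Finset.sum_apply]
    refine Finset.sum_congr rfl fun m hm => ?_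
    rw [MvPolynomial.aeval_monomial, Pi.mul_apply]
    congr 1
    · show ((yv x K n (P.coeff m) : K n) : ℂ) = _
      rw [yv, dif_pos ((hP m hm).2 n)]
    · rw [Finsupp.prod, Finsupp.prod, Finset.prod_apply]
      rfl
  rw [h1, map_sum]
  conv_rhs => rw [P.as_sum]
  rw [map_sum]
  refine Finset.sum_congr rfl fun m hm => ?_
  rw [MvPolynomial.aeval_monomial, map_mul, (hP m hm).1]
  congr 1
  rw [Finsupp.prod, Finsupp.prod, map_prod]
  simp only [map_pow]

end mr

/-- **the equations for the single points** -/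
theorem trf (D : ℕ → ℕ) {c₀ : ℕ} {K₀ : ℕ → IntermediateField ℚ ℂ} (hK₀ : BF D c₀ K₀) {r : ℕ} (v : Fin r → ℕ → ℂ)
    (J : Finset (Fin r))
    (hcl : ∀ s, IsAlgebraic (Algebra.adjoin (FF D) (Set.range fun j : J => mk ℂ (v j))) (mk ℂ (v s))) :
    ∃ (c b : ℕ) (K : ℕ → IntermediateField ℚ ℂ), BF D c K ∧ (∀ n, K₀ n ≤ K n) ∧
      ∀ᶠ n in (hyperfilter ℕ : Filter ℕ),
      ∃ G : Fin r → Polynomial (MvPolynomial J (K n)), (∀ s, (G s).natDegree ≤ b) ∧
      (∀ s i, ((G s).coeff i).totalDegree ≤ b) ∧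
      (∀ s, MvPolynomial.aeval (fun j : J => v j n) (G s).leadingCoeff ≠ 0) ∧
      ∀ s, Polynomial.eval₂ (MvPolynomial.aeval (fun j : J => v j n) : MvPolynomial J (K n) →ₐ[K n] ℂ).toRingHom
        (v s n) (G s) = 0 := by
  classical
  choose g hg1 hg2 using fun s => exists_eqn (fun j : J => mk ℂ (v j)) (mk ℂ (v s)) (hcl s)
  set S : Finset (FF D) := Finset.univ.biUnion fun s : Fin r => (Finset.range ((g s).natDegree + 1)).biUnion fun i =>
    ((g s).coeff i).support.image fun m => ((g s).coeff i).coeff m with hS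
  obtain ⟨c, K, x, hK, hK₀K, hx⟩ : ∃ (c : ℕ) (K : ℕ → IntermediateField ℚ ℂ) (x : FF D → ℕ → ℂ), BF D c K ∧
      (∀ n, K₀ n ≤ K n) ∧ ∀ a ∈ S, mk ℂ (x a) = (a : U ℂ) ∧ ∀ n, x a n ∈ K n := by
    obtain ⟨c, K, x, hK, -, hx⟩ := FF_common D S
    exact ⟨c + c₀, _, x, hK.sup hK₀, fun n => le_sup_right, fun a ha => ⟨(hx a ha).1, fun n =>
      (le_sup_left : K n ≤ _) ((hx a ha).2 n)⟩⟩
  have hmem : ∀ s, ∀ i ≤ (g s).natDegree, ∀ m ∈ ((g s).coeff i).support,
      mk ℂ (x (((g s).coeff i).coeff m)) = ((((g s).coeff i).coeff m : FF D) : U ℂ) ∧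
      ∀ n, x (((g s).coeff i).coeff m) n ∈ K n := by
    intro s i hi m hm
    refine hx _ ?_
    rw [hS]
    exact Finset.mem_biUnion.2 ⟨s, Finset.mem_univ _, Finset.mem_biUnion.2 ⟨i, Finset.mem_range.2 (by omega),
      Finset.mem_image.2 ⟨m, hm, rfl⟩⟩⟩
  obtain ⟨b, hb1, hb2⟩ : ∃ b : ℕ, (∀ s, (g s).natDegree ≤ b) ∧
      ∀ s, ∀ i ≤ (g s).natDegree, ((g s).coeff i).totalDegree ≤ b := by
    refine ⟨∑ s, ((g s).natDegree + ∑ i ∈ Finset.range ((g s).natDegree + 1), ((g s).coeff i).totalDegree),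
      fun s => ?_, fun s i hi => ?_⟩
    · refine le_trans ?_ (Finset.single_le_sum (f := fun s => (g s).natDegree +
        ∑ i ∈ Finset.range ((g s).natDegree + 1), ((g s).coeff i).totalDegree) (fun _ _ => Nat.zero_le _)
        (Finset.mem_univ s))
      exact Nat.le_add_right _ _
    · refine le_trans ?_ (Finset.single_le_sum (f := fun s => (g s).natDegree +
        ∑ i ∈ Finset.range ((g s).natDegree + 1), ((g s).coeff i).totalDegree) (fun _ _ => Nat.zero_le _)
        (Finset.mem_univ s))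
      refine le_trans ?_ (Nat.le_add_left _ _)
      exact Finset.single_le_sum (f := fun i => ((g s).coeff i).totalDegree) (fun _ _ => Nat.zero_le _)
        (Finset.mem_range.2 (by omega))
  -- the polynomials
  set G : ∀ n : ℕ, Fin r → Polynomial (MvPolynomial J (K n)) := fun n s =>
    ∑ i ∈ Finset.range ((g s).natDegree + 1), Polynomial.C (mr x K n ((g s).coeff i)) * Polynomial.X ^ i with hG
  have hGc : ∀ n s i, (G n s).coeff i = if i ≤ (g s).natDegree then mr x K n ((g s).coeff i) else 0 := by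
    intro n s i
    simp only [hG, Polynomial.finsetSum_coeff, Polynomial.coeff_C_mul_X_pow]
    split_ifs with h
    · rw [Finset.sum_eq_single i]
      · rw [if_pos rfl]
      · intro j _ hj
        rw [if_neg (Ne.symm hj)]
      · intro h1
        exact absurd (Finset.mem_range.2 (by omega)) h1
    · refine Finset.sum_eq_zero fun j hj => ?_
      rw [Finset.mem_range] at hj
      rw [if_neg (by omega)]
  have hGd : ∀ n s, (G n s).natDegree ≤ (g s).natDegree := by
    intro n s
    rw [Polynomial.natDegree_le_iff_coeff_eq_zero]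
    intro i hi
    rw [hGc, if_neg (by omega)]
  have hval : ∀ s, ∀ i ≤ (g s).natDegree, mk ℂ (fun n => me x K n (fun j : J => v j) ((g s).coeff i)) =
      MvPolynomial.aeval (fun j : J => mk ℂ (v j)) ((g s).coeff i) := fun s i hi =>
    mk_me x K _ _ (hmem s i hi)
  have hlc : ∀ s, ∀ᶠ n in (hyperfilter ℕ : Filter ℕ),
      me x K n (fun j : J => v j) ((g s).coeff (g s).natDegree) ≠ 0 := by
    intro s
    rw [← mk_ne_zero, hval s _ le_rfl]
    exact hg1 s
  have hroot : ∀ s, ∀ᶠ n in (hyperfilter ℕ : Filter ℕ), ∑ i ∈ Finset.range ((g s).natDegree + 1),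
      me x K n (fun j : J => v j) ((g s).coeff i) * v s n ^ i = 0 := by
    intro s
    have h1 : mk ℂ (fun n => ∑ i ∈ Finset.range ((g s).natDegree + 1),
        me x K n (fun j : J => v j) ((g s).coeff i) * v s n ^ i) = 0 := by
      have h2 : (fun n => ∑ i ∈ Finset.range ((g s).natDegree + 1),
          me x K n (fun j : J => v j) ((g s).coeff i) * v s n ^ i) =
          ∑ i ∈ Finset.range ((g s).natDegree + 1),
          (fun n => me x K n (fun j : J => v j) ((g s).coeff i)) * v s ^ i := by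
        funext n
        rw [Finset.sum_apply]
        rfl
      rw [h2, map_sum, ← hg2 s, Polynomial.eval₂_eq_sum_range]
      refine Finset.sum_congr rfl fun i hi => ?_
      rw [Finset.mem_range] at hi
      rw [map_mul, map_pow, hval s i (by omega)]
      rfl
    exact mk_eq_zero.1 h1
  refine ⟨c, b, K, hK, hK₀K, ?_⟩
  filter_upwards [eventually_all.2 hlc, eventually_all.2 hroot] with n h1 h2
  have hne : ∀ s, (G n s).natDegree = (g s).natDegree := by
    intro s
    refine le_antisymm (hGd n s) (Polynomial.le_natDegree_of_ne_zero ?_)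
    rw [hGc, if_pos le_rfl]
    intro h0
    apply h1 s
    rw [me, h0, map_zero]
  refine ⟨G n, fun s => (hGd n s).trans (hb1 s), fun s i => ?_, fun s => ?_, fun s => ?_⟩
  · rw [hGc]
    split_ifs with h
    · exact (mr_deg x K n _).trans (hb2 s i h)
    · rw [MvPolynomial.totalDegree_zero]
      exact Nat.zero_le _
  · rw [Polynomial.leadingCoeff, hne, hGc, if_pos le_rfl]
    exact h1 s
  · rw [Polynomial.eval₂_eq_sum_range, hne, ← h2 s]
    refine Finset.sum_congr rfl fun i hi => ?_
    rw [Finset.mem_range] at hi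
    rw [hGc, if_pos (by omega)]
    rfl

end Pool.Agent.T2h17.GH
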